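import Pool.Agent.Run7.h38.KG.Cov

/-!
# The decomposition of the cohomology into Hodge classes and transcendental classes
-/

set_option linter.unusedSectionVars false

open CategoryTheory AlgebraicGeometry TensorProduct

universe u

namespace Run7.h38.KG

open Module Pool.Agent.N996.BP Pool.Agent.N996.BP.Geo
open Pool.Agent.H914 Pool.Agent.H914.VarClass Pool.Agent.H914.VarClass.Obj
  Pool.Agent.H914.WeilCohomology
open Pool.Agent.Y133.Half Pool.Agent.Y121.AH

variable {k : Type u} [Field k] {𝒱 : VarClass k} {ops : CycleOps 𝒱}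

/-- The decomposition of the cohomology into Hodge classes and transcendental classes. -/
structure Spl (T : HodgeTheory ops) (X : 𝒱.Obj) (s m : Type) [Fintype s] [DecidableEq s]
    [Fintype m] [DecidableEq m] where
  /-- the basis -/
  e : Basis (s ⊕ m) T.W.K (T.W.H X)
  /-- the index of the unit -/
  o : s
  ho : e (Sum.inl o) = 1
  hC : ∀ i, e (Sum.inl i) ∈ (hodgePred T).sp X
  /-- the dual classes -/
  β : s → T.W.H X
  hβ : ∀ i, β i ∈ (hodgePred T).sp X
  dual : ∀ i j, T.W.tr X (e (Sum.inl j) * β i) = if i = j then 1 else 0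
  orth : ∀ x ∈ (hodgePred T).sp X, ∀ j, T.W.tr X (e (Sum.inr j) * x) = 0

variable {T : HodgeTheory ops} {X : 𝒱.Obj}

/-- The functional given by a class on the Hodge classes. -/
noncomputable def pf (T : HodgeTheory ops) (X : 𝒱.Obj) :
    T.W.H X →ₗ[T.W.K] Dual T.W.K ((hodgePred T).sp X) :=
  (LinearMap.lcomp T.W.K T.W.K ((hodgePred T).sp X).subtype) ∘ₗ pd T.W X

lemma pf_apply (x : T.W.H X) (y : (hodgePred T).sp X) :
    pf T X x y = T.W.tr X (x * (y : T.W.H X)) := rfl

/-- The transcendental classes. -/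
noncomputable def tc (T : HodgeTheory ops) (X : 𝒱.Obj) : Submodule T.W.K (T.W.H X) :=
  LinearMap.ker (pf T X)

lemma mem_tc {x : T.W.H X} :
    x ∈ tc T X ↔ ∀ y ∈ (hodgePred T).sp X, T.W.tr X (x * y) = 0 := by
  rw [tc, LinearMap.mem_ker]
  constructor
  · intro h y hy
    have h1 := LinearMap.congr_fun h ⟨y, hy⟩
    exact h1
  · intro h
    apply LinearMap.ext
    intro y
    exact h y y.2

/-- The restriction to the Hodge classes is bijective. -/
lemma pf_bij : Function.Bijective (pf T X ∘ₗ ((hodgePred T).sp X).subtype) := by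
  have hinj : Function.Injective (pf T X ∘ₗ ((hodgePred T).sp X).subtype) := by
    rw [← LinearMap.ker_eq_bot, LinearMap.ker_eq_bot']
    rintro ⟨x, hx⟩ h
    refine Subtype.ext (hodge_nondeg (T := T) hx fun y hy => ?_)
    exact LinearMap.congr_fun h ⟨y, hy⟩
  refine ⟨hinj, ?_⟩
  refine (LinearMap.injective_iff_surjective_of_finrank_eq_finrank ?_).1 hinj
  rw [Subspace.dual_finrank_eq]

lemma isCompl_tc : IsCompl ((hodgePred T).sp X) (tc T X) := by
  constructor
  · rw [Submodule.disjoint_def]
    intro x hx hx'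
    exact hodge_nondeg (T := T) hx (mem_tc.1 hx')
  · rw [codisjoint_iff, eq_top_iff]
    rintro x -
    obtain ⟨c, hc⟩ := (pf_bij (T := T) (X := X)).2 (pf T X x)
    have h1 : x = (c : T.W.H X) + (x - c) := by abel
    rw [h1]
    refine Submodule.add_mem_sup c.2 ?_
    rw [tc, LinearMap.mem_ker, map_sub, sub_eq_zero]
    exact hc.symm

/-- **The decomposition.** -/
theorem exists_spl (T : HodgeTheory ops) (X : 𝒱.Obj) [Nontrivial (T.W.H X)] :
    ∃ (s m : Type) (_ : Fintype s) (_ : DecidableEq s) (_ : Fintype m) (_ : DecidableEq m)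
      (D : Spl T X s m), ∀ j, D.e (Sum.inr j) ∈ tc T X := by
  classical
  have h2 : (⟨1, (hodgePred T).sys.one X⟩ : (hodgePred T).sp X) ≠ 0 := by
    intro h
    exact one_ne_zero (congrArg Subtype.val h)
  have hs : LinearIndepOn T.W.K id
      ({⟨1, (hodgePred T).sys.one X⟩} : Set ((hodgePred T).sp X)) :=
    LinearIndepOn.singleton h2
  let bC := Basis.extend hs
  have h3 := Basis.subset_extend hs (Set.mem_singleton _)
  let o : (hs.extend (Set.subset_univ _)) := ⟨_, h3⟩
  have ho : bC o = ⟨1, (hodgePred T).sys.one X⟩ := by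
    rw [Basis.extend_apply_self]
  let bN := Module.finBasis T.W.K (tc T X)
  have hfin : Finite (hs.extend (Set.subset_univ _)) := Module.Finite.finite_basis bC
  let e : Basis ((hs.extend (Set.subset_univ _)) ⊕ Fin (finrank T.W.K (tc T X))) T.W.K
      (T.W.H X) := (bC.prod bN).map (Submodule.prodEquivOfIsCompl _ _ isCompl_tc)
  have hl : ∀ i, e (Sum.inl i) = (bC i : T.W.H X) := by
    intro i
    simp [e]
  have hr : ∀ i, e (Sum.inr i) = (bN i : T.W.H X) := by
    intro i
    simp [e]
  choose β hβ using fun i => (pf_bij (T := T) (X := X)).2 (bC.coord i)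
  refine ⟨_, _, Fintype.ofFinite _, inferInstance, inferInstance, inferInstance,
    { e := e
      o := o
      ho := by rw [hl, ho]
      hC := fun i => by rw [hl]; exact (bC i).2
      β := fun i => β i
      hβ := fun i => (β i).2
      dual := fun i j => ?_
      orth := fun x hx j => ?_ }, fun j => ?_⟩
  · rw [hl, ← PH.even_comm (ClassPred.sp_even (β i).2)]
    have h4 := LinearMap.congr_fun (hβ i) (bC j)
    have h5 : T.W.tr X ((β i : T.W.H X) * (bC j : T.W.H X)) = bC.coord i (bC j) := h4
    rw [h5, Basis.coord_apply, Basis.repr_self, Finsupp.single_apply]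
    by_cases hij : i = j
    · rw [if_pos hij, if_pos hij.symm]
    · rw [if_neg hij, if_neg (Ne.symm hij)]
  · rw [hr]
    exact mem_tc.1 (bN j).2 x hx
  · change e (Sum.inr j) ∈ tc T X
    rw [hr]
    exact (bN j).2

namespace Spl

variable {s m : Type} [Fintype s] [DecidableEq s] [Fintype m] [DecidableEq m] (D : Spl T X s m)

/-- The transcendental basis classes. -/
noncomputable abbrev t (j : m) : T.W.H X := D.e (Sum.inr j)

/-- The Hodge basis classes. -/
noncomputable abbrev α (i : s) : T.W.H X := D.e (Sum.inl i)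

lemma comm {x : T.W.H X} (hx : x ∈ (hodgePred T).sp X) (y : T.W.H X) : x * y = y * x :=
  PH.even_comm (ClassPred.sp_even hx) y

lemma tr_t {x : T.W.H X} (hx : x ∈ (hodgePred T).sp X) (j : m) : T.W.tr X (D.t j * x) = 0 :=
  D.orth x hx j

lemma tr_t' {x : T.W.H X} (hx : x ∈ (hodgePred T).sp X) (j : m) : T.W.tr X (x * D.t j) = 0 := by
  rw [comm hx]; exact D.orth x hx j

lemma tr_α (i j : s) : T.W.tr X (D.α j * D.β i) = if i = j then 1 else 0 := D.dual i j

/-- The expansion of a Hodge class. -/
lemma hodge_sum {x : T.W.H X} (hx : x ∈ (hodgePred T).sp X) :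
    x = ∑ i, T.W.tr X (x * D.β i) • D.α i := by
  rw [← sub_eq_zero]
  refine hodge_nondeg (T := T) (Submodule.sub_mem _ hx (Submodule.sum_mem _ fun i _ =>
    Submodule.smul_mem _ _ (D.hC i))) fun y hy => ?_
  -- it suffices to know the coordinates
  have hc : ∀ (z : T.W.H X) (i : s), D.e.repr z (Sum.inl i) = T.W.tr X (z * D.β i) := by
    intro z i
    conv_rhs => rw [← D.e.sum_repr z]
    rw [Fintype.sum_sum_type, add_mul, map_add, Finset.sum_mul, map_sum, Finset.sum_mul, map_sum]
    have h1 : ∀ j, T.W.tr X (D.e.repr z (Sum.inl j) • D.e (Sum.inl j) * D.β i) =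
        if i = j then D.e.repr z (Sum.inl j) else 0 := by
      intro j
      rw [smul_mul_assoc, map_smul, D.dual]
      split_ifs <;> simp
    have h2 : ∀ j, T.W.tr X (D.e.repr z (Sum.inr j) • D.e (Sum.inr j) * D.β i) = 0 := by
      intro j
      rw [smul_mul_assoc, map_smul, D.orth _ (D.hβ i), smul_zero]
    rw [Finset.sum_congr rfl fun j _ => h1 j, Finset.sum_congr rfl fun j _ => h2 j]
    simp
  have h1 : x - ∑ i, T.W.tr X (x * D.β i) • D.α i =
      ∑ j, D.e.repr x (Sum.inr j) • D.e (Sum.inr j) := by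
    conv_lhs => rw [← D.e.sum_repr x]
    rw [Fintype.sum_sum_type]
    have h2 : ∀ i, T.W.tr X ((∑ i, D.e.repr x (Sum.inl i) • D.e (Sum.inl i) +
        ∑ j, D.e.repr x (Sum.inr j) • D.e (Sum.inr j)) * D.β i) • D.α i =
          D.e.repr x (Sum.inl i) • D.e (Sum.inl i) := by
      intro i
      rw [← Fintype.sum_sum_type fun i => D.e.repr x i • D.e i, D.e.sum_repr, hc]
    rw [Finset.sum_congr rfl fun i _ => h2 i]
    abel
  rw [h1, Finset.sum_mul, map_sum]
  exact Finset.sum_eq_zero fun j _ => by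
    rw [smul_mul_assoc, map_smul, D.orth _ hy, smul_zero]

lemma t_ne_zero (j : m) : D.t j ≠ 0 := D.e.ne_zero _

end Spl

end Run7.h38.KG
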