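import Pool.Agent.Run7.h38.KG.CT

/-!
# The central theorem
-/

set_option linter.unusedSectionVars false

open CategoryTheory AlgebraicGeometry TensorProduct

universe u

namespace Run7.h38.KG

open Module Pool.Agent.N996.BP Pool.Agent.N996.BP.Geo
open Pool.Agent.H914 Pool.Agent.H914.VarClass Pool.Agent.H914.VarClass.Obj
  Pool.Agent.H914.WeilCohomology
open Pool.Agent.Y133.Half Pool.Agent.Y121.AH
open Pool.Agent.N996.FP.Geo (e2 e3)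
open Run7.h38.KS (cq KD VD HK blk a1 a2 a3 LT2 LV2 PosT)

variable {k : Type u} [Field k] {𝒱 : VarClass k} {ops : CycleOps 𝒱} {T : HodgeTheory ops}
  {X A : 𝒱.Obj}

set_option maxHeartbeats 400000

section Mat

variable {s m s' n : Type} [Fintype s] [DecidableEq s] [Fintype m] [DecidableEq m] [Fintype s']
  [DecidableEq s'] [Fintype n] [DecidableEq n] {Dx : Spl T X s m}
  {eA : Basis (s' ⊕ n) T.W.K (T.W.H A)} {o' : s'} {deg : s' ⊕ n → ℕ}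
  {φ : LinearMap.BilinForm T.W.K (T.W.H X)} {ψ : LinearMap.BilinForm T.W.K (T.W.H A)}
  {r : ℕ} {a a' c : T.W.K} {γ : T.W.H ((X.prod A).prod A)} {dz : T.W.H A}

lemma Qi_t {Q Qi : Matrix n n ℚ} (hQ : Q * Qi = 1) (hQt : Q.transpose = -Q) :
    Qi.transpose = -Qi := by
  have h1 : Qi * Q = 1 := mul_eq_one_comm.1 hQ
  have h2 : Qi.transpose * Q.transpose = 1 := by
    rw [← Matrix.transpose_mul, hQ, Matrix.transpose_one]
  rw [hQt, Matrix.mul_neg] at h2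
  have h3 : Qi.transpose * Q = -1 := by rw [← h2, neg_neg]
  calc Qi.transpose = Qi.transpose * (Q * Qi) := by rw [hQ, Matrix.mul_one]
    _ = Qi.transpose * Q * Qi := by rw [Matrix.mul_assoc]
    _ = -Qi := by rw [h3, Matrix.neg_mul, Matrix.one_mul]

/-- **The arrays of the Hodge classes.** -/
theorem all_le (DA : AB eA o' deg) (hX : X.dim = 2 * r) (hK3 : K3A T X φ r a)
    (hD : ∀ j, Dx.e (Sum.inr j) ∈ tc T X) (h : KSA T X A r c γ)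
    (E : W1D (tauT T) (Fx T A) ψ A.dim eA) {S : Sys T.W} (hS : ∀ Y, S.C Y ≤ (hodgePred T).sp Y)
    (hSX : (hodgePred T).sp X ≤ S.C X)
    (hSA : ∀ c, IsHodge T (A.prod A) 1 c → c ∈ S.C (A.prod A)) (hSγ : γ ∈ S.C _)
    [Nontrivial (T.W.H X)] [Nontrivial (T.W.H A)] (hA0 : 0 < A.dim) [Nonempty n]
    (hdz : dz ∈ T.W.gr A (2 * (A.dim - 1))) (hdz' : dz ∈ S.C A)
    (hd : ∀ x ∈ T.W.gr A 1, ∀ y ∈ T.W.gr A 1, ψ x y = a' * T.W.tr A (dz * x * y)) :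
    ∃ H : HData (s ⊕ (m ⊕ n)), (∀ t : ℂ, t ≠ 0 → IsMat T t (X.prod A)
      (fun i => eP Dx.e eA (jj Dx.o o' i)) (H.l t)) ∧
      ∀ N, BB H (Fin (N + 1)) ≤ arf (eP Dx.e eA) (jj Dx.o o') S N := by
  have hB := hK3.B_eq (D := Dx) hD
  have ht := hK3.t_ev (D := Dx) hD
  obtain ⟨c₀, hc₀⟩ := T.rat (c / a)
  have hc₀' : c₀ ≠ 0 := by
    rintro rfl
    rw [Rat.cast_zero] at hc₀
    exact div_ne_zero h.ne hK3.ne hc₀.symm
  have hK : ∀ i j, Kmt Dx.e eA γ i * Kmt Dx.e eA γ j + Kmt Dx.e eA γ j * Kmt Dx.e eA γ i =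
      (2 * c₀ * (hK3.k3d Dx hD).B i j) • (1 : Matrix n n ℚ) := by
    refine Kmt_rel h hX DA (fun j => hK3.deg _ (hD j)) hD fun i j => ?_
    rw [Rat.cast_mul, hB, hc₀, ← mul_assoc, div_mul_cancel₀ _ hK3.ne]
  have hE := hEk h hX DA hK3 hD E (hc := hc₀') (hK := hK)
  obtain ⟨A', hA1, hA2, hA3, hA4, hA5, hA6⟩ := KS.exists_HK
    ((hK3.k3d Dx hD).kd (Kmt Dx.e eA γ) c₀ hc₀' hK) E.vd Dx.o (hK3.k3d Dx hD).posT hE
  have hB' : A'.D.B = (hK3.k3d Dx hD).B := by rw [hA2]; rfl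
  have hK' : A'.D.K = Kmt Dx.e eA γ := by rw [hA2]; rfl
  have hLV : ∀ t, A'.LV t = LV2 E.vd t := by intro t; rw [HK.LV, hA5]; rfl
  have hmat : ∀ t : ℂ, t ≠ 0 → IsMat T t (X.prod A)
      (fun i => eP Dx.e eA (jj Dx.o o' i)) (A'.H.l t) := by
    intro t ht
    rw [hA6]
    exact mat_P DA hK3 hD E ht
  obtain ⟨pA, hpA, hpAg, hpA1⟩ := exists_pt hSA
  obtain ⟨pX, hpXh, hpX1⟩ := exists_tr_hodge T X
  have hpX : pX ∈ S.C X := hSX (ClassPred.sp_of (Q := hodgePred T) hpXh)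
  have hqr : A'.H.Qr = blk 1 (hK3.k3d Dx hD).B E.vd.Qv := by rw [A'.hQr, hA3, hB', hA4]
  have hfam : RFam A'.H (arf (eP Dx.e eA) (jj Dx.o o') S) :=
    rfam_of (eP Dx.e eA) hS (jj_inj Dx.o o') hmat (p := par2)
      (b_par Dx.ho DA.ho (hK3.e_ev hD) DA.v_par)
      (exists_proj2 hpA hpA1 Dx.ho DA.ho fun i =>
        ⟨T.W.tr_eq_zero (DA.v_mem i) (by omega), pt_mul hpAg (DA.v_mem i)⟩)
      (q_mem hSX hpX hpA hdz')
      (fun i i' => by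
        rw [hqr]
        exact q_val DA hK3 hD E hSX hpX hpX1 hpA hpA1 hA0 hdz hd i i')
  obtain ⟨hi1, hi2, hi3⟩ := A'.blk_invs
  have hBi : (hK3.k3d Dx hD).B * A'.Bi = 1 := by rw [← hB']; exact hi2
  have hQi : ∀ t : ℂ, t ≠ 0 → LV2 E.vd t * cq A'.Qvi * (LV2 E.vd t).transpose = cq A'.Qvi := by
    intro t ht
    rw [← hLV]
    exact HK.LV_Qvi ht
  have hQt : A'.Qvi.transpose = -A'.Qvi := by
    refine Qi_t hi3 ?_
    rw [hA4]
    exact E.vd.hQt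
  refine ⟨A'.H, hmat, fun N => KS.coreKS hfam hA1 ?_ ?_ ?_ ?_ N⟩
  · intro i
    refine hfam.of e1 (n := 0) ?_
    change clf (eP Dx.e eA) (jj Dx.o o') 0 _ ∈ S.C (pw (X.prod A) 0)
    have h1 := clf_one (eP Dx.e eA) (jj Dx.o o' : s ⊕ (m ⊕ n) → _) (Sum.inl i)
    have h2 : clf (eP Dx.e eA) (jj Dx.o o' : s ⊕ (m ⊕ n) → _) 0
        (rei e1 (a1 (Pi.single (Sum.inl i) 1))) = T.W.map (fst X A) (Dx.e (Sum.inl i)) :=
      h1.trans (b_s DA.ho i)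
    have h3 : T.W.map (fst X A) (Dx.e (Sum.inl i)) ∈ S.C (X.prod A) :=
      S.map _ (hSX (Dx.hC i))
    exact h2.symm ▸ h3
  · refine hfam.of e2 (n := 1) ?_
    change clf (eP Dx.e eA) (jj Dx.o o') 1 _ ∈ S.C (pw (X.prod A) 1)
    rw [A'.hQir]
    have h1 := clf_blk Dx.ho DA.ho A'.Qsi A'.Bi A'.Qvi
    have h2 : Dx.τc A'.Bi ∈ S.C (X.prod X) :=
      Dx.τc_mem hB ht hK3.ne (hK3.k3d Dx hD).B_symm hBi hSX
    have h3 : mc (fun l => eA (Sum.inr l)) A'.Qvi ∈ S.C (A.prod A) :=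
      hSA _ (mc_hodge DA E hQi)
    have h4 : ∑ i, ∑ j, ((A'.Qsi i j : ℚ) : T.W.K) •
        xp T.W (Dx.e (Sum.inl i)) (Dx.e (Sum.inl j)) ∈ S.C (X.prod X) :=
      Submodule.sum_mem _ fun i _ => Submodule.sum_mem _ fun j _ =>
        Submodule.smul_mem _ _ (Sys.xp_mem_C S (hSX (Dx.hC i)) (hSX (Dx.hC j)))
    have h5 := Submodule.add_mem _ (Submodule.add_mem _ (S.map (q1 X A) h4)
      (S.map (q1 X A) h2)) (S.map (q2 X A) h3)
    exact h1.symm ▸ h5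
  · intro M hM
    refine hfam.of e2 (n := 1) ?_
    change clf (eP Dx.e eA) (jj Dx.o o') 1 _ ∈ S.C (pw (X.prod A) 1)
    have h1 := clf_blk Dx.ho DA.ho 0 0 M
    have hM' : ∀ t : ℂ, t ≠ 0 → LV2 E.vd t * cq M * (LV2 E.vd t).transpose = cq M := by
      intro t ht
      rw [← hLV]
      exact hM t ht
    have h3 : mc (fun l => eA (Sum.inr l)) M ∈ S.C (A.prod A) := hSA _ (mc_hodge DA E hM')
    have h4 : (∑ i, ∑ j, (((0 : Matrix s s ℚ) i j : ℚ) : T.W.K) •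
        xp T.W (Dx.e (Sum.inl i)) (Dx.e (Sum.inl j))) = 0 :=
      Finset.sum_eq_zero fun i _ => Finset.sum_eq_zero fun j _ => by
        rw [Matrix.zero_apply, Rat.cast_zero, zero_smul]
    have h5 : (∑ i, ∑ j, (((0 : Matrix m m ℚ) i j : ℚ) : T.W.K) •
        xp T.W (Dx.e (Sum.inr i)) (Dx.e (Sum.inr j))) = 0 :=
      Finset.sum_eq_zero fun i _ => Finset.sum_eq_zero fun j _ => by
        rw [Matrix.zero_apply, Rat.cast_zero, zero_smul]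
    rw [h4, h5, map_zero, zero_add, zero_add] at h1
    exact h1.symm ▸ S.map (q2 X A) h3
  · refine hfam.of e3 (n := 2) ?_
    change clf (eP Dx.e eA) (jj Dx.o o') 2 _ ∈ S.C (pw (X.prod A) 2)
    have h1 := clf_KT Dx.ho DA.ho A'.KTm
    have h2 : kc (fun j => Dx.e (Sum.inr j)) (fun l => eA (Sum.inr l)) A'.KTm ∈
        S.C ((X.prod A).prod A) := by
      have h3 := kc_mem DA hX hK3 hD h E hSX hSA hSγ hBi hQi hQt
      have h4 : A'.KTm = fun i => ∑ i', A'.Bi i i' • (Kmt Dx.e eA γ i' * A'.Qvi) := by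
        funext i
        rw [HK.KTm, hK']
      rw [h4]
      exact h3
    exact h1.symm ▸ S.map (rho3 X A) h2

end Mat

/-- **The central theorem.** -/
theorem central {φ : LinearMap.BilinForm T.W.K (T.W.H X)}
    {ψ : LinearMap.BilinForm T.W.K (T.W.H A)} {r : ℕ} {a a' c : T.W.K}
    {γ : T.W.H ((X.prod A).prod A)} {S : Sys T.W} (hS : ∀ Y, S.C Y ≤ (hodgePred T).sp Y)
    (hX : X.dim = 2 * r) (hK3 : K3A T X φ r a) (hψ : IsPHS (tauT T) (Fx T A) ψ A.dim)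
    (hgen : Algebra.adjoin T.W.K (T.W.gr A 1 : Set (T.W.H A)) = ⊤) (hA0 : 0 < A.dim)
    [Nontrivial (T.W.H X)] [Nontrivial (T.W.H A)]
    {δ : T.W.H A} (hδ : IsHodge T A 1 δ)
    (hd : ∀ x ∈ T.W.gr A 1, ∀ y ∈ T.W.gr A 1,
      ψ x y = a' * T.W.tr A (δ ^ (A.dim - 1) * x * y))
    (h : KSA T X A r c γ) (hSX : (hodgePred T).sp X ≤ S.C X)
    (hSA : ∀ c, IsHodge T (A.prod A) 1 c → c ∈ S.C (A.prod A)) (hSγ : γ ∈ S.C _) (n : ℕ) :
    (hodgePred T).sp (pw (X.prod A) n) ≤ S.C (pw (X.prod A) n) := by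
  obtain ⟨s, m, _, _, _, _, Dx, hD⟩ := exists_spl T X
  obtain ⟨s', n', _, _, _, _, eA, o', deg, DA⟩ := exists_ab T.W A
  have hdz : δ ^ (A.dim - 1) ∈ T.W.gr A (2 * (A.dim - 1)) := by
    have h1 := (hδ.pow (A.dim - 1)).1
    rwa [one_mul] at h1
  have hdz' : δ ^ (A.dim - 1) ∈ S.C A := pow_mem (deg_one_mem hSA hδ) _
  have hne : Nonempty n' := nonempty_v DA hA0 hgen
  obtain ⟨H, h1, h2⟩ := all_le (Dx := Dx) DA hX hK3 hD h (DA.w1d hψ hd) hS hSX hSA hSγ hA0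
    hdz hdz' hd
  have h3 : Cov (eP Dx.e eA) (jj Dx.o o' : s ⊕ (m ⊕ n') → _) (X.prod A) :=
    Cov.self (o := Sum.inl Dx.o) (by rw [b_s DA.ho, Dx.ho, map_one])
      (adjoin_P Dx.ho DA.ho (DA.adjoin hgen))
  obtain ⟨N, δ', hδ'⟩ := h3.pw n
  exact lift_le h1 hδ' (jj_inj Dx.o o') (h2 N)

end Run7.h38.KG
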