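import Pool.Agent.Run7.h38.KG.KCls
import Pool.Agent.N996.FP.Geo2

/-!
# Classes on the square of an abelian variety
-/

set_option linter.unusedSectionVars false

open CategoryTheory AlgebraicGeometry TensorProduct

universe u

namespace Run7.h38.KG

open Module Pool.Agent.N996.BP Pool.Agent.N996.BP.Geo
open Pool.Agent.H914 Pool.Agent.H914.VarClass Pool.Agent.H914.VarClass.Obj
  Pool.Agent.H914.WeilCohomology
open Pool.Agent.Y133.Half Pool.Agent.Y121.AH
open Pool.Agent.N996.FP (repr_gr crd_gr)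
open Pool.Agent.N996.FP.Geo (e2)
open Run7.h38.KS (a2 cq LV2)

variable {k : Type u} [Field k] {𝒱 : VarClass k} {ops : CycleOps 𝒱}

set_option maxHeartbeats 400000

section AB

variable {W : WeilCohomology.{u, 0} ops} [Algebra W.K ℂ] {A : 𝒱.Obj} {s' n : Type} [Fintype s']
  [DecidableEq s'] [Fintype n] [DecidableEq n]

/-- A homogeneous basis of the cohomology which contains the unit; the vectors with the indices of
the second kind are those of degree one. -/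
structure AB (e : Basis (s' ⊕ n) W.K (W.H A)) (o' : s') (deg : s' ⊕ n → ℕ) : Prop where
  ho : e (Sum.inl o') = 1
  hdeg : ∀ j, e j ∈ W.gr A (deg j)
  hl : ∀ i, deg (Sum.inl i) ≠ 1
  hr : ∀ i, deg (Sum.inr i) = 1

omit [Fintype s'] [DecidableEq s'] [Fintype n] [DecidableEq n] in
lemma exists_ab (W : WeilCohomology.{u, 0} ops) [Algebra W.K ℂ] (A : 𝒱.Obj)
    [Nontrivial (W.H A)] :
    ∃ (s' n : Type) (_ : Fintype s') (_ : DecidableEq s') (_ : Fintype n) (_ : DecidableEq n)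
      (e : Basis (s' ⊕ n) W.K (W.H A)) (o' : s') (deg : s' ⊕ n → ℕ), AB e o' deg := by
  classical
  obtain ⟨ι, _, _, e, o, deg, heo, hdeg⟩ := exists_ubasis W A
  have ho : deg o = 0 := by
    by_contra h
    have h1 : e.repr (1 : W.H A) o = 0 := repr_gr (W.isInternal A) hdeg (W.one_mem A) h
    rw [← heo, Basis.repr_self, Finsupp.single_eq_same] at h1
    exact one_ne_zero h1
  let ε : {i // ¬ deg i = 1} ⊕ {i // deg i = 1} ≃ ι :=
    (Equiv.sumComm _ _).trans (Equiv.sumCompl fun i => deg i = 1)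
  refine ⟨{i // ¬ deg i = 1}, {i // deg i = 1}, inferInstance, inferInstance, inferInstance,
    inferInstance, e.reindex ε.symm, ⟨o, by omega⟩, fun i => deg (ε i), ?_, ?_, ?_, ?_⟩
  · rw [Basis.reindex_apply]
    exact heo
  · intro j
    rw [Basis.reindex_apply]
    exact hdeg _
  · intro i
    exact i.2
  · intro i
    exact i.2

variable {e : Basis (s' ⊕ n) W.K (W.H A)} {o' : s'} {deg : s' ⊕ n → ℕ} (D : AB e o' deg)

include D in
lemma AB.v_mem (i : n) : e (Sum.inr i) ∈ W.gr A 1 := by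
  have h := D.hdeg (Sum.inr i)
  rwa [D.hr] at h

include D in
lemma AB.v_par (i : n) : e (Sum.inr i) ∈ PH W A 1 := PH.of (D.v_mem i)

include D in
/-- The classes of degree one. -/
lemma AB.gr_sum {x : W.H A} (hx : x ∈ W.gr A 1) :
    x = ∑ i, e.repr x (Sum.inr i) • e (Sum.inr i) := by
  conv_lhs => rw [← e.sum_repr x]
  rw [Fintype.sum_sum_type, Finset.sum_eq_zero fun i _ => ?_, zero_add]
  rw [repr_gr (W.isInternal A) D.hdeg hx (D.hl i), zero_smul]

include D in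
lemma AB.adjoin (hgen : Algebra.adjoin W.K (W.gr A 1 : Set (W.H A)) = ⊤) :
    Algebra.adjoin W.K (Set.range fun i => e (Sum.inr i)) = ⊤ := by
  rw [eq_top_iff, ← hgen]
  refine Algebra.adjoin_le fun x hx => ?_
  rw [D.gr_sum hx]
  exact Subalgebra.sum_mem _ fun i _ => Subalgebra.smul_mem _
    (Algebra.subset_adjoin (Set.mem_range_self i)) _

end AB

section Hodge

variable {T : HodgeTheory ops} {A : 𝒱.Obj} {s' n : Type} [Fintype s'] [DecidableEq s']
  [Fintype n] [DecidableEq n] {e : Basis (s' ⊕ n) T.W.K (T.W.H A)} {o' : s'} {deg : s' ⊕ n → ℕ}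
  (D : AB e o' deg) {ψ : LinearMap.BilinForm T.W.K (T.W.H A)}
  (hψ : IsPHS (tauT T) (Fx T A) ψ A.dim)

include hψ in
lemma gr_one {x : T.W.H A} (hx : x ∈ T.W.gr A 1) : ∃ a ∈ Fx T A (1, 0), ∃ b ∈ Fx T A (0, 1),
    (1 : ℂ) ⊗ₜ[T.W.K] x = a + b := by
  have key : ∀ x ∈ (⨆ r : {r : ℤ × ℤ // r.1 + r.2 = ((1 : ℕ) : ℤ)}, Fx T A r.1),
      ∃ a ∈ Fx T A (1, 0), ∃ b ∈ Fx T A (0, 1), x = a + b := by
    intro x hx
    refine Submodule.iSup_induction (fun r : {r : ℤ × ℤ // r.1 + r.2 = ((1 : ℕ) : ℤ)} =>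
      Fx T A r.1) (motive := fun x => ∃ a ∈ Fx T A (1, 0), ∃ b ∈ Fx T A (0, 1), x = a + b)
      hx ?_ ?_ ?_
    · rintro ⟨⟨p, q⟩, hr⟩ x hx
      by_cases h0 : Fx T A (p, q) = ⊥
      · rw [h0, Submodule.mem_bot] at hx
        exact ⟨0, Submodule.zero_mem _, 0, Submodule.zero_mem _, by rw [hx, add_zero]⟩
      · obtain ⟨h1, -, h2, -⟩ := hψ.range p q h0
        have hr' : p + q = ((1 : ℕ) : ℤ) := hr
        rw [Nat.cast_one] at hr'
        rcases (by omega : (p = 1 ∧ q = 0) ∨ (p = 0 ∧ q = 1)) with ⟨rfl, rfl⟩ | ⟨rfl, rfl⟩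
        · exact ⟨x, hx, 0, Submodule.zero_mem _, by rw [add_zero]⟩
        · exact ⟨0, Submodule.zero_mem _, x, hx, by rw [zero_add]⟩
    · exact ⟨0, Submodule.zero_mem _, 0, Submodule.zero_mem _, by rw [add_zero]⟩
    · rintro x y ⟨a, ha, b, hb, rfl⟩ ⟨a', ha', b', hb', rfl⟩
      exact ⟨a + a', Submodule.add_mem _ ha ha', b + b', Submodule.add_mem _ hb hb', by abel⟩
  exact key _ (T.dec.span hx)

include D hψ in
/-- The Hodge structure of weight one. -/
lemma AB.w1d {a' : T.W.K} {dz : T.W.H A}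
    (hd : ∀ x ∈ T.W.gr A 1, ∀ y ∈ T.W.gr A 1, ψ x y = a' * T.W.tr A (dz * x * y)) :
    W1D (tauT T) (Fx T A) ψ A.dim e where
  h := hψ
  hw k := gr_one hψ (D.v_mem k)
  hcl x hx i := by
    have h1 : x ∈ (T.W.gr A 1).baseChange ℂ :=
      T.dec.le A (p := 1) (q := 0) (i := 1) (by norm_num) hx
    exact crd_gr (T.W.isInternal A) D.hdeg h1 (D.hl i)
  anti i j := by
    rw [hd _ (D.v_mem i) _ (D.v_mem j), hd _ (D.v_mem j) _ (D.v_mem i), mul_assoc, mul_assoc,
      T.W.comm (D.v_mem i) (D.v_mem j)]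
    simp

variable {a' : T.W.K} {dz : T.W.H A} (hdz : dz ∈ T.W.gr A (2 * (A.dim - 1)))
  (hd : ∀ x ∈ T.W.gr A 1, ∀ y ∈ T.W.gr A 1, ψ x y = a' * T.W.tr A (dz * x * y))

/-- The operators on the classes of degree one. -/
lemma lop_v (E : W1D (tauT T) (Fx T A) ψ A.dim e) {t : ℂ} (ht : t ≠ 0) (j : n) :
    lop T t A (em T.W ℂ (e (Sum.inr j))) =
      ∑ i, cc T (LV2 E.vd t i j) • em T.W ℂ (e (Sum.inr i)) := E.dG_v ht j

/-- The class of the form on the square. -/
noncomputable def qA (a' : T.W.K) (dz : T.W.H A) : T.W.H (A.prod A) :=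
  (-a') • T.W.push (diag A) dz

include hdz in
lemma dz_ev : dz ∈ PH T.W A 0 := PH.congr (by omega) (PH.of hdz)

include hdz in
lemma qA_ev : qA a' dz ∈ PH T.W (A.prod A) 0 :=
  Submodule.smul_mem _ _ (PH.push (diag A) (dz_ev hdz))

lemma qA_mem {S : Sys T.W} (h : dz ∈ S.C A) : qA a' dz ∈ S.C (A.prod A) :=
  Submodule.smul_mem _ _ (S.push _ h)

include hdz in
lemma tr_qA (hA : 0 < A.dim) : T.W.tr (A.prod A) (qA a' dz) = 0 := by
  have h1 : T.W.tr (A.prod A) (T.W.push (diag A) dz) = T.W.tr A dz := by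
    have h2 := T.W.tr_push (diag A) dz 1
    rw [map_one, mul_one, mul_one] at h2
    exact h2
  rw [qA, map_smul, h1, T.W.tr_eq_zero hdz (by omega), smul_zero]

include D hdz hd in
lemma tr_v_qA (E : W1D (tauT T) (Fx T A) ψ A.dim e) (i j : n) :
    T.W.tr (A.prod A) (xp T.W (e (Sum.inr i)) (e (Sum.inr j)) * qA a' dz) =
      ((E.vd.Qv i j : ℚ) : T.W.K) := by
  have h1 : ((E.Qv i j : ℚ) : T.W.K) = ψ (e (Sum.inr j)) (e (Sum.inr i)) := E.Qv_spec i j
  have h2 : E.vd.Qv = E.Qv := rfl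
  rw [h2, h1, E.anti, qA, mul_smul_comm, map_smul, tr_xp_diag _ _ _ (dz_ev hdz),
    hd _ (D.v_mem i) _ (D.v_mem j), ← PH.even_comm (dz_ev hdz), smul_eq_mul, mul_assoc]
  ring

include D in
/-- The classes of degree two on the square given by invariant matrices. -/
lemma mc_hodge (E : W1D (tauT T) (Fx T A) ψ A.dim e) {M : Matrix n n ℚ}
    (hM : ∀ t : ℂ, t ≠ 0 → LV2 E.vd t * cq M * (LV2 E.vd t).transpose = cq M) :
    IsHodge T (A.prod A) 1 (mc (fun i => e (Sum.inr i)) M) := by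
  have h1 : mc (fun i => e (Sum.inr i)) M ∈ T.W.gr (A.prod A) (2 * 1) := by
    refine Submodule.sum_mem _ fun i _ => Submodule.sum_mem _ fun l _ =>
      Submodule.smul_mem _ _ ?_
    exact T.W.mul_mem (i := 1) (j := 1) (T.W.map_mem _ (D.v_mem i)) (T.W.map_mem _ (D.v_mem l))
  have h2 : (clf e (Sum.inr : n → s' ⊕ n) 1 (rei e2 (a2 M)) : T.W.H (A.prod A)) =
      mc (fun i => e (Sum.inr i)) M := clf_two e _ M
  have h3 := (inv_clf e (j := (Sum.inr : n → s' ⊕ n)) Sum.inr_injective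
    (g := fun t => LV2 E.vd t) (fun t ht j => lop_v E ht j) 1 (rei e2 (a2 M))).2 ?_
  · refine isHodge_of_fix h1 ?_
    have h4 := h3 2 two_ne_zero
    rw [lop_two] at h4
    have h5 : gop T (A.prod A) (em T.W ℂ (clf e (Sum.inr : n → s' ⊕ n) 1 (rei e2 (a2 M)))) =
      em T.W ℂ (clf e (Sum.inr : n → s' ⊕ n) 1 (rei e2 (a2 M))) := h4
    rwa [h2] at h5
  · intro t ht
    have h6 : ca (rei e2 (a2 M)) = rei e2 (a2 (cq M)) := rfl
    rw [h6, kp_rei, KS.kp_a2, hM t ht]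

end Hodge

end Run7.h38.KG
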