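import Pool.Agent.Run7.h38.KG.XPart

/-!
# Hodge structures of weight one in coordinates
-/

set_option linter.unusedSectionVars false

namespace Run7.h38.KG

open Module Pool.Agent.N996.BP Run7.h38.KS TensorProduct Matrix ComplexConjugate
open Pool.Agent.H914 (sig sig_tmul sig_smul)

variable {K : Type} [Field K] [CharZero K] [Algebra K ℂ] {V : Type} [AddCommGroup V] [Module K V]
  {s n : Type} [Fintype s] [DecidableEq s] [Fintype n] [DecidableEq n]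
  {τ : ℂ ≃ₐ[K] ℂ} {F : ℤ × ℤ → Submodule ℂ (ℂ ⊗[K] V)} {ψ : LinearMap.BilinForm K V} {d : ℕ}

open K3D (xt crd_xt xt_inj xt_add xt_smul xt_zero sig_xt sig_sig crd_one_tmul)

/-- The data of a Hodge structure with a part of weight one. -/
structure W1D (τ : ℂ ≃ₐ[K] ℂ) (F : ℤ × ℤ → Submodule ℂ (ℂ ⊗[K] V))
    (ψ : LinearMap.BilinForm K V) (d : ℕ) (e : Basis (s ⊕ n) K V) : Prop where
  h : IsPHS τ F ψ d
  hw : ∀ k : n, ∃ a ∈ F (1, 0), ∃ b ∈ F (0, 1), (1 : ℂ) ⊗ₜ[K] e (Sum.inr k) = a + b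
  hcl : ∀ x ∈ F (1, 0), ∀ i : s, crd e x (Sum.inl i) = 0
  anti : ∀ i j : n, ψ (e (Sum.inr i)) (e (Sum.inr j)) = -ψ (e (Sum.inr j)) (e (Sum.inr i))

namespace W1D

variable {e : Basis (s ⊕ n) K V} (D : W1D τ F ψ d e)

lemma xt_sub (z z' : n → ℂ) : xt e (z - z') = xt e z - xt e z' := by
  rw [sub_eq_add_neg, sub_eq_add_neg, xt_add, ← neg_one_smul ℂ z', xt_smul, neg_one_smul]

include D in
lemma hcl' (x : ℂ ⊗[K] V) (hx : x ∈ F (0, 1)) (i : s) : crd e x (Sum.inl i) = 0 := by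
  have h1 := D.hcl _ (D.h.cnj _ _ _ hx) i
  rw [crd_sig e D.h.tau] at h1
  exact (map_eq_zero_iff _ (RingHom.injective _)).1 h1

include D in
lemma split (z : n → ℂ) : ∃ a ∈ F (1, 0), ∃ b ∈ F (0, 1), xt e z = a + b := by
  choose a ha b hb h using D.hw
  refine ⟨∑ k, z k • a k, Submodule.sum_mem _ fun k _ => Submodule.smul_mem _ _ (ha k),
    ∑ k, z k • b k, Submodule.sum_mem _ fun k _ => Submodule.smul_mem _ _ (hb k), ?_⟩
  rw [xt, ← Finset.sum_add_distrib]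
  refine Finset.sum_congr rfl fun k _ => ?_
  rw [h, smul_add]

/-- The projector. -/
noncomputable def E : Matrix n n ℂ :=
  Matrix.of fun l k => mG D.h.int e (fun i => if i = 1 then 1 else 0) (Sum.inr l) (Sum.inr k)

lemma xt_crd {x : ℂ ⊗[K] V} (hx : ∀ i : s, crd e x (Sum.inl i) = 0) :
    xt e (fun l => crd e x (Sum.inr l)) = x := by
  apply crd_inj e
  rw [crd_xt]
  funext l
  rcases l with l | l
  · rw [Sum.elim_inl, Pi.zero_apply, hx]
  · rfl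

/-- The decomposition. -/
lemma spl (z : n → ℂ) : xt e (D.E *ᵥ z) ∈ F (1, 0) ∧ xt e (z - D.E *ᵥ z) ∈ F (0, 1) := by
  obtain ⟨a, ha, b, hb, h⟩ := D.split z
  have h1 : dG D.h.int (fun i => if i = 1 then (1 : ℂ) else 0) (xt e z) = a := by
    rw [h, map_add, dG_apply D.h.int _ ha, dG_apply D.h.int _ hb]
    norm_num
  have h2 : xt e (D.E *ᵥ z) = a := by
    rw [← xt_crd (D.hcl a ha)]
    congr 1
    funext l
    rw [← h1, crd_dG, crd_xt]
    simp only [Matrix.mulVec, dotProduct, Fintype.sum_sum_type, Sum.elim_inl, Sum.elim_inr,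
      Pi.zero_apply, mul_zero, Finset.sum_const_zero, zero_add, E, Matrix.of_apply]
  refine ⟨by rw [h2]; exact ha, ?_⟩
  rw [xt_sub, h2, h, add_sub_cancel_left]
  exact hb

/-- Uniqueness of the decomposition. -/
lemma uniq {z u : n → ℂ} (h1 : xt e u ∈ F (1, 0)) (h2 : xt e (z - u) ∈ F (0, 1)) :
    D.E *ᵥ z = u := by
  have h3 := (D.spl z).1
  have h4 : dG D.h.int (fun i => if i = 1 then (1 : ℂ) else 0) (xt e z) = xt e u := by
    have h5 : xt e z = xt e u + xt e (z - u) := by rw [← xt_add, add_sub_cancel]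
    rw [h5, map_add, dG_apply D.h.int _ h1, dG_apply D.h.int _ h2]
    norm_num
  have h6 : dG D.h.int (fun i => if i = 1 then (1 : ℂ) else 0) (xt e z) =
      xt e (D.E *ᵥ z) := by
    have h5 : xt e z = xt e (D.E *ᵥ z) + xt e (z - D.E *ᵥ z) := by
      rw [← xt_add, add_sub_cancel]
    rw [h5, map_add, dG_apply D.h.int _ h3, dG_apply D.h.int _ (D.spl z).2]
    norm_num
  exact xt_inj (e := e) (h6.symm.trans h4)

lemma hE : D.E * D.E = D.E := by
  refine ext_vec fun z => ?_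
  rw [← Matrix.mulVec_mulVec]
  refine D.uniq (D.spl z).1 ?_
  rw [sub_self, xt_zero]
  exact Submodule.zero_mem _

lemma hEc : D.E.map cj = 1 - D.E := by
  refine ext_vec fun z => ?_
  have h1 : z = sv cj (sv cj z) := by ext i; simp [sv, cj_apply]
  conv_lhs => rw [h1]
  rw [KD.map_mul_vec, Matrix.sub_mulVec, Matrix.one_mulVec]
  -- `E z̄ = conj (z - E z)`
  have h2 : D.E *ᵥ (sv cj z) = sv cj (z - D.E *ᵥ z) := by
    apply D.uniq
    · rw [← sig_xt D.h.tau]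
      exact D.h.cnj _ _ _ (D.spl z).2
    · have h3 : sv cj z - sv cj (z - D.E *ᵥ z) = sv cj (D.E *ᵥ z) := by
        rw [sv_sub, sub_sub_cancel]
      rw [h3, ← sig_xt D.h.tau]
      exact D.h.cnj _ _ _ (D.spl z).1
  rw [h2]
  ext i
  simp [sv, cj_apply]

/-- The operators. -/
lemma dG_xt {t : ℂ} (_ht : t ≠ 0) (z : n → ℂ) : dG D.h.int (fun k => t ^ k) (xt e z) =
    xt e ((t • D.E + t⁻¹ • (1 - D.E)) *ᵥ z) := by
  obtain ⟨h1, h2⟩ := D.spl z
  have h5 : xt e z = xt e (D.E *ᵥ z) + xt e (z - D.E *ᵥ z) := by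
    rw [← xt_add, add_sub_cancel]
  rw [h5, map_add, dG_apply D.h.int _ h1, dG_apply D.h.int _ h2, Matrix.add_mulVec,
    Matrix.smul_mulVec, Matrix.smul_mulVec, Matrix.sub_mulVec, Matrix.one_mulVec, xt_add,
    xt_smul, xt_smul]
  norm_num

/-- The rational matrix of the form. -/
noncomputable def Qv (D : W1D τ F ψ d e) : Matrix n n ℚ :=
  Matrix.of fun l k => (D.h.rat (ψ (e (Sum.inr k)) (e (Sum.inr l)))).choose

lemma Qv_spec (l k : n) : ((D.Qv l k : ℚ) : K) = ψ (e (Sum.inr k)) (e (Sum.inr l)) :=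
  (D.h.rat (ψ (e (Sum.inr k)) (e (Sum.inr l)))).choose_spec

lemma Qv_t : D.Qvᵀ = -D.Qv := by
  ext i j
  have h1 := D.Qv_spec i j
  have h2 := D.Qv_spec j i
  rw [D.anti, ← h1] at h2
  rw [Matrix.transpose_apply, Matrix.neg_apply]
  exact_mod_cast h2

lemma form_xt (u w : n → ℂ) : u ⬝ᵥ (cq D.Qv *ᵥ w) = ψ.baseChange ℂ (xt e w) (xt e u) := by
  rw [form_crd e, crd_xt, crd_xt]
  have h1 : ∀ i j : n, fM e ψ (Sum.inr i) (Sum.inr j) = cq D.Qv j i := by
    intro i j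
    rw [fM, Matrix.of_apply, ← D.Qv_spec, cq, Matrix.map_apply, map_ratCast]
  simp only [dotProduct, Matrix.mulVec, Fintype.sum_sum_type, Sum.elim_inl, Sum.elim_inr,
    Pi.zero_apply, zero_mul, mul_zero, Finset.sum_const_zero, zero_add, h1, Finset.mul_sum]
  rw [Finset.sum_comm]
  refine Finset.sum_congr rfl fun i _ => Finset.sum_congr rfl fun j _ => ?_
  ring

lemma hEQ : D.Eᵀ * cq D.Qv = cq D.Qv * (1 - D.E) := by
  have key : ∀ u w : n → ℂ, u ⬝ᵥ ((D.Eᵀ * cq D.Qv) *ᵥ w) =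
      u ⬝ᵥ ((cq D.Qv * (1 - D.E)) *ᵥ w) := by
    intro u w
    have h1 : u ⬝ᵥ ((D.Eᵀ * cq D.Qv) *ᵥ w) = (D.E *ᵥ u) ⬝ᵥ (cq D.Qv *ᵥ w) := by
      rw [← Matrix.mulVec_mulVec, Matrix.dotProduct_mulVec, Matrix.vecMul_transpose]
    rw [h1, ← Matrix.mulVec_mulVec, D.form_xt, D.form_xt, Matrix.sub_mulVec, Matrix.one_mulVec]
    obtain ⟨h1, h2⟩ := D.spl u
    obtain ⟨h3, h4⟩ := D.spl w
    have h5 : xt e w = xt e (D.E *ᵥ w) + xt e (w - D.E *ᵥ w) := by
      rw [← xt_add, add_sub_cancel]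
    have h6 : xt e u = xt e (D.E *ᵥ u) + xt e (u - D.E *ᵥ u) := by
      rw [← xt_add, add_sub_cancel]
    conv_lhs => rw [h5]
    conv_rhs => rw [h6]
    rw [map_add, LinearMap.add_apply, map_add, D.h.orth _ _ _ _ _ h3 _ h1 (by norm_num),
      D.h.orth _ _ _ _ _ h4 _ h2 (by norm_num), zero_add, add_zero]
  ext i j
  have h1 := key (Pi.single i 1) (Pi.single j 1)
  rwa [Matrix.mulVec_single_one, Matrix.mulVec_single_one, single_one_dotProduct,
    single_one_dotProduct] at h1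

lemma pos (u : n → ℝ) (hu : u ≠ 0) : ∃ ρ : ℝ, 0 < ρ ∧
    (fun i => (u i : ℂ)) ⬝ᵥ (cq D.Qv *ᵥ ((Complex.I • D.E + Complex.I⁻¹ • (1 - D.E)) *ᵥ
      fun i => (u i : ℂ))) = ρ := by
  obtain ⟨ρ, h4, -, h5⟩ := D.h.exists_pos (xt e fun i => (u i : ℂ))
  have h6 : xt e (fun i => (u i : ℂ)) ≠ 0 := by
    intro h0
    apply hu
    have h7 := xt_inj (e := e) (h0.trans xt_zero.symm)
    funext i
    exact Complex.ofReal_eq_zero.1 (congrFun h7 i)
  refine ⟨ρ, h5 h6, ?_⟩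
  have h8 : sv cj (fun i => (u i : ℂ)) = fun i => (u i : ℂ) := by
    ext i; simp [sv, cj_apply]
  rw [D.dG_xt Complex.I_ne_zero, sig_xt D.h.tau, h8] at h4
  rw [D.form_xt]
  exact h4

lemma exists_Qvi : ∃ Qvi : Matrix n n ℚ, D.Qv * Qvi = 1 := by
  refine ⟨D.Qv⁻¹, Matrix.mul_nonsing_inv _ ?_⟩
  rw [isUnit_iff_ne_zero]
  intro h0
  obtain ⟨v, hv, h⟩ := Matrix.exists_mulVec_eq_zero_iff.2 h0
  have hv' : (fun i => ((v i : ℚ) : ℝ)) ≠ 0 := by
    intro h1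
    apply hv
    funext i
    have h2 := congrFun h1 i
    simpa using h2
  obtain ⟨ρ, h1, h2⟩ := D.pos _ hv'
  have h3 : (fun i => ((((v i : ℚ) : ℝ)) : ℂ)) ᵥ* cq D.Qv = 0 := by
    rw [← Matrix.mulVec_transpose]
    have h4 : (cq D.Qv)ᵀ = -cq D.Qv := by
      rw [← cq_neg, ← D.Qv_t]
      rfl
    rw [h4, Matrix.neg_mulVec]
    funext i
    have h5 := congrFun h i
    rw [Matrix.mulVec, dotProduct, Pi.zero_apply] at h5
    rw [Pi.neg_apply, Pi.zero_apply, neg_eq_zero, Matrix.mulVec, dotProduct]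
    have h6 : ((∑ j, D.Qv i j * v j : ℚ) : ℂ) = 0 := by rw [h5]; simp
    rw [Rat.cast_sum] at h6
    simpa [cq] using h6
  rw [Matrix.dotProduct_mulVec, h3, zero_dotProduct] at h2
  have h4 : ρ = 0 := by exact_mod_cast h2.symm
  exact h1.ne' h4

/-- The Hodge structure of weight one. -/
noncomputable def vd : VD n where
  Qv := D.Qv
  Qvi := D.exists_Qvi.choose
  E := D.E
  hQ := D.exists_Qvi.choose_spec
  hQt := D.Qv_t
  hE := D.hE
  hEc := D.hEc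
  hEQ := D.hEQ
  pos := D.pos

/-- The operators on the basis vectors. -/
lemma dG_v {t : ℂ} (ht : t ≠ 0) (j : n) :
    dG D.h.int (fun k => t ^ k) ((1 : ℂ) ⊗ₜ[K] e (Sum.inr j)) =
      ∑ i, LV2 D.vd t i j • ((1 : ℂ) ⊗ₜ[K] e (Sum.inr i)) := by
  have h1 : (1 : ℂ) ⊗ₜ[K] e (Sum.inr j) = xt e (Pi.single j 1) := by
    rw [xt, Finset.sum_eq_single j]
    · rw [Pi.single_eq_same, one_smul]
    · intro i _ hi; rw [Pi.single_eq_of_ne hi, zero_smul]
    · intro h; exact absurd (Finset.mem_univ _) h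
  rw [h1, D.dG_xt ht, Matrix.mulVec_single_one]
  rfl

end W1D

end Run7.h38.KG
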