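import Pool.Agent.Run7.h38.KG.Kap

/-!
# Generators of the cohomology of the product, and the period
-/

set_option linter.unusedSectionVars false

open CategoryTheory AlgebraicGeometry TensorProduct

universe u

namespace Run7.h38.KG

open Module Pool.Agent.N996.BP Pool.Agent.N996.BP.Geo
open Pool.Agent.H914 Pool.Agent.H914.VarClass Pool.Agent.H914.VarClass.Obj
  Pool.Agent.H914.WeilCohomology
open Pool.Agent.Y133.Half Pool.Agent.Y121.AH
open Run7.h38.KS (cq KD)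

variable {k : Type u} [Field k] {𝒱 : VarClass k} {ops : CycleOps 𝒱}

set_option maxHeartbeats 400000

section Adj

variable {W : WeilCohomology.{u, 0} ops} {X A : 𝒱.Obj}
  {s m s' n : Type} [Fintype s] [DecidableEq s] [Fintype m] [DecidableEq m] [Fintype s']
  [DecidableEq s'] [Fintype n] [DecidableEq n] {eX : Basis (s ⊕ m) W.K (W.H X)}
  {eA : Basis (s' ⊕ n) W.K (W.H A)} {o : s} {o' : s'}

/-- The words generate the cohomology of the product. -/
lemma adjoin_P (hoX : eX (Sum.inl o) = 1) (hoA : eA (Sum.inl o') = 1)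
    (hA : Algebra.adjoin W.K (Set.range fun i => eA (Sum.inr i)) = ⊤) :
    Algebra.adjoin W.K (Set.range fun i : s ⊕ (m ⊕ n) => eP eX eA (jj o o' i)) = ⊤ := by
  obtain ⟨B, hB⟩ : ∃ B, B = Algebra.adjoin W.K
    (Set.range fun i : s ⊕ (m ⊕ n) => eP eX eA (jj o o' i)) := ⟨_, rfl⟩
  have h0 : ∀ i : s ⊕ (m ⊕ n), eP eX eA (jj o o' i) ∈ B := fun i => by
    rw [hB]
    exact Algebra.subset_adjoin (Set.mem_range_self i)
  rw [← hB, eq_top_iff]
  rintro z -
  have hx : ∀ x : W.H X, W.map (fst X A) x ∈ B := by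
    intro x
    rw [← eX.sum_repr x, map_sum]
    refine Subalgebra.sum_mem _ fun i _ => ?_
    rw [map_smul]
    refine Subalgebra.smul_mem _ ?_ _
    rcases i with i | i
    · rw [← b_s (o := o) (n := n) hoA]; exact h0 _
    · rw [← b_t (o := o) (n := n) hoA]; exact h0 _
  have hy : ∀ y : W.H A, W.map (snd X A) y ∈ B := by
    intro y
    have h1 : y ∈ Algebra.adjoin W.K (Set.range fun i => eA (Sum.inr i)) := by
      rw [hA]; trivial
    induction h1 using Algebra.adjoin_induction with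
    | mem x hx =>
      obtain ⟨i, rfl⟩ := hx
      simp only
      rw [← b_v (o' := o') (m := m) hoX]
      exact h0 _
    | algebraMap r =>
      rw [Algebra.algebraMap_eq_smul_one, map_smul, map_one]
      exact Subalgebra.smul_mem _ (Subalgebra.one_mem _) _
    | add x y _ _ hx hy => rw [map_add]; exact Subalgebra.add_mem _ hx hy
    | mul x y _ _ hx hy => rw [map_mul (W.map (snd X A))]; exact Subalgebra.mul_mem _ hx hy
  refine xp_induction (p := fun z => z ∈ B) ?_ ?_ z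
  · intro a b ha hb; exact Subalgebra.add_mem _ ha hb
  · intro _ _ a _ b _
    exact Subalgebra.mul_mem _ (hx a) (hy b)

end Adj

section Period

variable {T : HodgeTheory ops} {X A : 𝒱.Obj}
  {s m s' n : Type} [Fintype s] [DecidableEq s] [Fintype m] [DecidableEq m] [Fintype s']
  [DecidableEq s'] [Fintype n] [DecidableEq n] {Dx : Spl T X s m}
  {eA : Basis (s' ⊕ n) T.W.K (T.W.H A)} {o' : s'} {deg : s' ⊕ n → ℕ}
  {φ : LinearMap.BilinForm T.W.K (T.W.H X)} {ψ : LinearMap.BilinForm T.W.K (T.W.H A)}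
  {r : ℕ} {a c : T.W.K} {γ : T.W.H ((X.prod A).prod A)}

open Matrix (mulVec)
open K3D (xt)

/-- **The image of the Clifford multiplication by the period.** -/
theorem period_mem (h : KSA T X A r c γ) (hX : X.dim = 2 * r) (DA : AB eA o' deg)
    (hK3 : K3A T X φ r a) (hD : ∀ j, Dx.e (Sum.inr j) ∈ tc T X)
    (E : W1D (tauT T) (Fx T A) ψ A.dim eA) (z : n → ℂ) :
    xt eA (mulVec (∑ i, (hK3.k3d Dx hD).ω i • cq (Kmt Dx.e eA γ i)) z) ∈ Fx T A (1, 0) := by
  have h1 := kap_xt h hX DA (eX := Dx.e) (fun j => hK3.deg _ (hD j)) (hK3.k3d Dx hD).ω z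
  have h2 : xt Dx.e (hK3.k3d Dx hD).ω = (hK3.k3d Dx hD).Ω := (hK3.k3d Dx hD).xt_ω
  rw [h2] at h1
  obtain ⟨x, hx, y, hy, h3⟩ := E.split z
  have h4 : (show (CW T).H A from xt eA z) = (show (CW T).H A from x) +
    (show (CW T).H A from y) := h3
  rw [h4, xp_add_right, map_add] at h1
  have hΩ : (show (CW T).H X from (hK3.k3d Dx hD).Ω) ∈ T.pq X ((r : ℤ) + 1) ((r : ℤ) - 1) :=
    (hK3.k3d Dx hD).hΩ
  have h5 := h.types hX hΩ (show (show (CW T).H A from x) ∈ T.pq A 1 0 from hx)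
  have h6 := h.types hX hΩ (show (show (CW T).H A from y) ∈ T.pq A 0 1 from hy)
  have e1 : (r : ℤ) + 1 + 1 - r = 2 := by ring
  have e2 : (r : ℤ) - 1 + 0 - r = -1 := by ring
  have e3 : (r : ℤ) + 1 + 0 - r = 1 := by ring
  have e4 : (r : ℤ) - 1 + 1 - r = 0 := by ring
  rw [e1, e2] at h5
  rw [e3, e4] at h6
  have h7 : T.pq A 2 (-1) = ⊥ := by
    by_contra h0
    have := E.h.range 2 (-1) h0
    omega
  rw [h7, Submodule.mem_bot] at h5
  rw [h5, zero_add] at h1
  have h8 : (show (CW T).H A from xt eA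
    (mulVec (∑ i, (hK3.k3d Dx hD).ω i • cq (Kmt Dx.e eA γ i)) z)) ∈ T.pq A 1 0 := h1 ▸ h6
  exact h8

theorem hEk (h : KSA T X A r c γ) (hX : X.dim = 2 * r) (DA : AB eA o' deg)
    (hK3 : K3A T X φ r a) (hD : ∀ j, Dx.e (Sum.inr j) ∈ tc T X)
    (E : W1D (tauT T) (Fx T A) ψ A.dim eA) {c₀ : ℚ} {hc : c₀ ≠ 0}
    {hK : ∀ i j, Kmt Dx.e eA γ i * Kmt Dx.e eA γ j + Kmt Dx.e eA γ j * Kmt Dx.e eA γ i =
      (2 * c₀ * (hK3.k3d Dx hD).B i j) • (1 : Matrix n n ℚ)} :
    E.vd.E * ((hK3.k3d Dx hD).kd (Kmt Dx.e eA γ) c₀ hc hK).kap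
      ((hK3.k3d Dx hD).kd (Kmt Dx.e eA γ) c₀ hc hK).ω =
        ((hK3.k3d Dx hD).kd (Kmt Dx.e eA γ) c₀ hc hK).kap
          ((hK3.k3d Dx hD).kd (Kmt Dx.e eA γ) c₀ hc hK).ω := by
  refine KS.ext_vec fun z => ?_
  rw [← Matrix.mulVec_mulVec]
  have h1 := period_mem h hX DA hK3 hD E z
  refine E.uniq h1 ?_
  rw [sub_self, K3D.xt_zero]
  exact Submodule.zero_mem _

end Period

end Run7.h38.KG
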