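import Pool.Agent.Run7.h38.KG.Adj
import Pool.Agent.Run7.h38.KS.Br6

/-!
# Generation of the Hodge classes
-/

set_option linter.unusedSectionVars false

open CategoryTheory AlgebraicGeometry TensorProduct

universe u

namespace Run7.h38.KG

open Module Pool.Agent.N996.BP Pool.Agent.N996.BP.Geo
open Pool.Agent.H914 Pool.Agent.H914.VarClass Pool.Agent.H914.VarClass.Obj
  Pool.Agent.H914.WeilCohomology
open Pool.Agent.Y133.Half Pool.Agent.Y121.AH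
open Pool.Agent.N996.FP.Geo (e2 e3)
open Run7.h38.KS (cq KD VD HK blk a1 a2 a3 LT2 LV2 PosT)

variable {k : Type u} [Field k] {𝒱 : VarClass k} {ops : CycleOps 𝒱} {T : HodgeTheory ops}
  {X A : 𝒱.Obj}

set_option maxHeartbeats 400000

section Mat

variable {s m s' n : Type} [Fintype s] [DecidableEq s] [Fintype m] [DecidableEq m] [Fintype s']
  [DecidableEq s'] [Fintype n] [DecidableEq n] {Dx : Spl T X s m}
  {eA : Basis (s' ⊕ n) T.W.K (T.W.H A)} {o' : s'} {deg : s' ⊕ n → ℕ}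
  {φ : LinearMap.BilinForm T.W.K (T.W.H X)} {ψ : LinearMap.BilinForm T.W.K (T.W.H A)}
  {r : ℕ} {a a' c : T.W.K} {γ : T.W.H ((X.prod A).prod A)} {dz : T.W.H A}

/-- The operators on the classes of the words. -/
lemma mat_P (DA : AB eA o' deg) (hK3 : K3A T X φ r a) (hD : ∀ j, Dx.e (Sum.inr j) ∈ tc T X)
    (E : W1D (tauT T) (Fx T A) ψ A.dim eA) {Km : m → Matrix n n ℚ} {c₀ : ℚ} {hc : c₀ ≠ 0}
    {hK : ∀ i j, Km i * Km j + Km j * Km i =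
      (2 * c₀ * (hK3.k3d Dx hD).B i j) • (1 : Matrix n n ℚ)} {t : ℂ} (ht : t ≠ 0) :
    IsMat T t (X.prod A) (fun i => eP Dx.e eA (jj Dx.o o' i))
      (blk 1 (LT2 ((hK3.k3d Dx hD).kd Km c₀ hc hK) t) (LV2 E.vd t)) := by
  refine isMat_P Dx.ho DA.ho (fun i => inv_iff.2 (Dx.hC i) t ht) (fun j => ?_)
    fun j => lop_v E ht j
  exact (hK3.k3d Dx hD).dG_t (hc := hc) (hK := hK) ht j

/-- The class of the form on the square of the product. -/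
lemma q_mem {S : Sys T.W} (hSX : (hodgePred T).sp X ≤ S.C X) {pX : T.W.H X} (hpX : pX ∈ S.C X)
    {pA : T.W.H A} (hpA : pA ∈ S.C A) (hdz : dz ∈ S.C A) :
    qq (Dx.qX a) (qA a' dz) pX pA ∈ S.C ((X.prod A).prod (X.prod A)) :=
  Submodule.add_mem _
    (S.mul (S.map _ (Dx.qX_mem hSX a)) (S.map _ (Sys.xp_mem_C S hpA hpA)))
    (S.mul (S.map _ (Sys.xp_mem_C S hpX hpX)) (S.map _ (qA_mem hdz)))

lemma q_val (DA : AB eA o' deg) (hK3 : K3A T X φ r a) (hD : ∀ j, Dx.e (Sum.inr j) ∈ tc T X)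
    (E : W1D (tauT T) (Fx T A) ψ A.dim eA) {S : Sys T.W} (hSX : (hodgePred T).sp X ≤ S.C X)
    {pX : T.W.H X} (hpX : pX ∈ S.C X) (hpX1 : T.W.tr X pX = 1)
    {pA : T.W.H A} (hpA : pA ∈ S.C A) (hpA1 : T.W.tr A pA = 1) (hA0 : 0 < A.dim)
    (hdz : dz ∈ T.W.gr A (2 * (A.dim - 1)))
    (hd : ∀ x ∈ T.W.gr A 1, ∀ y ∈ T.W.gr A 1, ψ x y = a' * T.W.tr A (dz * x * y))
    (i i' : s ⊕ (m ⊕ n)) :
    T.W.tr ((X.prod A).prod (X.prod A)) (xp T.W (eP Dx.e eA (jj Dx.o o' i))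
      (eP Dx.e eA (jj Dx.o o' i')) * qq (Dx.qX a) (qA a' dz) pX pA) =
        ((blk 1 (hK3.k3d Dx hD).B E.vd.Qv i i' : ℚ) : T.W.K) := by
  have e1 : Dx.qX a ∈ PH T.W (X.prod X) 0 := S.even (Dx.qX_mem hSX a)
  have e2 : qA a' dz ∈ PH T.W (A.prod A) 0 := qA_ev hdz
  have e3 : pX ∈ PH T.W X 0 := S.even hpX
  have e4 : pA ∈ PH T.W A 0 := S.even hpA
  have hB := hK3.B_eq (D := Dx) hD
  have ht := hK3.t_ev (D := Dx) hD
  have hx : ∀ p q : s ⊕ m, T.W.tr ((X.prod A).prod (X.prod A))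
      (xp T.W (T.W.map (fst X A) (Dx.e p)) (T.W.map (fst X A) (Dx.e q)) *
        qq (Dx.qX a) (qA a' dz) pX pA) =
          (((Matrix.fromBlocks 1 0 0 (hK3.k3d Dx hD).B :
            Matrix (s ⊕ m) (s ⊕ m) ℚ) p q : ℚ) : T.W.K) := by
    intro p q
    rw [val_xx e1 e3 hpA1 (tr_qA hdz hA0)]
    exact Dx.tr_qX hB ht p q
  rcases i with i | i | i <;> rcases i' with i' | i' | i'
  · rw [b_s DA.ho, b_s DA.ho, hx]; simp [blk]
  · rw [b_s DA.ho, b_t DA.ho, hx]; simp [blk]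
  · rw [b_s DA.ho, b_v Dx.ho, val_xa e1 e2 e3 e4 _ (DA.v_par i')]; simp [blk]
  · rw [b_t DA.ho, b_s DA.ho, hx]; simp [blk]
  · rw [b_t DA.ho, b_t DA.ho, hx]; simp [blk]
  · rw [b_t DA.ho, b_v Dx.ho, val_xa e1 e2 e3 e4 _ (DA.v_par i')]; simp [blk]
  · rw [b_v Dx.ho, b_s DA.ho, val_ax e1 e2 e3 e4 (hK3.e_ev hD _) (DA.v_par i)]; simp [blk]
  · rw [b_v Dx.ho, b_t DA.ho, val_ax e1 e2 e3 e4 (hK3.e_ev hD _) (DA.v_par i)]; simp [blk]
  · rw [b_v Dx.ho, b_v Dx.ho, val_aa e1 e3 e4 hpX1 (DA.v_par i) (DA.v_par i'),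
      tr_v_qA DA hdz hd E]
    simp [blk]

/-- The class of the multiplication. -/
lemma kc_mem (DA : AB eA o' deg) (hX : X.dim = 2 * r) (hK3 : K3A T X φ r a)
    (hD : ∀ j, Dx.e (Sum.inr j) ∈ tc T X) (h : KSA T X A r c γ)
    (E : W1D (tauT T) (Fx T A) ψ A.dim eA) {S : Sys T.W} (hSX : (hodgePred T).sp X ≤ S.C X)
    (hSA : ∀ c, IsHodge T (A.prod A) 1 c → c ∈ S.C (A.prod A)) (hSγ : γ ∈ S.C _)
    {Bi : Matrix m m ℚ} (hBi : (hK3.k3d Dx hD).B * Bi = 1) {Qi : Matrix n n ℚ}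
    (hQi : ∀ t : ℂ, t ≠ 0 → LV2 E.vd t * cq Qi * (LV2 E.vd t).transpose = cq Qi)
    (hQt : Qi.transpose = -Qi) :
    kc (fun j => Dx.e (Sum.inr j)) (fun l => eA (Sum.inr l))
      (fun i => ∑ i', Bi i i' • (Kmt Dx.e eA γ i' * Qi)) ∈ S.C ((X.prod A).prod A) := by
  have hB := hK3.B_eq (D := Dx) hD
  have ht := hK3.t_ev (D := Dx) hD
  have h1 : Dx.τc Bi ∈ S.C (X.prod X) :=
    Dx.τc_mem hB ht hK3.ne (hK3.k3d Dx hD).B_symm hBi hSX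
  have h2 : mc (fun l => eA (Sum.inr l)) Qi ∈ S.C (A.prod A) := hSA _ (mc_hodge DA E hQi)
  have h3 := gc_eq (W := T.W) (t := fun j => Dx.e (Sum.inr j)) (v := fun l => eA (Sum.inr l))
    (fun i => ht i) (fun i => DA.v_par i) (S.even hSγ) (Km := Kmt Dx.e eA γ)
    (fun j l => Kmt_sum h hX DA (fun j => hK3.deg _ (hD j)) j l) (Bi := Bi) hQt
  have h4 := gc_mem hSγ (show mc (fun j => Dx.e (Sum.inr j)) Bi ∈ S.C (X.prod X) from h1) h2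
  rw [h3] at h4
  exact (Submodule.neg_mem_iff _).1 h4

end Mat

end Run7.h38.KG
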