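import Pool.Agent.Run7.h38.KG.Lift

/-!
# Varieties whose cohomology is generated by words
-/

set_option linter.unusedSectionVars false

open CategoryTheory AlgebraicGeometry TensorProduct

universe u

namespace Run7.h38.KG

open Module Pool.Agent.N996.BP Pool.Agent.N996.BP.Geo
open Pool.Agent.H914 Pool.Agent.H914.VarClass Pool.Agent.H914.VarClass.Obj
  Pool.Agent.H914.WeilCohomology
open Pool.Agent.Y133.Half

variable {k : Type u} [Field k] {𝒱 : VarClass k} {ops : CycleOps 𝒱}
  {W : WeilCohomology.{u, 0} ops} {X Y Z Z' : 𝒱.Obj}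
  {κ : Type} [Fintype κ] [DecidableEq κ] (e : Basis κ W.K (W.H X))
  {ι : Type} [Fintype ι] [DecidableEq ι] (j : ι → κ)

/-- The pull-backs of the words span. -/
def Sps {N : ℕ} (δ : Z ⟶ pw X N) : Prop :=
  Submodule.span W.K (Set.range fun w : Fin (N + 1) → ι => W.map δ (wb e N (j ∘ w))) = ⊤

/-- The cohomology is spanned by the pull-backs of the words. -/
def Cov (Z : 𝒱.Obj) : Prop := ∃ (N : ℕ) (δ : Z ⟶ pw X N), Sps e j δ

/-- The morphism to a power with given components. -/
noncomputable def dd (N M : ℕ) (δ : Z ⟶ pw X N) (δ' : Z' ⟶ pw X M) :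
    Z.prod Z' ⟶ pw X (N + M + 1) :=
  liftN X (N + M + 1) fun i => Sum.elim (fun a => fst Z Z' ≫ δ ≫ prj X N a)
    (fun b => snd Z Z' ≫ δ' ≫ prj X M b) ((ce N M).symm i)

lemma dd_f₁ (N M : ℕ) (δ : Z ⟶ pw X N) (δ' : Z' ⟶ pw X M) :
    dd N M δ δ' ≫ f₁ X N M = fst Z Z' ≫ δ := by
  apply hom_ext_prj
  intro i
  rw [Category.assoc, f₁, liftN_prj, dd, liftN_prj, Equiv.symm_apply_apply, Sum.elim_inl,
    Category.assoc]

lemma dd_f₂ (N M : ℕ) (δ : Z ⟶ pw X N) (δ' : Z' ⟶ pw X M) :
    dd N M δ δ' ≫ f₂ X N M = snd Z Z' ≫ δ' := by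
  apply hom_ext_prj
  intro i
  rw [Category.assoc, f₂, liftN_prj, dd, liftN_prj, Equiv.symm_apply_apply, Sum.elim_inr,
    Category.assoc]

variable {e j}

lemma Cov.prod (h : Cov e j Z) (h' : Cov e j Z') : Cov e j (Z.prod Z') := by
  obtain ⟨N, δ, hδ⟩ := h
  obtain ⟨M, δ', hδ'⟩ := h'
  refine ⟨N + M + 1, dd N M δ δ', ?_⟩
  rw [Sps, eq_top_iff]
  rintro c -
  have key : ∀ (a : W.H Z) (b : W.H Z'), xp W a b ∈ Submodule.span W.K
      (Set.range fun w : Fin (N + M + 1 + 1) → ι =>
        W.map (dd N M δ δ') (wb e (N + M + 1) (j ∘ w))) := by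
    intro a b
    have ha : a ∈ Submodule.span W.K (Set.range fun w : Fin (N + 1) → ι =>
      W.map δ (wb e N (j ∘ w))) := by rw [hδ]; trivial
    have hb : b ∈ Submodule.span W.K (Set.range fun w : Fin (M + 1) → ι =>
      W.map δ' (wb e M (j ∘ w))) := by rw [hδ']; trivial
    induction ha using Submodule.span_induction with
    | mem x hx =>
      obtain ⟨v, rfl⟩ := hx
      induction hb using Submodule.span_induction with
      | mem y hy =>
        obtain ⟨v', rfl⟩ := hy
        refine Submodule.subset_span ⟨Sum.elim v v' ∘ (ce N M).symm, ?_⟩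
        simp only
        rw [wb_tens, map_mul, ← W.map_comp, ← W.map_comp, dd_f₁, dd_f₂, W.map_comp, W.map_comp]
        have h2 : (fun i => (j ∘ (Sum.elim v v' ∘ (ce N M).symm)) (ce N M (Sum.inl i))) =
            j ∘ v := by
          funext i; simp
        have h3 : (fun i => (j ∘ (Sum.elim v v' ∘ (ce N M).symm)) (ce N M (Sum.inr i))) =
            j ∘ v' := by
          funext i; simp
        rw [h2, h3]
        rfl
      | zero =>
        have : xp W (W.map δ (wb e N (j ∘ v))) (0 : W.H Z') = 0 := by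
          rw [xp, map_zero, mul_zero]
        simp only
        rw [this]; exact Submodule.zero_mem _
      | add y y' _ _ hy hy' =>
        simp only at hy hy' ⊢
        rw [xp_add_right]; exact Submodule.add_mem _ hy hy'
      | smul c y _ hy =>
        simp only at hy ⊢
        rw [xp_smul_right]; exact Submodule.smul_mem _ _ hy
    | zero =>
      have : xp W (0 : W.H Z) b = 0 := by
        rw [xp, map_zero, zero_mul]
      rw [this]; exact Submodule.zero_mem _
    | add y y' _ _ hy hy' => rw [xp_add_left]; exact Submodule.add_mem _ hy hy'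
    | smul c y _ hy => rw [xp_smul_left]; exact Submodule.smul_mem _ _ hy
  refine xp_induction (p := fun c => c ∈ Submodule.span W.K
      (Set.range fun w : Fin (N + M + 1 + 1) → ι =>
        W.map (dd N M δ δ') (wb e (N + M + 1) (j ∘ w)))) ?_ ?_ c
  · intro a b ha hb; exact Submodule.add_mem _ ha hb
  · intro _ _ a _ b _; exact key a b

/-- The diagonal. -/
noncomputable def dg (X : 𝒱.Obj) (N : ℕ) : X ⟶ pw X N := liftN X N fun _ => 𝟙 X

lemma dg_fst (N : ℕ) : dg X (N + 1) ≫ pfst X N = dg X N := plift_fst _ _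

lemma dg_snd (N : ℕ) : dg X (N + 1) ≫ psnd X N = 𝟙 X := plift_snd _ _

lemma pow_le (N : ℕ) : Submodule.span W.K (Set.range fun i => e (j i)) ^ (N + 1) ≤
    Submodule.span W.K (Set.range fun w : Fin (N + 1) → ι =>
      W.map (dg X N) (wb e N (j ∘ w))) := by
  induction N with
  | zero =>
    have h0 : Submodule.span W.K (Set.range fun i => e (j i)) ^ (0 + 1) =
        Submodule.span W.K (Set.range fun i => e (j i)) := pow_one _
    refine h0.le.trans ?_
    rw [Submodule.span_le]
    rintro _ ⟨i, rfl⟩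
    refine Submodule.subset_span ⟨fun _ => i, ?_⟩
    have h1 : wb e 0 (j ∘ fun _ : Fin (0 + 1) => i) = e (j i) := wb_zero e _
    simp only
    rw [h1]
    exact W.map_id _ _
  | succ N ih =>
    rw [pow_succ]
    refine (mul_le_mul' ih le_rfl).trans ?_
    rw [Submodule.span_mul_span, Submodule.span_le]
    rintro _ ⟨_, ⟨w, rfl⟩, _, ⟨i, rfl⟩, rfl⟩
    refine Submodule.subset_span ⟨Fin.snoc (α := fun _ => ι) w i, ?_⟩
    simp only
    have h0 : j ∘ (Fin.snoc (α := fun _ => ι) w i : Fin (N + 1 + 1) → ι) =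
        Fin.snoc (α := fun _ => κ) (j ∘ w) (j i) := by
      funext l
      refine Fin.lastCases ?_ (fun l => ?_) l
      · simp
      · simp
    have h1 : wb e (N + 1) (Fin.snoc (α := fun _ => κ) (j ∘ w) (j i)) =
        W.map (pfst X N) (wb e N (j ∘ w)) * W.map (psnd X N) (e (j i)) := by
      rw [wb_succ, Fin.snoc_last]
      congr 2
      congr 1
      funext i
      rw [Fin.snoc_castSucc]
    rw [h0, h1, map_mul, ← W.map_comp, ← W.map_comp, dg_fst, dg_snd, W.map_id]

lemma exists_pow (M : Submodule W.K (W.H X)) (h1 : (1 : W.H X) ∈ M) {x : W.H X}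
    (hx : x ∈ Algebra.adjoin W.K (M : Set (W.H X))) : ∃ n, x ∈ M ^ (n + 1) := by
  have hone : (1 : Submodule W.K (W.H X)) ≤ M := by
    rw [Submodule.one_eq_span, Submodule.span_le]
    rintro _ rfl
    exact h1
  have hmono : ∀ {a b : ℕ}, a ≤ b → M ^ a ≤ M ^ b := fun {a b} hab =>
    pow_le_pow_right₀ hone hab
  induction hx using Algebra.adjoin_induction with
  | mem x hx => exact ⟨0, by rw [zero_add, pow_one]; exact hx⟩
  | algebraMap r =>
    refine ⟨0, ?_⟩
    rw [zero_add, pow_one, Algebra.algebraMap_eq_smul_one]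
    exact Submodule.smul_mem _ _ h1
  | add x y _ _ hx hy =>
    obtain ⟨n, hn⟩ := hx
    obtain ⟨m, hm⟩ := hy
    exact ⟨n + m, Submodule.add_mem _ (hmono (by omega) hn) (hmono (by omega) hm)⟩
  | mul x y _ _ hx hy =>
    obtain ⟨n, hn⟩ := hx
    obtain ⟨m, hm⟩ := hy
    refine ⟨n + m + 1, ?_⟩
    have h2 := Submodule.mul_mem_mul hn hm
    rw [← pow_add] at h2
    rwa [show n + m + 1 + 1 = n + 1 + (m + 1) by omega]

/-- The variety itself. -/
lemma Cov.self {o : ι} (ho : e (j o) = 1)
    (h : Algebra.adjoin W.K (Set.range fun i => e (j i)) = ⊤) : Cov e j X := by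
  obtain ⟨M, hM⟩ : ∃ M, M = Submodule.span W.K (Set.range fun i => e (j i)) := ⟨_, rfl⟩
  have h1 : (1 : W.H X) ∈ M := by
    rw [hM, ← ho]
    exact Submodule.subset_span ⟨o, rfl⟩
  have h2 : ∀ x : W.H X, ∃ n, x ∈ M ^ (n + 1) := by
    intro x
    apply exists_pow M h1
    have h3 : (⊤ : Subalgebra W.K (W.H X)) ≤ Algebra.adjoin W.K (M : Set (W.H X)) := by
      rw [← h]
      apply Algebra.adjoin_mono
      rw [hM]
      exact Submodule.subset_span
    exact h3 trivial
  have hone : (1 : Submodule W.K (W.H X)) ≤ M := by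
    rw [Submodule.one_eq_span, Submodule.span_le]
    rintro _ rfl
    exact h1
  choose n hn using fun i => h2 (e i)
  refine ⟨∑ i, n i, dg X _, ?_⟩
  rw [Sps, eq_top_iff]
  refine le_trans ?_ (pow_le _)
  rw [← hM, ← e.span_eq, Submodule.span_le]
  rintro _ ⟨i, rfl⟩
  have h3 : n i + 1 ≤ ∑ i, n i + 1 :=
    Nat.add_le_add_right (Finset.single_le_sum (f := n) (fun _ _ => Nat.zero_le _)
      (Finset.mem_univ i)) 1
  exact pow_le_pow_right₀ hone h3 (hn i)

lemma Cov.pw (h : Cov e j X) (n : ℕ) : Cov e j (pw X n) := by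
  induction n with
  | zero => exact h
  | succ n ih => exact ih.prod h

end Run7.h38.KG
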