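import Pool.Agent.N996.BP.Geo4
import Pool.Agent.Y121.AH.Gen

/-!
# Words in a part of a basis of the cohomology
-/

set_option linter.unusedSectionVars false

open CategoryTheory AlgebraicGeometry TensorProduct

universe u

namespace Run7.h38.KG

open Module Pool.Agent.N996.BP Pool.Agent.N996.BP.Geo
open Pool.Agent.H914 Pool.Agent.H914.VarClass Pool.Agent.H914.VarClass.Obj
  Pool.Agent.H914.WeilCohomology
open Pool.Agent.Y133.Half

variable {k : Type u} [Field k] {𝒱 : VarClass k} {ops : CycleOps 𝒱}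
  {W : WeilCohomology.{u, 0} ops} {X Y : 𝒱.Obj}
  {κ : Type} [Fintype κ] [DecidableEq κ] (e : Basis κ W.K (W.H X))
  {ι : Type} [Fintype ι] [DecidableEq ι] (j : ι → κ)

/-- The combination of the classes of the words with rational coefficients. -/
noncomputable def clf (n : ℕ) (a : (Fin (n + 1) → ι) → ℚ) : W.H (pw X n) :=
  ∑ w : Fin (n + 1) → ι, ((a w : ℚ) : W.K) • wb e n (j ∘ w)

lemma clf_add (n : ℕ) (a b : (Fin (n + 1) → ι) → ℚ) :
    clf e j n (a + b) = clf e j n a + clf e j n b := by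
  rw [clf, clf, clf, ← Finset.sum_add_distrib]
  refine Finset.sum_congr rfl fun w _ => ?_
  rw [Pi.add_apply, Rat.cast_add, add_smul]

lemma clf_smul (n : ℕ) (r : ℚ) (a : (Fin (n + 1) → ι) → ℚ) :
    clf e j n (r • a) = (r : W.K) • clf e j n a := by
  rw [clf, clf, Finset.smul_sum]
  refine Finset.sum_congr rfl fun w _ => ?_
  rw [Pi.smul_apply, smul_eq_mul, Rat.cast_mul, mul_smul]

lemma clf_zero (n : ℕ) : clf e j n 0 = 0 := by
  rw [clf]
  exact Finset.sum_eq_zero fun w _ => by rw [Pi.zero_apply, Rat.cast_zero, zero_smul]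

/-- The arrays of the classes of a system. -/
def arf (S : Sys W) (n : ℕ) : Submodule ℚ ((Fin (n + 1) → ι) → ℚ) where
  carrier := {a | clf e j n a ∈ S.C (pw X n)}
  add_mem' {a b} ha hb := by
    change clf e j n (a + b) ∈ S.C (pw X n)
    rw [clf_add]
    exact Submodule.add_mem _ ha hb
  zero_mem' := by
    change clf e j n 0 ∈ S.C (pw X n)
    rw [clf_zero]
    exact Submodule.zero_mem _
  smul_mem' r a ha := by
    change clf e j n (r • a) ∈ S.C (pw X n)
    rw [clf_smul]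
    exact Submodule.smul_mem _ _ ha

lemma mem_arf {S : Sys W} {n : ℕ} {a : (Fin (n + 1) → ι) → ℚ} :
    a ∈ arf e j S n ↔ clf e j n a ∈ S.C (pw X n) := Iff.rfl

lemma clf_tens (n m : ℕ) (a : (Fin (n + 1) → ι) → ℚ) (b : (Fin (m + 1) → ι) → ℚ) :
    clf e j (n + m + 1) (rei (ce n m) (tens a b)) =
      W.map (f₁ X n m) (clf e j n a) * W.map (f₂ X n m) (clf e j m b) := by
  rw [clf, clf, clf, map_sum, map_sum, Finset.sum_mul_sum, sum_ce]
  refine Finset.sum_congr rfl fun u _ => Finset.sum_congr rfl fun v _ => ?_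
  rw [map_smul, map_smul, smul_mul_smul_comm, wb_tens]
  have h2 : (fun i => (j ∘ (Sum.elim u v ∘ (ce n m).symm)) (ce n m (Sum.inl i))) = j ∘ u := by
    funext i; simp
  have h3 : (fun i => (j ∘ (Sum.elim u v ∘ (ce n m).symm)) (ce n m (Sum.inr i))) = j ∘ v := by
    funext i; simp
  rw [h2, h3]
  congr 1
  rw [rei]
  have h4 : (Sum.elim u v ∘ (ce n m).symm) ∘ (ce n m) = Sum.elim u v := by
    funext i; simp
  rw [h4, tens_elim, Rat.cast_mul]

/-- Products of arrays of classes of the system. -/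
lemma arf_tens {S : Sys W} (n m : ℕ) {a : (Fin (n + 1) → ι) → ℚ} {b : (Fin (m + 1) → ι) → ℚ}
    (ha : a ∈ arf e j S n) (hb : b ∈ arf e j S m) :
    rei (ce n m) (tens a b) ∈ arf e j S (n + m + 1) := by
  rw [mem_arf, clf_tens]
  exact S.mul (S.map _ ha) (S.map _ hb)

lemma sn_comp (n : ℕ) (w : Fin (n + 1) → ι) (x y : ι) : j ∘ sn w x y = sn (j ∘ w) (j x) (j y) := by
  funext i
  refine Fin.lastCases ?_ (fun i => ?_) i
  · simp [sn]
  · refine Fin.lastCases ?_ (fun i => ?_) i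
    · simp [sn]
    · simp [sn]

variable {e j}

/-- Contraction of arrays of classes of the system. -/
lemma arf_contr {S : Sys W} (he : ∀ i, ∃ a, e (j i) ∈ PH W X a) {Q : Matrix ι ι ℚ}
    {q : W.H (X.prod X)} (hq : q ∈ S.C (X.prod X))
    (hqQ : ∀ i i', W.tr (X.prod X) (xp W (e (j i)) (e (j i')) * q) = ((Q i i' : ℚ) : W.K))
    (n : ℕ) {a : (Fin (n + 2 + 1) → ι) → ℚ} (ha : a ∈ arf e j S (n + 2)) :
    ctr Q a ∈ arf e j S n := by
  have h1 : clf e j n (ctr Q a) = W.push (g₁ X n) (clf e j (n + 2) a * W.map (g₂ X n) q) := by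
    rw [clf, clf, Finset.sum_mul, map_sum, sum_sn]
    refine Finset.sum_congr rfl fun w _ => ?_
    rw [ctr, Rat.cast_sum, Finset.sum_smul]
    refine Finset.sum_congr rfl fun x _ => ?_
    rw [Rat.cast_sum, Finset.sum_smul]
    refine Finset.sum_congr rfl fun y _ => ?_
    obtain ⟨i, hi⟩ := he x
    obtain ⟨i', hi'⟩ := he y
    have h2 : xp W (e (j x)) (e (j y)) * q ∈ PH W (X.prod X) (i + i') := by
      have := PH.mul (xp_mem hi hi') (S.even hq)
      rwa [add_zero] at this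
    rw [smul_mul_assoc, map_smul, sn_comp, wb_sn, mul_assoc, ← map_mul, push_g n _ h2, hqQ,
      smul_smul, Rat.cast_mul, mul_comm]
  rw [mem_arf, h1]
  exact S.push _ (S.mul ha (S.map _ hq))

variable {p : ι → Fin 2}

/-- Permutations of words of given parities. -/
lemma tau_wf_par (hp : ∀ i, e (j i) ∈ PH W X (p i : ℕ)) (n : ℕ) (σ : Equiv.Perm (Fin (n + 1)))
    (ε : Fin (n + 1) → Fin 2) : ∃ s : W.K, s ≠ 0 ∧ ∀ w : Fin (n + 1) → ι, p ∘ w = ε →
      W.map (tau X n σ) (wb e n (j ∘ (w ∘ σ))) = s • wb e n (j ∘ w) := by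
  obtain ⟨s, hs, h⟩ := prod_perm_idx (W := W) (pw X n) (fun i => (ε i : ℕ))
    (Equiv.Perm.ofFn_comp_perm σ (fun i => i))
  refine ⟨s, hs, fun w hw => ?_⟩
  have h1 := h (fun i => W.map (prj X n i) (e (j (w i)))) (fun i => by
    have h2 : (ε i : ℕ) = (p (w i) : ℕ) := by rw [← hw]; rfl
    rw [h2]
    exact PH.map _ (hp (w i)))
  rw [List.map_ofFn, List.map_ofFn] at h1
  rw [wb_eq, wb_eq, map_list_prod, List.map_ofFn]
  have h3 : (W.map (tau X n σ)) ∘ (fun i => W.map (prj X n i) (e ((j ∘ (w ∘ σ)) i))) =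
      (fun i => W.map (prj X n i) (e (j (w i)))) ∘ ((fun i => i) ∘ σ) := by
    funext i
    rw [Function.comp_apply, Function.comp_apply, ← W.map_comp, tau_prj]
    rfl
  rw [h3]
  exact h1

/-- Permutations of arrays of given parities. -/
lemma clf_perm (hp : ∀ i, e (j i) ∈ PH W X (p i : ℕ)) (n : ℕ) (σ : Equiv.Perm (Fin (n + 1)))
    (ε : Fin (n + 1) → Fin 2) : ∃ s : W.K, s ≠ 0 ∧ ∀ a : (Fin (n + 1) → ι) → ℚ,
      W.map (tau X n σ) (clf e j n (part p ε a)) = s • clf e j n (rei σ (part p ε a)) := by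
  obtain ⟨s, hs, h⟩ := tau_wf_par hp n σ (ε ∘ σ.symm)
  refine ⟨s, hs, fun a => ?_⟩
  have h0 : clf e j n (part p ε a) = ∑ w : Fin (n + 1) → ι,
      ((part p ε a (w ∘ σ) : ℚ) : W.K) • wb e n (j ∘ (w ∘ σ)) := by
    rw [clf, ← Equiv.sum_comp (σ.symm.arrowCongr (Equiv.refl ι))]
    rfl
  rw [h0, map_sum, clf, Finset.smul_sum]
  refine Finset.sum_congr rfl fun w _ => ?_
  rw [map_smul, rei]
  by_cases hw : p ∘ (w ∘ σ) = ε
  · have h2 : p ∘ w = ε ∘ σ.symm := by
      rw [← hw]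
      funext i
      simp
    rw [h w h2, smul_comm]
  · rw [part, if_neg hw, Rat.cast_zero, zero_smul, zero_smul, smul_zero]

section Op

variable {S : Sys W}

/-- Projectors to the words of given parities. -/
lemma exists_parOpf (hb : ∀ b : Fin 2, ∃ u ∈ S.Op X X, ∀ i, u (e (j i)) =
      if p i = b then e (j i) else 0) :
    ∀ (n : ℕ) (ε : Fin (n + 1) → Fin 2), ∃ u ∈ S.Op (pw X n) (pw X n), ∀ w : Fin (n + 1) → ι,
      u (wb e n (j ∘ w)) = if p ∘ w = ε then wb e n (j ∘ w) else 0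
  | 0, ε => by
    obtain ⟨u, hu, hu'⟩ := hb (ε 0)
    refine ⟨u, hu, fun w => ?_⟩
    have h2 : (p ∘ w = ε) ↔ p (w 0) = ε 0 := by
      constructor
      · intro h; rw [← h]; rfl
      · intro h
        funext i
        have hi : i = 0 := Subsingleton.elim (α := Fin 1) i 0
        rw [hi]
        exact h
    have h3 := hu' (w 0)
    have h4 : (wb e 0 : (Fin 1 → κ) → W.H X) (j ∘ w) = e (j (w 0)) := wb_zero e (j ∘ w)
    rw [← h4] at h3
    simp only [h2]
    exact h3
  | n + 1, ε => by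
    obtain ⟨u, hu, hu'⟩ := exists_parOpf hb n (fun i => ε i.castSucc)
    obtain ⟨v, hv, hv'⟩ := hb (ε (Fin.last _))
    refine ⟨extOp W u v, Sys.Op.ext hu hv, fun w => ?_⟩
    rw [wb_succ]
    have h1 := extOp_tmul (W := W) u v (wb e n fun i => (j ∘ w) i.castSucc)
      (e ((j ∘ w) (Fin.last _)))
    refine h1.trans ?_
    have e1 : (fun i : Fin (n + 1) => (j ∘ w) i.castSucc) = j ∘ fun i => w i.castSucc := rfl
    have e2 : (j ∘ w) (Fin.last _) = j (w (Fin.last _)) := rfl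
    rw [e1, e2, hu', hv']
    have h2 : (p ∘ w = ε) ↔ (p ∘ (fun i : Fin (n + 1) => w i.castSucc) = fun i => ε i.castSucc) ∧
        p (w (Fin.last _)) = ε (Fin.last _) := by
      constructor
      · intro h; subst h; exact ⟨rfl, rfl⟩
      · rintro ⟨h, h'⟩
        funext i
        refine Fin.lastCases h' (fun i => ?_) i
        exact congrFun h i
    by_cases ha : p ∘ (fun i : Fin (n + 1) => w i.castSucc) = fun i => ε i.castSucc
    · by_cases hb : p (w (Fin.last _)) = ε (Fin.last _)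
      · rw [if_pos ha, if_pos hb, if_pos (h2.2 ⟨ha, hb⟩)]
        rfl
      · rw [if_neg hb, if_neg (fun h => hb (h2.1 h).2), map_zero, mul_zero]
        rfl
    · rw [if_neg ha, if_neg (fun h => ha (h2.1 h).1), map_zero, zero_mul]
      rfl

/-- The parts of arrays of classes of the system. -/
lemma arf_part (hb : ∀ b : Fin 2, ∃ u ∈ S.Op X X, ∀ i, u (e (j i)) =
      if p i = b then e (j i) else 0)
    {n : ℕ} (ε : Fin (n + 1) → Fin 2) {a : (Fin (n + 1) → ι) → ℚ} (ha : a ∈ arf e j S n) :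
    part p ε a ∈ arf e j S n := by
  obtain ⟨u, hu, hu'⟩ := exists_parOpf hb n ε
  have h1 : clf e j n (part p ε a) = u (clf e j n a) := by
    rw [clf, clf, map_sum]
    refine Finset.sum_congr rfl fun w _ => ?_
    rw [map_smul, hu', part]
    split_ifs
    · rfl
    · rw [Rat.cast_zero, zero_smul, smul_zero]
  rw [mem_arf, h1]
  exact Sys.Op.apply (fun _ => le_rfl) hu ha

/-- Permutations of arrays of classes of the system. -/
lemma arf_perm (hp : ∀ i, e (j i) ∈ PH W X (p i : ℕ))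
    (hb : ∀ b : Fin 2, ∃ u ∈ S.Op X X, ∀ i, u (e (j i)) = if p i = b then e (j i) else 0)
    (n : ℕ) (σ : Equiv.Perm (Fin (n + 1))) {a : (Fin (n + 1) → ι) → ℚ} (ha : a ∈ arf e j S n) :
    rei σ a ∈ arf e j S n := by
  have h1 : rei σ a = ∑ ε, rei σ (part p ε a) := by
    conv_lhs => rw [← sum_part p a]
    funext w
    rw [rei, Finset.sum_apply, Finset.sum_apply]
    rfl
  rw [h1]
  refine Submodule.sum_mem _ fun ε _ => ?_
  obtain ⟨s, hs, h⟩ := clf_perm hp n σ ε
  rw [mem_arf]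
  have h2 : clf e j n (rei σ (part p ε a)) =
      s⁻¹ • W.map (tau X n σ) (clf e j n (part p ε a)) := by
    rw [h, smul_smul, inv_mul_cancel₀ hs, one_smul]
  rw [h2]
  exact Submodule.smul_mem _ _ (S.map _ (arf_part hb ε ha))

end Op

end Run7.h38.KG
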