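import Pool.Agent.Run7.h38.KG.Fml

/-!
# Words in a part of a basis of the cohomology: Hodge classes
-/

set_option linter.unusedSectionVars false

open CategoryTheory AlgebraicGeometry TensorProduct

universe u

namespace Run7.h38.KG

open Module Pool.Agent.N996.BP Pool.Agent.N996.BP.Geo
open Pool.Agent.H914 Pool.Agent.H914.VarClass Pool.Agent.H914.VarClass.Obj
  Pool.Agent.H914.WeilCohomology
open Pool.Agent.Y133.Half Pool.Agent.Y121.AH

variable {k : Type u} [Field k] {𝒱 : VarClass k} {ops : CycleOps 𝒱} {T : HodgeTheory ops}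
  {X Y : 𝒱.Obj}
  {κ : Type} [Fintype κ] [DecidableEq κ] (e : Basis κ T.W.K (T.W.H X))
  {ι : Type} [Fintype ι] [DecidableEq ι] (j : ι → κ)

/-- The combination of the classes of the words with complex coefficients. -/
noncomputable def emf (n : ℕ) (z : (Fin (n + 1) → ι) → ℂ) : (CW T).H (pw X n) :=
  ∑ w : Fin (n + 1) → ι, cc T (z w) • em T.W ℂ (wb e n (j ∘ w))

lemma em_clf (n : ℕ) (a : (Fin (n + 1) → ι) → ℚ) :
    em T.W ℂ (clf e j n a) = emf e j n (ca a) := by
  rw [clf, em_sum, emf]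
  refine Finset.sum_congr rfl fun w _ => ?_
  rw [em_smul, ex_rat]
  rfl

variable {j} in
lemma emf_inj (hj : Function.Injective j) (n : ℕ) {z z' : (Fin (n + 1) → ι) → ℂ}
    (h : emf e j n z = emf e j n z') : z = z' := by
  have hli : LinearIndependent ℂ fun w : Fin (n + 1) → ι =>
      ((wb e n).baseChange ℂ) (j ∘ w) :=
    ((wb e n).baseChange ℂ).linearIndependent.comp _ hj.comp_left
  have h1 : ∀ z : (Fin (n + 1) → ι) → ℂ, (∑ w, z w • ((wb e n).baseChange ℂ) (j ∘ w) :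
      ℂ ⊗[T.W.K] T.W.H (pw X n)) = emf e j n z := by
    intro z
    refine Finset.sum_congr rfl fun w _ => ?_
    rw [Basis.baseChange_apply]
    rfl
  have h2 : (∑ w, (z w - z' w) • ((wb e n).baseChange ℂ) (j ∘ w) :
      ℂ ⊗[T.W.K] T.W.H (pw X n)) = 0 := by
    simp only [sub_smul, Finset.sum_sub_distrib]
    exact sub_eq_zero.2 ((h1 z).trans (h.trans (h1 z').symm))
  have h3 := Fintype.linearIndependent_iff.1 hli (fun w => z w - z' w) h2
  funext w
  exact sub_eq_zero.1 (h3 w)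

lemma comp_snoc (n : ℕ) (v : Fin (n + 1) → ι) (x : ι) :
    j ∘ (Fin.snoc (α := fun _ => ι) v x : Fin (n + 1 + 1) → ι) =
      Fin.snoc (α := fun _ => κ) (j ∘ v) (j x) := by
  funext i
  refine Fin.lastCases ?_ (fun i => ?_) i
  · simp
  · simp

lemma isMatf_zero {t : ℂ} {g : Matrix ι ι ℂ} (h0 : IsMat T t X (fun i => e (j i)) g) :
    IsMat T t (pw X 0) (fun w : Fin (0 + 1) → ι => wb e 0 (j ∘ w)) (kp (Fin (0 + 1)) g) := by
  have h1 : (fun w : Fin 1 → ι => (wb e 0 (j ∘ w) : T.W.H X)) = fun w => e (j (w 0)) :=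
    funext fun w => wb_zero e _
  have h2 : IsMat T t X (fun w : Fin 1 → ι => e (j (w 0))) (kp (Fin 1) g) := by
    intro w
    rw [← Equiv.sum_comp (Equiv.funUnique (Fin 1) ι).symm]
    refine (h0 (w 0)).trans (Finset.sum_congr rfl fun i _ => ?_)
    rw [kp_apply, Fintype.prod_unique]
    rfl
  rw [← h1] at h2
  exact h2

lemma isMatf_succ {t : ℂ} (ht : t ≠ 0) {g : Matrix ι ι ℂ}
    (h0 : IsMat T t X (fun i => e (j i)) g) (n : ℕ)
    (ih : IsMat T t (pw X n) (fun w : Fin (n + 1) → ι => wb e n (j ∘ w)) (kp (Fin (n + 1)) g)) :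
    IsMat T t (pw X (n + 1)) (fun w : Fin (n + 1 + 1) → ι => wb e (n + 1) (j ∘ w))
      (kp (Fin (n + 1 + 1)) g) := by
  intro w
  simp only
  rw [wb_succ, em_mul, ← em_map, ← em_map]
  refine (lop_mul ht _ _).trans ?_
  have e1 : (fun i : Fin (n + 1) => (j ∘ w) i.castSucc) = j ∘ fun i => w i.castSucc := rfl
  have e2 : (j ∘ w) (Fin.last _) = j (w (Fin.last _)) := rfl
  have h3 := ih (fun i => w i.castSucc)
  have h4 := h0 (w (Fin.last _))
  simp only at h3 h4
  rw [lop_map, lop_map, e1, e2, h3, h4, map_sum, map_sum, Finset.sum_mul_sum, sum_snoc]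
  refine Finset.sum_congr rfl fun v _ => Finset.sum_congr rfl fun x _ => ?_
  rw [map_smul, map_smul, smul_mul_smul_comm, em_map, em_map, ← em_mul, comp_snoc, ← wb_snoc,
    kp_snoc]
  rfl

lemma isMatf {t : ℂ} (ht : t ≠ 0) {g : Matrix ι ι ℂ}
    (h0 : IsMat T t X (fun i => e (j i)) g) (n : ℕ) :
    IsMat T t (pw X n) (fun w : Fin (n + 1) → ι => wb e n (j ∘ w)) (kp (Fin (n + 1)) g) := by
  induction n with
  | zero => exact isMatf_zero e j h0
  | succ n ih => exact isMatf_succ e j ht h0 n ih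

lemma lop_emf {t : ℂ} (ht : t ≠ 0) {g : Matrix ι ι ℂ}
    (h0 : IsMat T t X (fun i => e (j i)) g) (n : ℕ) (z : (Fin (n + 1) → ι) → ℂ) :
    lop T t (pw X n) (emf e j n z) = emf e j n (Matrix.mulVec (kp (Fin (n + 1)) g) z) := by
  rw [emf, map_sum, emf]
  have h1 : ∀ w : Fin (n + 1) → ι, lop T t (pw X n) (cc T (z w) • em T.W ℂ (wb e n (j ∘ w))) =
      ∑ v : Fin (n + 1) → ι, cc T (kp (Fin (n + 1)) g v w * z w) •
        em T.W ℂ (wb e n (j ∘ v)) := by
    intro w
    have h2 := isMatf e j ht h0 n w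
    simp only at h2
    rw [map_smul, h2, Finset.smul_sum]
    refine Finset.sum_congr rfl fun v _ => ?_
    rw [smul_smul, mul_comm]
    rfl
  rw [Finset.sum_congr rfl fun w _ => h1 w, Finset.sum_comm]
  refine Finset.sum_congr rfl fun v _ => ?_
  rw [← Finset.sum_smul]
  rfl

variable {j}

/-- **Hodge classes in coordinates.** -/
theorem inv_clf (hj : Function.Injective j) {g : ℂ → Matrix ι ι ℂ}
    (h0 : ∀ t : ℂ, t ≠ 0 → IsMat T t X (fun i => e (j i)) (g t)) (n : ℕ)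
    (a : (Fin (n + 1) → ι) → ℚ) : Inv T (pw X n) (clf e j n a) ↔
      ∀ t : ℂ, t ≠ 0 → Matrix.mulVec (kp (Fin (n + 1)) (g t)) (ca a) = ca a := by
  constructor
  · intro h t ht
    have h1 := h t ht
    rw [em_clf, lop_emf e j ht (h0 t ht)] at h1
    exact emf_inj e hj n h1
  · intro h t ht
    rw [em_clf, lop_emf e j ht (h0 t ht), h t ht]

/-- The family of the arrays of the classes of a system. -/
theorem rfam_of {S : Sys T.W} (hS : ∀ Y, S.C Y ≤ (hodgePred T).sp Y)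
    (hj : Function.Injective j) {H : HData ι}
    (h0 : ∀ t : ℂ, t ≠ 0 → IsMat T t X (fun i => e (j i)) (H.l t)) {p : ι → Fin 2}
    (hp : ∀ i, e (j i) ∈ PH T.W X (p i : ℕ))
    (hb : ∀ b : Fin 2, ∃ u ∈ S.Op X X, ∀ i, u (e (j i)) = if p i = b then e (j i) else 0)
    {q : T.W.H (X.prod X)} (hq : q ∈ S.C (X.prod X))
    (hqQ : ∀ i i', T.W.tr (X.prod X) (xp T.W (e (j i)) (e (j i')) * q) =
      ((H.Qr i i' : ℚ) : T.W.K)) : RFam H (arf e j S) where
  perm n σ _ ha := arf_perm hp hb n σ ha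
  tens n m _ _ ha hb := arf_tens e j n m ha hb
  contr n _ ha := arf_contr (fun i => ⟨_, hp i⟩) hq hqQ n ha
  le n a ha := (inv_clf e hj h0 n a).1 (inv_iff.2 (hS _ ha))

end Run7.h38.KG
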