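import Pool.Agent.Run7.h38.KG.Wd

/-!
# The class of the Clifford multiplication
-/

set_option linter.unusedSectionVars false

open CategoryTheory AlgebraicGeometry TensorProduct

universe u

namespace Run7.h38.KG

open Module Pool.Agent.N996.BP Pool.Agent.N996.BP.Geo
open Pool.Agent.H914 Pool.Agent.H914.VarClass Pool.Agent.H914.VarClass.Obj
  Pool.Agent.H914.WeilCohomology
open Pool.Agent.Y133.Half

variable {k : Type u} [Field k] {𝒱 : VarClass k} {ops : CycleOps 𝒱}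
  {W : WeilCohomology.{u, 0} ops} {X A Y P : 𝒱.Obj}

set_option maxHeartbeats 400000

variable {m n : Type} [Fintype m] [DecidableEq m] [Fintype n] [DecidableEq n]
  (t : m → W.H X) (v : n → W.H A)

/-- The class given by a rational matrix. -/
noncomputable def mc {m : Type} [Fintype m] (t : m → W.H X) (B : Matrix m m ℚ) :
    W.H (X.prod X) := ∑ i, ∑ j, ((B i j : ℚ) : W.K) • xp W (t i) (t j)

/-- The class given by a family of matrices. -/
noncomputable def kc (Km : m → Matrix n n ℚ) : W.H ((X.prod A).prod A) :=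
  ∑ i, ∑ l, ∑ p, ((Km i p l : ℚ) : W.K) • xp W (xp W (t i) (v l)) (v p)

variable {t v} (ht : ∀ i, t i ∈ PH W X 0) (hv : ∀ i, v i ∈ PH W A 1)

lemma corr_sum {α : Type*} (s : Finset α) (f : α → W.H (X.prod Y)) :
    W.corr (∑ i ∈ s, f i) = ∑ i ∈ s, W.corr (f i) := by
  classical
  induction s using Finset.induction_on with
  | empty => rw [Finset.sum_empty, Finset.sum_empty, corr_zero]
  | insert a s ha ih => rw [Finset.sum_insert ha, Finset.sum_insert ha, corr_add, ih]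

include ht in
lemma corr_mc_t (B : Matrix m m ℚ) {i : ℕ} {x : W.H X} (hx : x ∈ PH W X i) :
    W.corr (mc t B) x = ∑ j, (∑ i, ((B i j : ℚ) : W.K) * W.tr X (t i * x)) • t j := by
  rw [mc, corr_sum, LinearMap.sum_apply]
  have h1 : ∀ i, W.corr (∑ j, ((B i j : ℚ) : W.K) • xp W (t i) (t j)) x =
      ∑ j, (((B i j : ℚ) : W.K) * W.tr X (t i * x)) • t j := by
    intro i
    rw [corr_sum, LinearMap.sum_apply]
    refine Finset.sum_congr rfl fun j _ => ?_
    rw [corr_smul, LinearMap.smul_apply, corr_xp _ (ht j) hx, zero_mul, pow_zero, one_mul,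
      smul_smul]
  rw [Finset.sum_congr rfl fun i _ => h1 i, Finset.sum_comm]
  exact Finset.sum_congr rfl fun j _ => (Finset.sum_smul).symm

lemma neg_tr {y v : W.H A} (hv : v ∈ PH W A 1) {j : ℕ} (hy : y ∈ PH W A j) :
    (-1 : W.K) ^ j * W.tr A (v * y) = -W.tr A (v * y) := by
  by_cases hj : j % 2 = 1
  · rw [neg_pow_congr (b := 1) (by omega), pow_one, neg_one_mul]
  · rw [PH.tr_odd (PH.mul hv hy) (by omega), mul_zero, neg_zero]

include hv in
lemma corr_mc_v (Q : Matrix n n ℚ) {j : ℕ} {y : W.H A} (hy : y ∈ PH W A j) :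
    W.corr (mc v Q) y = -∑ l, (∑ i, ((Q i l : ℚ) : W.K) * W.tr A (v i * y)) • v l := by
  rw [mc, corr_sum, LinearMap.sum_apply]
  have h1 : ∀ i, W.corr (∑ l, ((Q i l : ℚ) : W.K) • xp W (v i) (v l)) y =
      -∑ l, (((Q i l : ℚ) : W.K) * W.tr A (v i * y)) • v l := by
    intro i
    rw [corr_sum, LinearMap.sum_apply, ← Finset.sum_neg_distrib]
    refine Finset.sum_congr rfl fun l _ => ?_
    rw [corr_smul, LinearMap.smul_apply, corr_xp _ (hv l) hy, one_mul, neg_tr (hv i) hy,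
      smul_smul, mul_neg, neg_smul]
  rw [Finset.sum_congr rfl fun i _ => h1 i, Finset.sum_neg_distrib, Finset.sum_comm]
  congr 1
  exact Finset.sum_congr rfl fun j _ => (Finset.sum_smul).symm

include hv in
lemma corr_kc (Km : m → Matrix n n ℚ) {i j : ℕ} {x : W.H X} (hx : x ∈ PH W X i) {y : W.H A}
    (hy : y ∈ PH W A j) : W.corr (kc t v Km) (xp W x y) =
      -∑ i, ∑ l, ∑ p, (((Km i p l : ℚ) : W.K) * (W.tr X (t i * x) * W.tr A (v l * y))) •
        v p := by
  rw [kc, corr_sum, LinearMap.sum_apply, ← Finset.sum_neg_distrib]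
  refine Finset.sum_congr rfl fun a _ => ?_
  rw [corr_sum, LinearMap.sum_apply, ← Finset.sum_neg_distrib]
  refine Finset.sum_congr rfl fun l _ => ?_
  rw [corr_sum, LinearMap.sum_apply, ← Finset.sum_neg_distrib]
  refine Finset.sum_congr rfl fun p _ => ?_
  rw [corr_smul, LinearMap.smul_apply, corr_xp _ (hv p) (xp_mem hx hy), one_mul,
    xp_mul _ _ _ _ (hv l) hx, map_smul, tr_xp, one_mul, smul_smul, ← neg_smul, smul_eq_mul]
  congr 1
  have h1 := neg_tr (hv l) hy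
  have h2 : (-1 : W.K) ^ i * (-1 : W.K) ^ i = 1 := by
    rw [← mul_pow]; simp
  calc ((Km a p l : ℚ) : W.K) * ((-1 : W.K) ^ (i + j) * ((-1 : W.K) ^ i *
        (W.tr X (t a * x) * W.tr A (v l * y)))) =
        ((Km a p l : ℚ) : W.K) * (((-1 : W.K) ^ i * (-1 : W.K) ^ i) * (W.tr X (t a * x) *
          ((-1 : W.K) ^ j * W.tr A (v l * y)))) := by rw [pow_add]; ring
    _ = _ := by rw [h2, h1]; ring

/-- The class of the Clifford multiplication, from the correspondence. -/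
noncomputable def gc (γ : W.H ((X.prod A).prod A)) (τ : W.H (X.prod X)) (Ψ : W.H (A.prod A)) :
    W.H ((X.prod A).prod A) :=
  W.push (p13 (X.prod A) (X.prod A) A) (W.map (p12 (X.prod A) (X.prod A) A)
    (W.map (q1 X A) τ * W.map (q2 X A) Ψ) * W.map (p23 (X.prod A) (X.prod A) A) γ)

lemma gc_mem {S : Sys W} {γ : W.H ((X.prod A).prod A)} {τ : W.H (X.prod X)}
    {Ψ : W.H (A.prod A)} (hγ : γ ∈ S.C _) (hτ : τ ∈ S.C _) (hΨ : Ψ ∈ S.C _) :
    gc γ τ Ψ ∈ S.C ((X.prod A).prod A) :=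
  Sys.comp_mem (S.mul (S.map _ hτ) (S.map _ hΨ)) hγ

lemma xp_sum_sum {α β : Type*} (s : Finset α) (f : α → W.H X) (u : Finset β) (g : β → W.H A) :
    xp W (∑ i ∈ s, f i) (∑ j ∈ u, g j) = ∑ i ∈ s, ∑ j ∈ u, xp W (f i) (g j) := by
  rw [xp, map_sum, map_sum, Finset.sum_mul_sum]
  rfl

include ht hv in
/-- **The class of the Clifford multiplication.** -/
theorem gc_eq {γ : W.H ((X.prod A).prod A)} (hγ : γ ∈ PH W ((X.prod A).prod A) 0)
    {Km : m → Matrix n n ℚ}
    (hK : ∀ j l, W.corr γ (xp W (t j) (v l)) = ∑ p, ((Km j p l : ℚ) : W.K) • v p)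
    {Bi : Matrix m m ℚ} {Q : Matrix n n ℚ} (hQ : Q.transpose = -Q) :
    gc γ (mc t Bi) (mc v Q) = -kc t v (fun i => ∑ i', Bi i i' • (Km i' * Q)) := by
  have hΨ : mc v Q ∈ PH W (A.prod A) 0 := by
    rw [mc]
    refine Submodule.sum_mem _ fun i _ => Submodule.sum_mem _ fun l _ =>
      Submodule.smul_mem _ _ ?_
    have h := xp_mem (hv i) (hv l)
    exact PH.congr rfl h
  rw [← sub_eq_zero, sub_neg_eq_add]
  apply corr_inj
  rw [corr_add, gc, corr_comp' _ hγ, Sys.corr_ext_class _ hΨ]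
  apply LinearMap.ext
  intro z
  refine xp_induction (p := fun z => (W.corr γ ∘ₗ extOp W (W.corr (mc t Bi)) (W.corr (mc v Q)) +
    W.corr (kc t v fun i => ∑ i', Bi i i' • (Km i' * Q))) z = (0 : _ →ₗ[W.K] _) z) ?_ ?_ z
  · intro a b ha hb
    rw [map_add, ha, hb, map_add]
  intro i j x hx y hy
  rw [LinearMap.add_apply, LinearMap.comp_apply, corr_kc hv _ hx hy, LinearMap.zero_apply]
  have h1 : extOp W (W.corr (mc t Bi)) (W.corr (mc v Q)) (xp W x y) =
      xp W (W.corr (mc t Bi) x) (W.corr (mc v Q) y) := extOp_tmul _ _ _ _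
  rw [h1, corr_mc_t ht _ hx, corr_mc_v hv _ hy]
  obtain ⟨a, ha⟩ : ∃ a : m → W.K, a = fun i => W.tr X (t i * x) := ⟨_, rfl⟩
  obtain ⟨c, hc⟩ : ∃ c : n → W.K, c = fun i => W.tr A (v i * y) := ⟨_, rfl⟩
  have ha' : ∀ i, W.tr X (t i * x) = a i := fun i => by rw [ha]
  have hc' : ∀ i, W.tr A (v i * y) = c i := fun i => by rw [hc]
  simp only [ha', hc']
  have h2 : ∀ z : W.H A, xp W (∑ j, (∑ i, ((Bi i j : ℚ) : W.K) * a i) • t j) (-z) =
      -xp W (∑ j, (∑ i, ((Bi i j : ℚ) : W.K) * a i) • t j) z := by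
    intro z
    rw [← neg_one_smul W.K z, xp_smul_right, neg_one_smul]
  rw [h2, map_neg, xp_sum_sum, map_sum]
  rw [← neg_add, neg_eq_zero]
  have h3 : ∀ j, W.corr γ (∑ l, xp W ((∑ i, ((Bi i j : ℚ) : W.K) * a i) • t j)
      ((∑ i, ((Q i l : ℚ) : W.K) * c i) • v l)) =
      ∑ l, ∑ p, ((∑ i, ((Bi i j : ℚ) : W.K) * a i) * (∑ i, ((Q i l : ℚ) : W.K) * c i) *
        ((Km j p l : ℚ) : W.K)) • v p := by
    intro j
    rw [map_sum]
    refine Finset.sum_congr rfl fun l _ => ?_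
    rw [xp_smul_left, xp_smul_right, map_smul, map_smul, hK, smul_smul, Finset.smul_sum]
    refine Finset.sum_congr rfl fun p _ => ?_
    rw [smul_smul]
  rw [Finset.sum_congr rfl fun j _ => h3 j]
  -- collect the coefficients
  have h4 : ∑ j, ∑ l, ∑ p, ((∑ i, ((Bi i j : ℚ) : W.K) * a i) *
      (∑ i, ((Q i l : ℚ) : W.K) * c i) * ((Km j p l : ℚ) : W.K)) • v p =
        ∑ p, (∑ j, ∑ l, (∑ i, ((Bi i j : ℚ) : W.K) * a i) *
          (∑ i, ((Q i l : ℚ) : W.K) * c i) * ((Km j p l : ℚ) : W.K)) • v p := by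
    have h5 : ∀ j, ∑ l, ∑ p, ((∑ i, ((Bi i j : ℚ) : W.K) * a i) *
        (∑ i, ((Q i l : ℚ) : W.K) * c i) * ((Km j p l : ℚ) : W.K)) • v p =
          ∑ p, (∑ l, (∑ i, ((Bi i j : ℚ) : W.K) * a i) *
            (∑ i, ((Q i l : ℚ) : W.K) * c i) * ((Km j p l : ℚ) : W.K)) • v p := by
      intro j
      rw [Finset.sum_comm]
      exact Finset.sum_congr rfl fun p _ => (Finset.sum_smul).symm
    rw [Finset.sum_congr rfl fun j _ => h5 j, Finset.sum_comm]
    exact Finset.sum_congr rfl fun p _ => (Finset.sum_smul).symm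
  have h6 : ∑ i, ∑ l, ∑ p, ((((∑ i', Bi i i' • (Km i' * Q)) p l : ℚ) : W.K) * (a i * c l)) •
      v p = ∑ p, (∑ i, ∑ l, (((∑ i', Bi i i' • (Km i' * Q)) p l : ℚ) : W.K) * (a i * c l)) •
        v p := by
    have h5 : ∀ i, ∑ l, ∑ p, ((((∑ i', Bi i i' • (Km i' * Q)) p l : ℚ) : W.K) *
        (a i * c l)) • v p =
          ∑ p, (∑ l, (((∑ i', Bi i i' • (Km i' * Q)) p l : ℚ) : W.K) * (a i * c l)) • v p := by
      intro j
      rw [Finset.sum_comm]
      exact Finset.sum_congr rfl fun p _ => (Finset.sum_smul).symm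
    rw [Finset.sum_congr rfl fun j _ => h5 j, Finset.sum_comm]
    exact Finset.sum_congr rfl fun p _ => (Finset.sum_smul).symm
  rw [h4, h6, ← Finset.sum_add_distrib]
  refine Finset.sum_eq_zero fun p _ => ?_
  rw [← add_smul]
  have h7 : ∑ j, ∑ l, (∑ i, ((Bi i j : ℚ) : W.K) * a i) *
      (∑ i, ((Q i l : ℚ) : W.K) * c i) * ((Km j p l : ℚ) : W.K) =
        ∑ i, ∑ l, ∑ j, ∑ r, ((Bi i j : ℚ) : W.K) * ((Km j p r : ℚ) : W.K) *
          ((Q l r : ℚ) : W.K) * (a i * c l) := by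
    have h8 : ∀ j r, (∑ i, ((Bi i j : ℚ) : W.K) * a i) *
        (∑ l, ((Q l r : ℚ) : W.K) * c l) * ((Km j p r : ℚ) : W.K) =
          ∑ i, ∑ l, ((Bi i j : ℚ) : W.K) * ((Km j p r : ℚ) : W.K) *
            ((Q l r : ℚ) : W.K) * (a i * c l) := by
      intro j r
      rw [Finset.sum_mul_sum, Finset.sum_mul]
      refine Finset.sum_congr rfl fun i _ => ?_
      rw [Finset.sum_mul]
      refine Finset.sum_congr rfl fun l _ => ?_
      ring
    rw [Finset.sum_congr rfl fun j _ => Finset.sum_congr rfl fun r _ => h8 j r]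
    -- reorder
    have h9 : ∀ f : m → n → m → n → W.K, ∑ j, ∑ r, ∑ i, ∑ l, f j r i l =
        ∑ i, ∑ l, ∑ j, ∑ r, f j r i l := by
      intro f
      calc ∑ j, ∑ r, ∑ i, ∑ l, f j r i l = ∑ x : m × n, ∑ y : m × n, f x.1 x.2 y.1 y.2 := by
            rw [Fintype.sum_prod_type]
            refine Finset.sum_congr rfl fun j _ => Finset.sum_congr rfl fun r _ => ?_
            rw [Fintype.sum_prod_type]
        _ = ∑ y : m × n, ∑ x : m × n, f x.1 x.2 y.1 y.2 := Finset.sum_comm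
        _ = _ := by
            rw [Fintype.sum_prod_type]
            refine Finset.sum_congr rfl fun j _ => Finset.sum_congr rfl fun r _ => ?_
            rw [Fintype.sum_prod_type]
    exact h9 _
  have h10 : ∑ i, ∑ l, (((∑ i', Bi i i' • (Km i' * Q)) p l : ℚ) : W.K) * (a i * c l) =
      -∑ i, ∑ l, ∑ j, ∑ r, ((Bi i j : ℚ) : W.K) * ((Km j p r : ℚ) : W.K) *
          ((Q l r : ℚ) : W.K) * (a i * c l) := by
    rw [← Finset.sum_neg_distrib]
    refine Finset.sum_congr rfl fun i _ => ?_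
    rw [← Finset.sum_neg_distrib]
    refine Finset.sum_congr rfl fun l _ => ?_
    have h11 : (((∑ i', Bi i i' • (Km i' * Q)) p l : ℚ) : W.K) =
        -∑ j, ∑ r, ((Bi i j : ℚ) : W.K) * ((Km j p r : ℚ) : W.K) * ((Q l r : ℚ) : W.K) := by
      rw [Matrix.sum_apply, Rat.cast_sum, ← Finset.sum_neg_distrib]
      refine Finset.sum_congr rfl fun j _ => ?_
      rw [Matrix.smul_apply, Matrix.mul_apply, smul_eq_mul, Rat.cast_mul, Rat.cast_sum,
        Finset.mul_sum, ← Finset.sum_neg_distrib]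
      refine Finset.sum_congr rfl fun r _ => ?_
      have h12 : Q r l = -Q l r := by
        have := congrFun (congrFun hQ l) r
        rw [Matrix.transpose_apply, Matrix.neg_apply] at this
        exact this
      rw [h12]
      push_cast
      ring
    rw [h11, neg_mul, Finset.sum_mul]
    congr 1
    exact Finset.sum_congr rfl fun j _ => by rw [Finset.sum_mul]
  rw [h7, h10, add_neg_cancel, zero_smul]

end Run7.h38.KG
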