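import Pool.Agent.Run7.h38.KG.XData

/-!
# The Clifford multiplication given by a correspondence
-/

set_option linter.unusedSectionVars false

open CategoryTheory AlgebraicGeometry TensorProduct

universe u

namespace Run7.h38.KG

open Module Pool.Agent.N996.BP Pool.Agent.N996.BP.Geo
open Pool.Agent.H914 Pool.Agent.H914.VarClass Pool.Agent.H914.VarClass.Obj
  Pool.Agent.H914.WeilCohomology
open Pool.Agent.Y133.Half Pool.Agent.Y121.AH
open Run7.h38.KS (cq KD)

variable {k : Type u} [Field k] {𝒱 : VarClass k} {ops : CycleOps 𝒱} {T : HodgeTheory ops}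
  {X A : 𝒱.Obj}

set_option maxHeartbeats 400000

/-- The properties of the class of a Clifford multiplication. -/
structure KSA (T : HodgeTheory ops) (X A : 𝒱.Obj) (r : ℕ) (c : T.W.K)
    (γ : T.W.H ((X.prod A).prod A)) : Prop where
  hodge : IsHodge T ((X.prod A).prod A) (A.dim + r) γ
  ne : c ≠ 0
  cliff : ∀ t ∈ tc T X, ∀ v ∈ T.W.gr A 1,
    T.W.corr γ (xp T.W t (T.W.corr γ (xp T.W t v))) = (c * T.W.tr X (t * t)) • v

variable {r : ℕ} {c : T.W.K} {γ : T.W.H ((X.prod A).prod A)}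

section Deg

/-- The degree of the Clifford multiplication. -/
lemma KSA.mem (h : KSA T X A r c γ) (hX : X.dim = 2 * r) {t : T.W.H X}
    (ht : t ∈ T.W.gr X (2 * r)) {v : T.W.H A} (hv : v ∈ T.W.gr A 1) :
    T.W.corr γ (xp T.W t v) ∈ T.W.gr A 1 := by
  have h1 : xp T.W t v ∈ T.W.gr (X.prod A) (2 * r + 1) :=
    T.W.mul_mem (T.W.map_mem _ ht) (T.W.map_mem _ hv)
  have h2 := T.W.push_mem (snd (X.prod A) A)
    (T.W.mul_mem h.hodge.1 (T.W.map_mem (fst (X.prod A) A) h1))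
  rw [corr_apply]
  have e : ((2 * (A.dim + r) + (2 * r + 1) : ℕ) : ℤ) +
      2 * ((A.dim : ℤ) - ((X.prod A).prod A).dim) = ((1 : ℕ) : ℤ) := by
    rw [dim_prod, dim_prod, hX]; push_cast; ring
  rw [e, grZ_natCast] at h2
  exact h2

lemma em_corr' (γ : T.W.H ((X.prod A).prod A)) (x : T.W.H X) (y : T.W.H A) :
    (CW T).corr (em T.W ℂ γ) (xp (CW T) (em T.W ℂ x) (em T.W ℂ y)) =
      em T.W ℂ (T.W.corr γ (xp T.W x y)) := by
  rw [corr_apply, corr_apply, xp, em_map, em_map, ← em_mul, em_map, ← em_mul, em_push]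
  rfl

lemma Kpush {i : ℤ} {p q : ℤ} {z : (CW T).H ((X.prod A).prod A)} (_hi : i = 0)
    (hz : z ∈ T.pq ((X.prod A).prod A) p q) :
    (CW T).push (snd (X.prod A) A) z ∈ T.pq A (p - X.dim - A.dim) (q - X.dim - A.dim) := by
  have h1 := T.dec.push (snd (X.prod A) A) hz
  have e1 : p + A.dim - ((X.prod A).prod A).dim = p - X.dim - A.dim := by
    rw [dim_prod, dim_prod]; push_cast; ring
  have e2 : q + A.dim - ((X.prod A).prod A).dim = q - X.dim - A.dim := by
    rw [dim_prod, dim_prod]; push_cast; ring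
  rwa [e1, e2] at h1

/-- The types of the Clifford multiplication. -/
lemma KSA.types (h : KSA T X A r c γ) (hX : X.dim = 2 * r) {p q p' q' : ℤ} {x : (CW T).H X}
    (hx : x ∈ T.pq X p q) {y : (CW T).H A} (hy : y ∈ T.pq A p' q') :
    (CW T).corr (em T.W ℂ γ) (xp (CW T) x y) ∈ T.pq A (p + p' - r) (q + q' - r) := by
  have h1 : xp (CW T) x y ∈ T.pq (X.prod A) (p + p') (q + q') :=
    T.dec.mul (T.dec.map _ hx) (T.dec.map _ hy)
  have h2 := Kpush (i := 0) rfl (T.dec.mul h.hodge.2 (T.dec.map (fst (X.prod A) A) h1))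
  rw [corr_apply]
  have e1 : ((A.dim + r : ℕ) : ℤ) + (p + p') - X.dim - A.dim = p + p' - r := by
    rw [hX]; push_cast; ring
  have e2 : ((A.dim + r : ℕ) : ℤ) + (q + q') - X.dim - A.dim = q + q' - r := by
    rw [hX]; push_cast; ring
  rwa [e1, e2] at h2

end Deg

section Mat

variable {s m s' n : Type} [Fintype s] [DecidableEq s] [Fintype m] [DecidableEq m] [Fintype s']
  [DecidableEq s'] [Fintype n] [DecidableEq n] {eX : Basis (s ⊕ m) T.W.K (T.W.H X)}
  {eA : Basis (s' ⊕ n) T.W.K (T.W.H A)} {o' : s'} {deg : s' ⊕ n → ℕ}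

/-- The matrices of the Clifford multiplication. -/
noncomputable def Kmt (eX : Basis (s ⊕ m) T.W.K (T.W.H X))
    (eA : Basis (s' ⊕ n) T.W.K (T.W.H A)) (γ : T.W.H ((X.prod A).prod A)) (j : m) :
    Matrix n n ℚ :=
  Matrix.of fun p l => (T.rat (eA.repr (T.W.corr γ
    (xp T.W (eX (Sum.inr j)) (eA (Sum.inr l)))) (Sum.inr p))).choose

lemma Kmt_spec (j : m) (p l : n) : ((Kmt eX eA γ j p l : ℚ) : T.W.K) =
    eA.repr (T.W.corr γ (xp T.W (eX (Sum.inr j)) (eA (Sum.inr l)))) (Sum.inr p) :=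
  (T.rat (eA.repr (T.W.corr γ
    (xp T.W (eX (Sum.inr j)) (eA (Sum.inr l)))) (Sum.inr p))).choose_spec

variable (h : KSA T X A r c γ) (hX : X.dim = 2 * r) (D : AB eA o' deg)
  (ht : ∀ j, eX (Sum.inr j) ∈ T.W.gr X (2 * r))

include h hX D ht in
lemma Kmt_sum (j : m) (l : n) : T.W.corr γ (xp T.W (eX (Sum.inr j)) (eA (Sum.inr l))) =
    ∑ p, ((Kmt eX eA γ j p l : ℚ) : T.W.K) • eA (Sum.inr p) := by
  refine (D.gr_sum (h.mem hX (ht j) (D.v_mem l))).trans ?_
  exact Finset.sum_congr rfl fun p _ => by rw [Kmt_spec]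

include h hX D ht in
lemma Kmt_two (i j : m) (l : n) : T.W.corr γ (xp T.W (eX (Sum.inr i))
    (T.W.corr γ (xp T.W (eX (Sum.inr j)) (eA (Sum.inr l))))) =
      ∑ q, (((Kmt eX eA γ i * Kmt eX eA γ j) q l : ℚ) : T.W.K) • eA (Sum.inr q) := by
  rw [Kmt_sum h hX D ht j l]
  have h1 : xp T.W (eX (Sum.inr i)) (∑ p, ((Kmt eX eA γ j p l : ℚ) : T.W.K) • eA (Sum.inr p)) =
      ∑ p, ((Kmt eX eA γ j p l : ℚ) : T.W.K) • xp T.W (eX (Sum.inr i)) (eA (Sum.inr p)) := by
    rw [xp, map_sum, Finset.mul_sum]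
    exact Finset.sum_congr rfl fun p _ => by rw [map_smul, mul_smul_comm]; rfl
  rw [h1, map_sum]
  have h2 : ∀ p, T.W.corr γ (((Kmt eX eA γ j p l : ℚ) : T.W.K) •
      xp T.W (eX (Sum.inr i)) (eA (Sum.inr p))) =
        ∑ q, (((Kmt eX eA γ i q p * Kmt eX eA γ j p l : ℚ)) : T.W.K) • eA (Sum.inr q) := by
    intro p
    rw [map_smul, Kmt_sum h hX D ht i p, Finset.smul_sum]
    refine Finset.sum_congr rfl fun q _ => ?_
    rw [smul_smul, ← Rat.cast_mul, mul_comm]
  rw [Finset.sum_congr rfl fun p _ => h2 p, Finset.sum_comm]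
  refine Finset.sum_congr rfl fun q _ => ?_
  rw [← Finset.sum_smul, ← Rat.cast_sum, Matrix.mul_apply]

include h in
/-- The polarised Clifford relation. -/
lemma KSA.polar {x y : T.W.H X} (hx : x ∈ tc T X) (hy : y ∈ tc T X) (hxe : x ∈ PH T.W X 0)
    {v : T.W.H A} (hv : v ∈ T.W.gr A 1) :
    T.W.corr γ (xp T.W x (T.W.corr γ (xp T.W y v))) +
      T.W.corr γ (xp T.W y (T.W.corr γ (xp T.W x v))) =
        (2 * (c * T.W.tr X (x * y))) • v := by
  have h1 := h.cliff (x + y) (Submodule.add_mem _ hx hy) v hv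
  have h2 := h.cliff x hx v hv
  have h3 := h.cliff y hy v hv
  have h4 : T.W.tr X ((x + y) * (x + y)) =
      T.W.tr X (x * x) + 2 * T.W.tr X (x * y) + T.W.tr X (y * y) := by
    rw [add_mul, mul_add, mul_add, PH.even_comm hxe y, map_add, map_add, map_add]
    ring
  rw [h4, xp_add_left, map_add, xp_add_left, map_add, xp_add_right, xp_add_right, map_add,
    map_add, h2, h3] at h1
  have h5 : T.W.corr γ (xp T.W x (T.W.corr γ (xp T.W y v))) +
      T.W.corr γ (xp T.W y (T.W.corr γ (xp T.W x v))) =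
        (c * (T.W.tr X (x * x) + 2 * T.W.tr X (x * y) + T.W.tr X (y * y))) • v -
          (c * T.W.tr X (x * x)) • v - (c * T.W.tr X (y * y)) • v := by
    rw [← h1]; abel
  rw [h5, ← sub_smul, ← sub_smul]
  congr 1
  ring

include h hX D ht in
/-- The Clifford relations for the matrices. -/
lemma Kmt_rel (htc : ∀ j, eX (Sum.inr j) ∈ tc T X) {B : Matrix m m ℚ} {c₀ : ℚ}
    (hB : ∀ i j, ((c₀ * B i j : ℚ) : T.W.K) =
      c * T.W.tr X (eX (Sum.inr i) * eX (Sum.inr j))) (i j : m) :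
    Kmt eX eA γ i * Kmt eX eA γ j + Kmt eX eA γ j * Kmt eX eA γ i =
      (2 * c₀ * B i j) • (1 : Matrix n n ℚ) := by
  ext q l
  have h1 := h.polar (htc i) (htc j) (PH.congr (by omega) (PH.of (ht i))) (D.v_mem l)
  rw [Kmt_two h hX D ht i j l, Kmt_two h hX D ht j i l, ← Finset.sum_add_distrib, ← hB] at h1
  have h2 : ∑ q, ((((Kmt eX eA γ i * Kmt eX eA γ j + Kmt eX eA γ j * Kmt eX eA γ i -
      (2 * c₀ * B i j) • (1 : Matrix n n ℚ)) q l : ℚ)) : T.W.K) • eA (Sum.inr q) = 0 := by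
    have h3 : ∀ q, ((((Kmt eX eA γ i * Kmt eX eA γ j + Kmt eX eA γ j * Kmt eX eA γ i -
      (2 * c₀ * B i j) • (1 : Matrix n n ℚ)) q l : ℚ)) : T.W.K) • eA (Sum.inr q) =
        ((((Kmt eX eA γ i * Kmt eX eA γ j) q l : ℚ) : T.W.K) • eA (Sum.inr q) +
        (((Kmt eX eA γ j * Kmt eX eA γ i) q l : ℚ) : T.W.K) • eA (Sum.inr q)) -
        (if q = l then (2 * ((c₀ * B i j : ℚ) : T.W.K)) • eA (Sum.inr q) else 0) := by
      intro q
      rw [Matrix.sub_apply, Matrix.add_apply, Matrix.smul_apply, Matrix.one_apply, ← add_smul]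
      by_cases hq : q = l
      · rw [if_pos hq, if_pos hq, ← sub_smul]
        congr 1
        push_cast
        rw [smul_eq_mul, mul_one]
        push_cast
        ring
      · rw [if_neg hq, if_neg hq, sub_zero, smul_zero, sub_zero, Rat.cast_add]
    rw [Finset.sum_congr rfl fun q _ => h3 q, Finset.sum_sub_distrib, h1,
      Finset.sum_ite_eq' Finset.univ l, if_pos (Finset.mem_univ l), sub_self]
  have hli : LinearIndependent T.W.K fun p : n => eA (Sum.inr p) :=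
    eA.linearIndependent.comp _ Sum.inr_injective
  have h4 := Fintype.linearIndependent_iff.1 hli _ h2 q
  have h5 : (Kmt eX eA γ i * Kmt eX eA γ j + Kmt eX eA γ j * Kmt eX eA γ i -
      (2 * c₀ * B i j) • (1 : Matrix n n ℚ)) q l = 0 := by exact_mod_cast h4
  rw [Matrix.sub_apply] at h5
  exact sub_eq_zero.1 h5

section Kappa

open Matrix (mulVec)
open K3D (xt)

variable {φ : LinearMap.BilinForm T.W.K (T.W.H X)} {ψ : LinearMap.BilinForm T.W.K (T.W.H A)}

/-- Rational coefficients. -/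
lemma em_rat (q : ℚ) (x : T.W.H A) : em T.W ℂ ((q : T.W.K) • x) = cc T (q : ℂ) • em T.W ℂ x := by
  rw [em_smul, ex_rat]
  rfl

include h hX D ht in
/-- The extension of the Clifford multiplication to complex coefficients. -/
lemma kap_xt (w : m → ℂ) (z : n → ℂ) :
    (CW T).corr (em T.W ℂ γ) (xp (CW T) (show (CW T).H X from xt eX w)
      (show (CW T).H A from xt eA z)) =
        (show (CW T).H A from xt eA (mulVec (∑ i, w i • cq (Kmt eX eA γ i)) z)) := by
  have h1 : (show (CW T).H X from xt eX w) = ∑ j, cc T (w j) • em T.W ℂ (eX (Sum.inr j)) := rfl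
  have h2 : (show (CW T).H A from xt eA z) = ∑ l, cc T (z l) • em T.W ℂ (eA (Sum.inr l)) := rfl
  rw [h1, h2, xp_sum_sum, map_sum]
  have h3 : ∀ j l, (CW T).corr (em T.W ℂ γ) (xp (CW T) (cc T (w j) • em T.W ℂ (eX (Sum.inr j)))
      (cc T (z l) • em T.W ℂ (eA (Sum.inr l)))) =
        ∑ p, cc T (w j * cq (Kmt eX eA γ j) p l * z l) • em T.W ℂ (eA (Sum.inr p)) := by
    intro j l
    rw [xp_smul_left, xp_smul_right, map_smul, map_smul, em_corr', Kmt_sum h hX D ht j l,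
      em_sum, smul_smul, Finset.smul_sum]
    refine Finset.sum_congr rfl fun p _ => ?_
    rw [em_rat, smul_smul]
    congr 1
    change (w j * z l) * ((Kmt eX eA γ j p l : ℚ) : ℂ) = w j * cq (Kmt eX eA γ j) p l * z l
    rw [cq, Matrix.map_apply]
    ring
  have h4 : (show (CW T).H A from xt eA (mulVec (∑ i, w i • cq (Kmt eX eA γ i)) z)) =
      ∑ p, cc T (mulVec (∑ i, w i • cq (Kmt eX eA γ i)) z p) • em T.W ℂ (eA (Sum.inr p)) := rfl
  rw [h4]
  have h5 : ∀ j, (CW T).corr (em T.W ℂ γ) (∑ l, xp (CW T)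
      (cc T (w j) • em T.W ℂ (eX (Sum.inr j))) (cc T (z l) • em T.W ℂ (eA (Sum.inr l)))) =
        ∑ p, (∑ l, cc T (w j * cq (Kmt eX eA γ j) p l * z l)) •
          em T.W ℂ (eA (Sum.inr p)) := by
    intro j
    rw [map_sum, Finset.sum_congr rfl fun l _ => h3 j l, Finset.sum_comm]
    exact Finset.sum_congr rfl fun p _ => (Finset.sum_smul).symm
  rw [Finset.sum_congr rfl fun j _ => h5 j, Finset.sum_comm]
  refine Finset.sum_congr rfl fun p _ => ?_
  rw [← Finset.sum_smul]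
  congr 1
  change ∑ j, ∑ l, w j * cq (Kmt eX eA γ j) p l * z l =
    ∑ l, (∑ i, w i • cq (Kmt eX eA γ i)) p l * z l
  rw [Finset.sum_comm]
  refine Finset.sum_congr rfl fun l _ => ?_
  rw [Matrix.sum_apply, Finset.sum_mul]
  rfl

end Kappa

end Mat

end Run7.h38.KG
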