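import Pool.Agent.Run7.h38.KG.Fml2

/-!
# Lifting of Hodge classes
-/

set_option linter.unusedSectionVars false

open CategoryTheory AlgebraicGeometry TensorProduct

universe u

namespace Run7.h38.KG

open Module Pool.Agent.N996.BP Pool.Agent.N996.BP.Geo
open Pool.Agent.H914 Pool.Agent.H914.VarClass Pool.Agent.H914.VarClass.Obj
  Pool.Agent.H914.WeilCohomology
open Pool.Agent.Y133.Half Pool.Agent.Y121.AH
open Matrix (mulVec)

section Mat

variable {ι : Type} [Fintype ι] [DecidableEq ι] {H : HData ι}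

lemma lQir' {t : ℂ} (ht : t ≠ 0) : H.l t * cQ H.Qir * (H.l t).transpose = cQ H.Qir := by
  have h3 : cQ H.Qr * cQ H.Qir = 1 := by rw [← cQ_mul, H.Qr_Qir, cQ_one]
  have h4 : cQ H.Qir * cQ H.Qr = 1 := mul_eq_one_comm.1 h3
  calc H.l t * cQ H.Qir * (H.l t).transpose =
      H.l t * cQ H.Qir * ((H.l t).transpose * cQ H.Qr) * cQ H.Qir := by
        simp only [Matrix.mul_assoc]
        rw [h3, Matrix.mul_one]
    _ = H.l t * (cQ H.Qir * cQ H.Qr) * H.l t⁻¹ * cQ H.Qir := by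
        rw [H.l_tr ht]; simp only [Matrix.mul_assoc]
    _ = _ := by rw [h4, Matrix.mul_one, H.l_inv ht, Matrix.one_mul]

/-- The vectors fixed by the transposed matrices. -/
lemma Qir_fix {κ : Type} [Fintype κ] [DecidableEq κ] {α : (κ → ι) → ℚ}
    (h : ∀ t : ℂ, t ≠ 0 → mulVec (kp κ (H.l t)).transpose (ca α) = ca α) :
    mulVec (kp κ H.Qir) α ∈ BB H κ := by
  intro t ht
  have h1 : ca (mulVec (kp κ H.Qir) α) = mulVec (kp κ (cQ H.Qir)) (ca α) := by
    funext i
    rw [kp_cQ]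
    simp [ca, mulVec, dotProduct, cQ]
  rw [h1]
  conv_lhs => rw [← h t ht]
  rw [Matrix.mulVec_mulVec, Matrix.mulVec_mulVec, ← kp_transpose, ← kp_mul, ← kp_mul,
    lQir' ht]

/-- Positivity on the Hodge classes. -/
lemma BB_pos {κ : Type} [Fintype κ] [DecidableEq κ] {a : (κ → ι) → ℚ} (ha : a ∈ BB H κ)
    (h : dotProduct a (mulVec (kp κ H.Qr) a) = 0) : a = 0 := by
  by_contra hne
  have h0 : (fun i => (a i : ℝ)) ≠ 0 := by
    intro h1
    apply hne
    funext i
    have h2 := congrFun h1 i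
    simpa using h2
  have hC : mulVec (kp κ H.D.C) (fun i => (a i : ℝ)) = fun i => (a i : ℝ) := by
    have h1 := ha Complex.I Complex.I_ne_zero
    have h3 : H.D.C.map (fun x : ℝ => (x : ℂ)) = H.l Complex.I := H.hC
    rw [← h3] at h1
    funext i
    have h2 := congrFun h1 i
    rw [mulVec, dotProduct] at h2 ⊢
    have h4 : ((∑ j, kp κ H.D.C i j * (a j : ℝ) : ℝ) : ℂ) = (((a i : ℝ)) : ℂ) := by
      rw [Complex.ofReal_sum]
      simp only [Complex.ofReal_mul, Complex.ofReal_ratCast]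
      refine Eq.trans (Finset.sum_congr rfl fun j _ => ?_) h2
      congr 1
      rw [kp_apply, kp_apply, Complex.ofReal_prod]
      rfl
    exact_mod_cast h4
  have h1 := H.D.bf_pos (fun i => (a i : ℝ)) h0
  rw [RData.bf_apply, RData.S_eq, kp_mul, ← Matrix.mulVec_mulVec, hC, H.hQr] at h1
  have h2 : dotProduct (fun i => (a i : ℝ)) (mulVec (kp κ (H.Qr.map fun x : ℚ => (x : ℝ)))
      fun i => (a i : ℝ)) = ((dotProduct a (mulVec (kp κ H.Qr) a) : ℚ) : ℝ) := by
    simp only [dotProduct, mulVec, kp_apply, Matrix.map_apply]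
    push_cast
    rfl
  rw [h2, h] at h1
  simp at h1

end Mat

variable {k : Type u} [Field k] {𝒱 : VarClass k} {ops : CycleOps 𝒱} {T : HodgeTheory ops}
  {X Y Z : 𝒱.Obj}

/-- The rational number of a coefficient. -/
noncomputable def rn (T : HodgeTheory ops) (r : T.W.K) : ℚ := (T.rat r).choose

lemma rn_spec (r : T.W.K) : ((rn T r : ℚ) : T.W.K) = r := (T.rat r).choose_spec

lemma rn_rat (q : ℚ) : rn T (q : T.W.K) = q := by
  have h := rn_spec (T := T) (q : T.W.K)
  exact_mod_cast h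

lemma cc_rn (r : T.W.K) : (((rn T r : ℚ) : ℂ)) = algebraMap T.W.K ℂ r := by
  conv_rhs => rw [← rn_spec (T := T) r, map_ratCast]

variable {κ : Type} [Fintype κ] [DecidableEq κ] (e : Basis κ T.W.K (T.W.H X))
  {ι : Type} [Fintype ι] [DecidableEq ι] (j : ι → κ) {N : ℕ} (δ : Z ⟶ pw X N)

/-- The classes of the words. -/
noncomputable def dw (w : Fin (N + 1) → ι) : T.W.H Z := T.W.map δ (wb e N (j ∘ w))

/-- The values of the trace. -/
noncomputable def al (y : T.W.H Z) (v : Fin (N + 1) → ι) : ℚ := rn T (T.W.tr Z (dw e j δ v * y))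

/-- The array. -/
noncomputable def ar (H : HData ι) (y : T.W.H Z) : (Fin (N + 1) → ι) → ℚ :=
  mulVec (kp (Fin (N + 1)) H.Qir) (al e j δ y)

lemma ar_K (H : HData ι) (y : T.W.H Z) (w : Fin (N + 1) → ι) :
    ((ar e j δ H y w : ℚ) : T.W.K) =
      ∑ v, ((kp (Fin (N + 1)) H.Qir w v : ℚ) : T.W.K) * T.W.tr Z (dw e j δ v * y) := by
  rw [ar, mulVec, dotProduct, Rat.cast_sum]
  refine Finset.sum_congr rfl fun v _ => ?_
  rw [Rat.cast_mul, al, rn_spec]

/-- The operator `R R*`. -/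
noncomputable def LL (H : HData ι) : T.W.H Z →ₗ[T.W.K] T.W.H Z :=
  ∑ w, ∑ v, ((kp (Fin (N + 1)) H.Qir w v : ℚ) : T.W.K) •
    ((T.W.tr Z ∘ₗ LinearMap.mulLeft T.W.K (dw e j δ v)).smulRight (dw e j δ w))

lemma LL_apply (H : HData ι) (y : T.W.H Z) :
    LL e j δ H y = ∑ w, ((ar e j δ H y w : ℚ) : T.W.K) • dw e j δ w := by
  rw [LL, LinearMap.sum_apply]
  refine Finset.sum_congr rfl fun w _ => ?_
  rw [LinearMap.sum_apply, ar_K, Finset.sum_smul]
  refine Finset.sum_congr rfl fun v _ => ?_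
  rw [LinearMap.smul_apply, LinearMap.smulRight_apply, smul_smul]
  rfl

lemma LL_map (H : HData ι) (y : T.W.H Z) :
    LL e j δ H y = T.W.map δ (clf e j N (ar e j δ H y)) := by
  rw [LL_apply, clf, map_sum]
  refine Finset.sum_congr rfl fun w _ => ?_
  rw [map_smul]
  rfl

variable {e j δ} {H : HData ι}

lemma al_fix (h0 : ∀ t : ℂ, t ≠ 0 → IsMat T t X (fun i => e (j i)) (H.l t)) {y : T.W.H Z}
    (hy : Inv T Z y) {t : ℂ} (ht : t ≠ 0) :
    mulVec (kp (Fin (N + 1)) (H.l t)).transpose (ca (al e j δ y)) = ca (al e j δ y) := by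
  have key : ∀ v, (CW T).tr Z (em T.W ℂ (dw e j δ v) * em T.W ℂ y) =
      cc T (ca (al e j δ y) v) := by
    intro v
    rw [← em_mul, em_tr]
    exact (cc_rn _).symm
  funext v
  have h1 := key v
  have h2 : em T.W ℂ (dw e j δ v) = (CW T).map δ (em T.W ℂ (wb e N (j ∘ v))) :=
    (em_map _ _).symm
  have h4 := isMatf e j ht (h0 t ht) N v
  simp only at h4
  have h3 : lop T t Z (em T.W ℂ (dw e j δ v)) =
      ∑ u, cc T (kp (Fin (N + 1)) (H.l t) u v) • em T.W ℂ (dw e j δ u) := by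
    rw [h2, lop_map, h4, map_sum]
    refine Finset.sum_congr rfl fun u _ => ?_
    rw [map_smul, em_map]
    rfl
  rw [← tr_lop (t := t), lop_mul ht, hy t ht, h3, Finset.sum_mul, map_sum] at h1
  have h5 : ∀ u, (CW T).tr Z (cc T (kp (Fin (N + 1)) (H.l t) u v) • em T.W ℂ (dw e j δ u) *
      em T.W ℂ y) = cc T (kp (Fin (N + 1)) (H.l t) u v * ca (al e j δ y) u) := by
    intro u
    rw [smul_mul_assoc, map_smul, key]
    rfl
  rw [Finset.sum_congr rfl fun u _ => h5 u] at h1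
  exact h1

lemma ar_BB (h0 : ∀ t : ℂ, t ≠ 0 → IsMat T t X (fun i => e (j i)) (H.l t)) {y : T.W.H Z}
    (hy : Inv T Z y) : ar e j δ H y ∈ BB H (Fin (N + 1)) :=
  Qir_fix fun _ ht => al_fix h0 hy ht

lemma LL_inj (h0 : ∀ t : ℂ, t ≠ 0 → IsMat T t X (fun i => e (j i)) (H.l t))
    (hδ : Submodule.span T.W.K (Set.range fun w : Fin (N + 1) → ι =>
      T.W.map δ (wb e N (j ∘ w))) = ⊤) {y : T.W.H Z}
    (hy : Inv T Z y) (h : LL e j δ H y = 0) : y = 0 := by
  have h1 : dotProduct (ar e j δ H y) (al e j δ y) = 0 := by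
    have h2 : T.W.tr Z (LL e j δ H y * y) = 0 := by rw [h, zero_mul, map_zero]
    rw [LL_apply, Finset.sum_mul, map_sum] at h2
    have h3 : ((dotProduct (ar e j δ H y) (al e j δ y) : ℚ) : T.W.K) = 0 := by
      rw [← h2, dotProduct, Rat.cast_sum]
      refine Finset.sum_congr rfl fun w _ => ?_
      rw [Rat.cast_mul, smul_mul_assoc, map_smul, smul_eq_mul, al, rn_spec]
    exact_mod_cast h3
  have hQ : mulVec (kp (Fin (N + 1)) H.Qr) (ar e j δ H y) = al e j δ y := by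
    rw [ar, Matrix.mulVec_mulVec, ← kp_mul, H.Qr_Qir, kp_one, Matrix.one_mulVec]
  have h2 : ar e j δ H y = 0 := BB_pos (ar_BB h0 hy) (by rw [hQ, h1])
  have h3 : al e j δ y = 0 := by rw [← hQ, h2, Matrix.mulVec_zero]
  apply nondeg_right
  intro b
  have hb : b ∈ Submodule.span T.W.K (Set.range fun w : Fin (N + 1) → ι =>
      T.W.map δ (wb e N (j ∘ w))) := by rw [hδ]; trivial
  induction hb using Submodule.span_induction with
  | mem x hx =>
    obtain ⟨w, rfl⟩ := hx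
    have h4 := congrFun h3 w
    rw [al, Pi.zero_apply] at h4
    have h5 := rn_spec (T := T) (T.W.tr Z (dw e j δ w * y))
    rw [h4, Rat.cast_zero] at h5
    exact h5.symm
  | zero => rw [zero_mul, map_zero]
  | add a b _ _ ha hb => rw [add_mul, map_add, ha, hb, add_zero]
  | smul c a _ ha => rw [smul_mul_assoc, map_smul, ha, smul_zero]

/-- **Lifting of Hodge classes.** -/
theorem lift_le {S : Sys T.W}
    (h0 : ∀ t : ℂ, t ≠ 0 → IsMat T t X (fun i => e (j i)) (H.l t))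
    (hδ : Submodule.span T.W.K (Set.range fun w : Fin (N + 1) → ι =>
      T.W.map δ (wb e N (j ∘ w))) = ⊤) (hj : Function.Injective j)
    (hB : BB H (Fin (N + 1)) ≤ arf e j S N) : (hodgePred T).sp Z ≤ S.C Z := by
  have hm : ∀ y ∈ (hodgePred T).sp Z, LL e j δ H y ∈ (hodgePred T).sp Z := by
    intro y hy
    rw [LL_map]
    have h1 : Inv T (pw X N) (clf e j N (ar e j δ H y)) :=
      (inv_clf e hj h0 N _).2 (ar_BB h0 (inv_iff.2 hy))
    exact (hodgePred T).sys.map _ (inv_iff.1 h1)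
  have hinj : Function.Injective ((LL e j δ H).restrict hm) := by
    rw [← LinearMap.ker_eq_bot, LinearMap.ker_eq_bot']
    rintro ⟨y, hy⟩ h1
    have h2 : LL e j δ H y = 0 := congrArg Subtype.val h1
    exact Subtype.ext (LL_inj h0 hδ (inv_iff.2 hy) h2)
  have hsur := LinearMap.injective_iff_surjective.1 hinj
  intro c hc
  obtain ⟨⟨y, hy⟩, h1⟩ := hsur ⟨c, hc⟩
  have h2 : LL e j δ H y = c := congrArg Subtype.val h1
  rw [← h2, LL_map]
  exact S.map _ (hB (ar_BB h0 (inv_iff.2 hy)))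

end Run7.h38.KG
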