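import Pool.Agent.Run7.h38.KG.Spl
import Pool.Agent.Run7.h38.KG.APart

/-!
# The words on the powers of a product
-/

set_option linter.unusedSectionVars false

open CategoryTheory AlgebraicGeometry TensorProduct

universe u

namespace Run7.h38.KG

open Module Pool.Agent.N996.BP Pool.Agent.N996.BP.Geo
open Pool.Agent.H914 Pool.Agent.H914.VarClass Pool.Agent.H914.VarClass.Obj
  Pool.Agent.H914.WeilCohomology
open Pool.Agent.Y133.Half
open Run7.h38.KS (blk)

variable {k : Type u} [Field k] {𝒱 : VarClass k} {ops : CycleOps 𝒱}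
  {W : WeilCohomology.{u, 0} ops} {X A Y : 𝒱.Obj}

section Lemmas

lemma xp_one_right (x : W.H X) : xp W x (1 : W.H A) = W.map (fst X A) x := by
  rw [xp, map_one, mul_one]

lemma xp_one_left (y : W.H A) : xp W (1 : W.H X) y = W.map (snd X A) y := by
  rw [xp, map_one, one_mul]

lemma q1_fst : q1 X A ≫ fst X X = fst (X.prod A) (X.prod A) ≫ fst X A := Obj.lift_fst _ _
lemma q1_snd : q1 X A ≫ snd X X = snd (X.prod A) (X.prod A) ≫ fst X A := Obj.lift_snd _ _
lemma q2_fst : q2 X A ≫ fst A A = fst (X.prod A) (X.prod A) ≫ snd X A := Obj.lift_fst _ _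
lemma q2_snd : q2 X A ≫ snd A A = snd (X.prod A) (X.prod A) ≫ snd X A := Obj.lift_snd _ _

lemma xx (x x' : W.H X) : xp W (W.map (fst X A) x) (W.map (fst X A) x') =
    W.map (q1 X A) (xp W x x') := by
  rw [xp, xp, map_mul, ← W.map_comp, ← W.map_comp, ← W.map_comp, ← W.map_comp, q1_fst, q1_snd]

lemma xa (x : W.H X) (y : W.H A) : xp W (W.map (fst X A) x) (W.map (snd X A) y) =
    W.map (q1 X A) (xp W x 1) * W.map (q2 X A) (xp W 1 y) := by
  rw [xp_one_right, xp_one_left, xp, ← W.map_comp, ← W.map_comp, ← W.map_comp, ← W.map_comp,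
    q1_fst, q2_snd]

lemma ax {x : W.H X} (hx : x ∈ PH W X 0) (y : W.H A) :
    xp W (W.map (snd X A) y) (W.map (fst X A) x) =
      W.map (q1 X A) (xp W 1 x) * W.map (q2 X A) (xp W y 1) := by
  rw [xp_one_right, xp_one_left, xp, ← W.map_comp, ← W.map_comp, ← W.map_comp, ← W.map_comp,
    q1_snd, q2_fst]
  exact (PH.even_comm (PH.map _ hx) _).symm

lemma aa (y y' : W.H A) : xp W (W.map (snd X A) y) (W.map (snd X A) y') =
    W.map (q2 X A) (xp W y y') := by
  rw [xp, xp, map_mul, ← W.map_comp, ← W.map_comp, ← W.map_comp, ← W.map_comp, q2_fst, q2_snd]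

lemma tr_q (c : W.H (X.prod X)) (d : W.H (A.prod A)) :
    W.tr ((X.prod A).prod (X.prod A)) (W.map (q1 X A) c * W.map (q2 X A) d) =
      W.tr (X.prod X) c * W.tr (A.prod A) d := by
  refine xp_induction (p := fun c => W.tr ((X.prod A).prod (X.prod A))
    (W.map (q1 X A) c * W.map (q2 X A) d) = W.tr (X.prod X) c * W.tr (A.prod A) d) ?_ ?_ c
  · intro a b ha hb; rw [map_add, add_mul, map_add, ha, hb, map_add, add_mul]
  intro i j x hx x' hx'
  refine xp_induction (p := fun d => W.tr ((X.prod A).prod (X.prod A))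
    (W.map (q1 X A) (xp W x x') * W.map (q2 X A) d) =
      W.tr (X.prod X) (xp W x x') * W.tr (A.prod A) d) ?_ ?_ d
  · intro a b ha hb; rw [map_add, mul_add, map_add, ha, hb, map_add, mul_add]
  intro i' j' y hy y' hy'
  have h1 : W.map (q1 X A) (xp W x x') * W.map (q2 X A) (xp W y y') =
      (-1 : W.K) ^ (j * i') • xp W (xp W x y) (xp W x' y') := by
    rw [← xx, ← aa, xp_mul _ _ _ _ (PH.map _ hx') (PH.map _ hy)]
    rfl
  rw [h1, map_smul, tr_xp, tr_xp, tr_xp, tr_xp, tr_xp, smul_eq_mul]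
  by_cases hj : j % 2 = 1
  · rw [PH.tr_odd hx' hj]; ring
  · have h2 : (-1 : W.K) ^ (j * i') = 1 := by
      rw [neg_pow_congr (b := 0) (by rw [Nat.mul_mod]; simp [show j % 2 = 0 by omega]),
        pow_zero]
    rw [h2]; ring

lemma tr_q4 (c : W.H (X.prod X)) (d : W.H (A.prod A)) {c' : W.H (X.prod X)}
    (hc' : c' ∈ PH W (X.prod X) 0) (d' : W.H (A.prod A)) :
    W.tr ((X.prod A).prod (X.prod A)) ((W.map (q1 X A) c * W.map (q2 X A) d) *
      (W.map (q1 X A) c' * W.map (q2 X A) d')) =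
        W.tr (X.prod X) (c * c') * W.tr (A.prod A) (d * d') := by
  rw [mul_assoc, ← mul_assoc (W.map (q2 X A) d), ← PH.even_comm (PH.map _ hc'), mul_assoc,
    ← mul_assoc, ← map_mul, ← map_mul, tr_q]

end Lemmas

section Basis

variable {s m s' n : Type} [Fintype s] [DecidableEq s] [Fintype m] [DecidableEq m] [Fintype s']
  [DecidableEq s'] [Fintype n] [DecidableEq n]
  (eX : Basis (s ⊕ m) W.K (W.H X)) (eA : Basis (s' ⊕ n) W.K (W.H A)) (o : s) (o' : s')

/-- The basis of the cohomology of the product. -/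
noncomputable def eP : Basis ((s ⊕ m) × (s' ⊕ n)) W.K (W.H (X.prod A)) :=
  (eX.tensorProduct eA).map (kappa W X A)

lemma eP_apply (x : s ⊕ m) (y : s' ⊕ n) : eP eX eA (x, y) = xp W (eX x) (eA y) := by
  have h : eP eX eA (x, y) = kappa W X A ((eX.tensorProduct eA) (x, y)) := rfl
  rw [h, Basis.tensorProduct_apply]
  exact kappa_tmul _ _

/-- The words. -/
def jj : s ⊕ (m ⊕ n) → (s ⊕ m) × (s' ⊕ n) :=
  Sum.elim (fun i => (Sum.inl i, Sum.inl o')) (Sum.elim (fun j => (Sum.inr j, Sum.inl o'))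
    fun k => (Sum.inl o, Sum.inr k))

lemma jj_inj : Function.Injective (jj o o' : s ⊕ (m ⊕ n) → (s ⊕ m) × (s' ⊕ n)) := by
  rintro (i | i | i) (j | j | j) h <;> simp [jj] at h ⊢ <;> exact h

/-- The parities. -/
def par2 : s ⊕ (m ⊕ n) → Fin 2 := Sum.elim (fun _ => 0) (Sum.elim (fun _ => 0) fun _ => 1)

variable {eX eA o o'}

lemma b_s (hoA : eA (Sum.inl o') = 1) (i : s) :
    eP eX eA (jj o o' (Sum.inl i : s ⊕ (m ⊕ n))) = W.map (fst X A) (eX (Sum.inl i)) := by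
  have h : jj o o' (Sum.inl i : s ⊕ (m ⊕ n)) = ((Sum.inl i : s ⊕ m), (Sum.inl o' : s' ⊕ n)) :=
    rfl
  rw [h, eP_apply, hoA, xp_one_right]

lemma b_t (hoA : eA (Sum.inl o') = 1) (i : m) :
    eP eX eA (jj o o' (Sum.inr (Sum.inl i) : s ⊕ (m ⊕ n))) =
      W.map (fst X A) (eX (Sum.inr i)) := by
  have h : jj o o' (Sum.inr (Sum.inl i) : s ⊕ (m ⊕ n)) =
    ((Sum.inr i : s ⊕ m), (Sum.inl o' : s' ⊕ n)) := rfl
  rw [h, eP_apply, hoA, xp_one_right]

lemma b_v (hoX : eX (Sum.inl o) = 1) (i : n) :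
    eP eX eA (jj o o' (Sum.inr (Sum.inr i) : s ⊕ (m ⊕ n))) =
      W.map (snd X A) (eA (Sum.inr i)) := by
  have h : jj o o' (Sum.inr (Sum.inr i) : s ⊕ (m ⊕ n)) =
    ((Sum.inl o : s ⊕ m), (Sum.inr i : s' ⊕ n)) := rfl
  rw [h, eP_apply, hoX, xp_one_left]

lemma b_par (hoX : eX (Sum.inl o) = 1) (hoA : eA (Sum.inl o') = 1)
    (hX : ∀ i, eX i ∈ PH W X 0) (hA : ∀ i : n, eA (Sum.inr i) ∈ PH W A 1)
    (i : s ⊕ (m ⊕ n)) : eP eX eA (jj o o' i) ∈ PH W (X.prod A) (par2 i : ℕ) := by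
  rcases i with i | i | i
  · rw [b_s hoA]; exact PH.map _ (hX _)
  · rw [b_t hoA]; exact PH.map _ (hX _)
  · rw [b_v hoX]; exact PH.map _ (hA _)

/-- The projectors to the two parts. -/
lemma exists_proj2 {S : Sys W} {pt : W.H A} (hpt : pt ∈ S.C A) (hpt1 : W.tr A pt = 1)
    (hoX : eX (Sum.inl o) = 1) (hoA : eA (Sum.inl o') = 1)
    (hv : ∀ i : n, W.tr A (eA (Sum.inr i)) = 0 ∧ pt * eA (Sum.inr i) = 0) (b : Fin 2) :
    ∃ u ∈ S.Op (X.prod A) (X.prod A), ∀ i : s ⊕ (m ⊕ n),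
      u (eP eX eA (jj o o' i)) = if par2 i = b then eP eX eA (jj o o' i) else 0 := by
  obtain ⟨u, hu⟩ : ∃ u, u = (W.map (fst X A)).toLinearMap ∘ₗ
      (W.push (fst X A) ∘ₗ LinearMap.mulLeft W.K (W.map (snd X A) pt)) := ⟨_, rfl⟩
  have hu0 : u ∈ S.Op (X.prod A) (X.prod A) := by
    rw [hu]
    exact Sys.Op.comp (Pool.Agent.Y121.AH.op_map S _)
      (Pool.Agent.Y121.AH.op_push S _ (S.map _ hpt))
  have hx : ∀ x : W.H X, u (W.map (fst X A) x) = W.map (fst X A) x := by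
    intro x
    rw [hu]
    change W.map (fst X A) (W.push (fst X A) (W.map (snd X A) pt * W.map (fst X A) x)) = _
    rw [PH.even_comm (PH.map _ (S.even hpt))]
    have h1 : W.push (fst X A) (W.map (fst X A) x * W.map (snd X A) pt) = W.tr A pt • x :=
      push_fst _ _ (S.even hpt)
    rw [h1, hpt1, one_smul]
  have hy : ∀ i : n, u (W.map (snd X A) (eA (Sum.inr i))) = 0 := by
    intro i
    rw [hu]
    change W.map (fst X A) (W.push (fst X A) (W.map (snd X A) pt *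
      W.map (snd X A) (eA (Sum.inr i)))) = _
    rw [← map_mul, (hv i).2, map_zero, map_zero, map_zero]
  have key : ∀ i : s ⊕ (m ⊕ n), u (eP eX eA (jj o o' i)) =
      if par2 i = 0 then eP eX eA (jj o o' i) else 0 := by
    rintro (i | i | i)
    · rw [b_s hoA, hx, if_pos (show par2 (Sum.inl i : s ⊕ (m ⊕ n)) = 0 from rfl)]
    · rw [b_t hoA, hx, if_pos (show par2 (Sum.inr (Sum.inl i) : s ⊕ (m ⊕ n)) = 0 from rfl)]
    · rw [b_v hoX, hy, if_neg (show ¬ (par2 (Sum.inr (Sum.inr i) : s ⊕ (m ⊕ n)) = 0) from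
        one_ne_zero)]
  rcases Fin.exists_fin_two.1 ⟨b, rfl⟩ with hb | hb
  · subst hb
    exact ⟨u, hu0, key⟩
  · subst hb
    refine ⟨LinearMap.id - u, Submodule.sub_mem _ Sys.Op.id hu0, fun i => ?_⟩
    rw [LinearMap.sub_apply, LinearMap.id_apply, key]
    rcases Fin.exists_fin_two.1 ⟨par2 i, rfl⟩ with h | h
    · rw [h, if_pos rfl, sub_self, if_neg zero_ne_one]
    · rw [h, if_neg one_ne_zero, sub_zero, if_pos rfl]

end Basis

end Run7.h38.KG
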