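import Pool.Agent.Run7.h38.KG.PFrame

/-!
# The class of the form on the square of a product
-/

set_option linter.unusedSectionVars false

open CategoryTheory AlgebraicGeometry TensorProduct

universe u

namespace Run7.h38.KG

open Module Pool.Agent.N996.BP Pool.Agent.N996.BP.Geo
open Pool.Agent.H914 Pool.Agent.H914.VarClass Pool.Agent.H914.VarClass.Obj
  Pool.Agent.H914.WeilCohomology
open Pool.Agent.Y133.Half
open Run7.h38.KS (blk)

variable {k : Type u} [Field k] {𝒱 : VarClass k} {ops : CycleOps 𝒱}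

set_option maxHeartbeats 400000

section Q

variable {W : WeilCohomology.{u, 0} ops} {X A Y : 𝒱.Obj}

lemma xp_ev {x : W.H X} {y : W.H A} (hx : x ∈ PH W X 0) (hy : y ∈ PH W A 0) :
    xp W x y ∈ PH W (X.prod A) 0 := by
  have h := xp_mem hx hy
  rwa [add_zero] at h

/-- The class of the form. -/
noncomputable def qq (qX : W.H (X.prod X)) (qA : W.H (A.prod A)) (pX : W.H X) (pA : W.H A) :
    W.H ((X.prod A).prod (X.prod A)) :=
  W.map (q1 X A) qX * W.map (q2 X A) (xp W pA pA) +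
    W.map (q1 X A) (xp W pX pX) * W.map (q2 X A) qA

variable {qX : W.H (X.prod X)} {qA : W.H (A.prod A)} {pX : W.H X} {pA : W.H A}
  (hqX : qX ∈ PH W (X.prod X) 0) (hqA : qA ∈ PH W (A.prod A) 0) (hpX : pX ∈ PH W X 0)
  (hpA : pA ∈ PH W A 0) (hX1 : W.tr X pX = 1) (hA1 : W.tr A pA = 1)
  (hA0 : W.tr (A.prod A) qA = 0)

include hqX hpX in
lemma tr_qq (c : W.H (X.prod X)) (d : W.H (A.prod A)) :
    W.tr ((X.prod A).prod (X.prod A)) ((W.map (q1 X A) c * W.map (q2 X A) d) *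
      qq qX qA pX pA) = W.tr (X.prod X) (c * qX) * W.tr (A.prod A) (d * xp W pA pA) +
        W.tr (X.prod X) (c * xp W pX pX) * W.tr (A.prod A) (d * qA) := by
  have h2 : xp W pX pX ∈ PH W (X.prod X) 0 := xp_ev hpX hpX
  rw [qq, mul_add, map_add, tr_q4 c d hqX (xp W pA pA), tr_q4 c d h2 qA]

include hqX hpX hA1 hA0 in
lemma val_xx (x x' : W.H X) : W.tr ((X.prod A).prod (X.prod A))
    (xp W (W.map (fst X A) x) (W.map (fst X A) x') * qq qX qA pX pA) =
      W.tr (X.prod X) (xp W x x' * qX) := by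
  have h1 : xp W (W.map (fst X A) x) (W.map (fst X A) x') =
      W.map (q1 X A) (xp W x x') * W.map (q2 X A) 1 := by rw [xx, map_one, mul_one]
  rw [h1, tr_qq hqX hpX (xp W x x') 1, one_mul, one_mul, hA0, tr_xp, hA1]
  ring

include hqX hqA hpX hpA in
lemma val_xa (x : W.H X) {y : W.H A} (hy : y ∈ PH W A 1) : W.tr ((X.prod A).prod (X.prod A))
    (xp W (W.map (fst X A) x) (W.map (snd X A) y) * qq qX qA pX pA) = 0 := by
  have h2 : xp W (1 : W.H A) y ∈ PH W (A.prod A) 1 := by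
    rw [xp_one_left]; exact PH.map _ hy
  have h3 : xp W pA pA ∈ PH W (A.prod A) 0 := xp_ev hpA hpA
  have h4 : W.tr (A.prod A) (xp W (1 : W.H A) y * xp W pA pA) = 0 :=
    PH.tr_odd (PH.mul h2 h3) rfl
  have h5 : W.tr (A.prod A) (xp W (1 : W.H A) y * qA) = 0 := PH.tr_odd (PH.mul h2 hqA) rfl
  rw [xa, tr_qq hqX hpX (xp W x 1) (xp W 1 y), h4, h5, mul_zero, mul_zero, add_zero]

include hqX hqA hpX hpA in
lemma val_ax {x : W.H X} (hx : x ∈ PH W X 0) {y : W.H A} (hy : y ∈ PH W A 1) :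
    W.tr ((X.prod A).prod (X.prod A))
      (xp W (W.map (snd X A) y) (W.map (fst X A) x) * qq qX qA pX pA) = 0 := by
  have h2 : xp W y (1 : W.H A) ∈ PH W (A.prod A) 1 := by
    rw [xp_one_right]; exact PH.map _ hy
  have h3 : xp W pA pA ∈ PH W (A.prod A) 0 := xp_ev hpA hpA
  have h4 : W.tr (A.prod A) (xp W y (1 : W.H A) * xp W pA pA) = 0 :=
    PH.tr_odd (PH.mul h2 h3) rfl
  have h5 : W.tr (A.prod A) (xp W y (1 : W.H A) * qA) = 0 := PH.tr_odd (PH.mul h2 hqA) rfl
  rw [ax hx, tr_qq hqX hpX (xp W 1 x) (xp W y 1), h4, h5, mul_zero, mul_zero, add_zero]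

include hqX hpX hpA hX1 in
lemma val_aa {y y' : W.H A} (_hy : y ∈ PH W A 1) (hy' : y' ∈ PH W A 1) :
    W.tr ((X.prod A).prod (X.prod A))
      (xp W (W.map (snd X A) y) (W.map (snd X A) y') * qq qX qA pX pA) =
        W.tr (A.prod A) (xp W y y' * qA) := by
  have h1 : xp W (W.map (snd X A) y) (W.map (snd X A) y') =
      W.map (q1 X A) 1 * W.map (q2 X A) (xp W y y') := by rw [aa, map_one, one_mul]
  have h2 : W.tr (A.prod A) (xp W y y' * xp W pA pA) = 0 := by
    have h3 : W.tr A (y' * pA) = 0 := PH.tr_odd (PH.mul hy' hpA) rfl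
    rw [xp_mul _ _ _ _ hy' hpA, map_smul, tr_xp, h3, mul_zero, smul_eq_mul, mul_zero,
      mul_zero]
  rw [h1, tr_qq hqX hpX 1 (xp W y y'), h2, one_mul, one_mul, tr_xp, hX1]
  ring

end Q

section Mat

open Pool.Agent.Y121.AH

variable {T : HodgeTheory ops} {X A : 𝒱.Obj} {s m s' n : Type} [Fintype s] [DecidableEq s]
  [Fintype m] [DecidableEq m] [Fintype s'] [DecidableEq s'] [Fintype n] [DecidableEq n]
  {eX : Basis (s ⊕ m) T.W.K (T.W.H X)} {eA : Basis (s' ⊕ n) T.W.K (T.W.H A)} {o : s} {o' : s'}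

/-- The operators on the basis. -/
lemma isMat_P (hoX : eX (Sum.inl o) = 1) (hoA : eA (Sum.inl o') = 1) {t : ℂ}
    {MT : Matrix m m ℂ} {MV : Matrix n n ℂ}
    (hs : ∀ i, lop T t X (em T.W ℂ (eX (Sum.inl i))) = em T.W ℂ (eX (Sum.inl i)))
    (hT : ∀ j, lop T t X (em T.W ℂ (eX (Sum.inr j))) =
      ∑ i, cc T (MT i j) • em T.W ℂ (eX (Sum.inr i)))
    (hV : ∀ j, lop T t A (em T.W ℂ (eA (Sum.inr j))) =
      ∑ i, cc T (MV i j) • em T.W ℂ (eA (Sum.inr i))) :
    IsMat T t (X.prod A) (fun i => eP eX eA (jj o o' i)) (blk 1 MT MV) := by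
  have hz : ∀ x : (CW T).H (X.prod A), cc T 0 • x = 0 := fun x => zero_smul (CW T).K x
  rintro (w | w | w)
  · simp only
    rw [Fintype.sum_sum_type, Fintype.sum_sum_type]
    have h1 : ∀ v, cc T (blk (1 : Matrix s s ℂ) MT MV (Sum.inl v) (Sum.inl w)) •
        em T.W ℂ (eP eX eA (jj o o' (Sum.inl v))) =
          if v = w then em T.W ℂ (eP eX eA (jj o o' (Sum.inl v))) else 0 := by
      intro v
      by_cases hv : v = w
      · subst hv
        have h2 : blk (1 : Matrix s s ℂ) MT MV (Sum.inl v) (Sum.inl v) = 1 := by simp [blk]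
        rw [if_pos rfl, h2]
        exact one_smul (CW T).K _
      · have h2 : blk (1 : Matrix s s ℂ) MT MV (Sum.inl v) (Sum.inl w) = 0 := by
          simp [blk, Matrix.one_apply, hv]
        rw [if_neg hv, h2, hz]
    rw [Finset.sum_congr rfl fun v _ => h1 v, Finset.sum_ite_eq' Finset.univ w,
      if_pos (Finset.mem_univ w), b_s hoA, ← em_map, lop_map, hs, em_map]
    have h3 : ∀ v, cc T (blk (1 : Matrix s s ℂ) MT MV (Sum.inr (Sum.inl v)) (Sum.inl w)) •
        em T.W ℂ (eP eX eA (jj o o' (Sum.inr (Sum.inl v)))) = 0 := by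
      intro v
      have h2 : blk (1 : Matrix s s ℂ) MT MV (Sum.inr (Sum.inl v)) (Sum.inl w) = 0 := by
        simp [blk]
      rw [h2, hz]
    have h4 : ∀ v, cc T (blk (1 : Matrix s s ℂ) MT MV (Sum.inr (Sum.inr v)) (Sum.inl w)) •
        em T.W ℂ (eP eX eA (jj o o' (Sum.inr (Sum.inr v)))) = 0 := by
      intro v
      have h2 : blk (1 : Matrix s s ℂ) MT MV (Sum.inr (Sum.inr v)) (Sum.inl w) = 0 := by
        simp [blk]
      rw [h2, hz]
    rw [Finset.sum_eq_zero fun v _ => h3 v, Finset.sum_eq_zero fun v _ => h4 v, add_zero,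
      add_zero]
  · simp only
    rw [Fintype.sum_sum_type, Fintype.sum_sum_type]
    have h1 : ∀ v, cc T (blk (1 : Matrix s s ℂ) MT MV (Sum.inl v) (Sum.inr (Sum.inl w))) •
        em T.W ℂ (eP eX eA (jj o o' (Sum.inl v))) = 0 := by
      intro v
      have h2 : blk (1 : Matrix s s ℂ) MT MV (Sum.inl v) (Sum.inr (Sum.inl w)) = 0 := by
        simp [blk]
      rw [h2, hz]
    have h3 : ∀ v, cc T (blk (1 : Matrix s s ℂ) MT MV (Sum.inr (Sum.inl v))
        (Sum.inr (Sum.inl w))) • em T.W ℂ (eP eX eA (jj o o' (Sum.inr (Sum.inl v)))) =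
          cc T (MT v w) • em T.W ℂ (T.W.map (fst X A) (eX (Sum.inr v))) := by
      intro v
      have h2 : blk (1 : Matrix s s ℂ) MT MV (Sum.inr (Sum.inl v)) (Sum.inr (Sum.inl w)) =
        MT v w := by simp [blk]
      rw [h2, b_t hoA]
    have h4 : ∀ v, cc T (blk (1 : Matrix s s ℂ) MT MV (Sum.inr (Sum.inr v))
        (Sum.inr (Sum.inl w))) • em T.W ℂ (eP eX eA (jj o o' (Sum.inr (Sum.inr v)))) = 0 := by
      intro v
      have h2 : blk (1 : Matrix s s ℂ) MT MV (Sum.inr (Sum.inr v)) (Sum.inr (Sum.inl w)) = 0 :=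
        by simp [blk]
      rw [h2, hz]
    rw [Finset.sum_eq_zero fun v _ => h1 v, Finset.sum_eq_zero fun v _ => h4 v, add_zero,
      zero_add, Finset.sum_congr rfl fun v _ => h3 v, b_t hoA, ← em_map, lop_map, hT, map_sum]
    exact Finset.sum_congr rfl fun v _ => by rw [map_smul, em_map]
  · simp only
    rw [Fintype.sum_sum_type, Fintype.sum_sum_type]
    have h1 : ∀ v, cc T (blk (1 : Matrix s s ℂ) MT MV (Sum.inl v) (Sum.inr (Sum.inr w))) •
        em T.W ℂ (eP eX eA (jj o o' (Sum.inl v))) = 0 := by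
      intro v
      have h2 : blk (1 : Matrix s s ℂ) MT MV (Sum.inl v) (Sum.inr (Sum.inr w)) = 0 := by
        simp [blk]
      rw [h2, hz]
    have h3 : ∀ v, cc T (blk (1 : Matrix s s ℂ) MT MV (Sum.inr (Sum.inr v))
        (Sum.inr (Sum.inr w))) • em T.W ℂ (eP eX eA (jj o o' (Sum.inr (Sum.inr v)))) =
          cc T (MV v w) • em T.W ℂ (T.W.map (snd X A) (eA (Sum.inr v))) := by
      intro v
      have h2 : blk (1 : Matrix s s ℂ) MT MV (Sum.inr (Sum.inr v)) (Sum.inr (Sum.inr w)) =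
        MV v w := by simp [blk]
      rw [h2, b_v hoX]
    have h4 : ∀ v, cc T (blk (1 : Matrix s s ℂ) MT MV (Sum.inr (Sum.inl v))
        (Sum.inr (Sum.inr w))) • em T.W ℂ (eP eX eA (jj o o' (Sum.inr (Sum.inl v)))) = 0 := by
      intro v
      have h2 : blk (1 : Matrix s s ℂ) MT MV (Sum.inr (Sum.inl v)) (Sum.inr (Sum.inr w)) = 0 :=
        by simp [blk]
      rw [h2, hz]
    rw [Finset.sum_eq_zero fun v _ => h1 v, Finset.sum_eq_zero fun v _ => h4 v, zero_add,
      zero_add, Finset.sum_congr rfl fun v _ => h3 v, b_v hoX, ← em_map, lop_map, hV, map_sum]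
    exact Finset.sum_congr rfl fun v _ => by rw [map_smul, em_map]

end Mat

end Run7.h38.KG
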