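import Pool.Agent.Run7.h38.KG.ACls

/-!
# Classes of points
-/

set_option linter.unusedSectionVars false

open CategoryTheory AlgebraicGeometry TensorProduct

universe u

namespace Run7.h38.KG

open Module Pool.Agent.N996.BP Pool.Agent.N996.BP.Geo
open Pool.Agent.H914 Pool.Agent.H914.VarClass Pool.Agent.H914.VarClass.Obj
  Pool.Agent.H914.WeilCohomology
open Pool.Agent.Y133.Half Pool.Agent.Y121.AH

variable {k : Type u} [Field k] {𝒱 : VarClass k} {ops : CycleOps 𝒱} {T : HodgeTheory ops}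
  {A : 𝒱.Obj} {S : Sys T.W}

set_option maxHeartbeats 400000

/-- The Hodge classes of degree two come from the square. -/
lemma deg_one_mem (hA : ∀ c, IsHodge T (A.prod A) 1 c → c ∈ S.C (A.prod A)) {c : T.W.H A}
    (hc : IsHodge T A 1 c) : c ∈ S.C A := by
  have h1 : T.W.map (diag A) (T.W.map (fst A A) c) = c := by
    rw [← T.W.map_comp]
    have h2 : diag A ≫ fst A A = 𝟙 A := Obj.lift_fst _ _
    rw [h2, T.W.map_id]
  rw [← h1]
  exact S.map _ (hA _ (hc.map _))

lemma pow_mem {c : T.W.H A} (hc : c ∈ S.C A) (n : ℕ) : c ^ n ∈ S.C A := by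
  induction n with
  | zero => rw [pow_zero]; exact S.one A
  | succ n ih => rw [pow_succ]; exact S.mul ih hc

/-- A class of degree one. -/
lemma exists_pt [Nontrivial (T.W.H A)]
    (hA : ∀ c, IsHodge T (A.prod A) 1 c → c ∈ S.C (A.prod A)) :
    ∃ l ∈ S.C A, l ∈ T.W.gr A (2 * A.dim) ∧ T.W.tr A l = 1 := by
  obtain ⟨E, hE⟩ := T.dec.polar A
  have hE1 : IsHodge T A 1 (T.W.cl A E) := IsHodge.cl hE.1
  have h1 : (1 : T.W.H A) ∈ T.W.gr A (2 * 0) := T.W.one_mem A
  have h2 : IsHodge T A 0 (1 : T.W.H A) := by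
    rw [← T.W.cl_fund A]; exact IsHodge.cl A.V.fundCycle_mem
  have h3 : T.W.cl A E ^ (A.dim - 2 * 0 + 1) * (1 : T.W.H A) = 0 := by
    have h4 := (hE1.pow (A.dim - 2 * 0 + 1)).1
    rw [T.W.gr_eq_bot A _ (by omega)] at h4
    rw [(Submodule.mem_bot _).1 h4, zero_mul]
  obtain ⟨r, hr, h4⟩ := hE.2.2 0 (by omega) 1 h1 h2.2 h3 one_ne_zero
  rw [pow_zero, one_mul, mul_one, mul_one, mul_zero, Nat.sub_zero] at h4
  have hr0 : (r : T.W.K) ≠ 0 := by exact_mod_cast hr.ne'
  have h5 := (hE1.pow A.dim).1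
  rw [one_mul] at h5
  refine ⟨(r : T.W.K)⁻¹ • T.W.cl A E ^ A.dim, Submodule.smul_mem _ _
    (pow_mem (deg_one_mem hA hE1) _), Submodule.smul_mem _ _ h5, ?_⟩
  rw [map_smul, h4, smul_eq_mul, inv_mul_cancel₀ hr0]

/-- Products of a class of top degree with classes of degree one. -/
lemma pt_mul {l v : T.W.H A} (hl : l ∈ T.W.gr A (2 * A.dim)) (hv : v ∈ T.W.gr A 1) :
    l * v = 0 := by
  have h := T.W.mul_mem hl hv
  rw [T.W.gr_eq_bot A _ (by omega)] at h
  exact (Submodule.mem_bot _).1 h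

/-- The space of the classes of degree one is not zero. -/
lemma nonempty_v {s' n : Type} [Fintype s'] [DecidableEq s'] [Fintype n] [DecidableEq n]
    {e : Basis (s' ⊕ n) T.W.K (T.W.H A)} {o' : s'} {deg : s' ⊕ n → ℕ} (D : AB e o' deg)
    [Nontrivial (T.W.H A)] (hA : 0 < A.dim)
    (hgen : Algebra.adjoin T.W.K (T.W.gr A 1 : Set (T.W.H A)) = ⊤) : Nonempty n := by
  by_contra hn
  rw [not_nonempty_iff] at hn
  have h1 := D.adjoin hgen
  have h2 : (Set.range fun i : n => e (Sum.inr i)) = ∅ := Set.range_eq_empty _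
  rw [h2, Algebra.adjoin_empty] at h1
  have h3 := dim_lt T A
  have h4 : finrank T.W.K (T.W.H A) = 1 := by
    have h5 : finrank T.W.K (⊥ : Subalgebra T.W.K (T.W.H A)) = 1 := Subalgebra.finrank_bot
    have h6 : finrank T.W.K (⊤ : Subalgebra T.W.K (T.W.H A)) = finrank T.W.K (T.W.H A) := by
      rw [← Subalgebra.finrank_toSubmodule, Algebra.top_toSubmodule, finrank_top]
    rw [← h6, ← h1, h5]
  omega

end Run7.h38.KG
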