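import Pool.Agent.Run7.h38.KG.XCls
import Pool.Agent.N996.FP.Sh

/-!
# The words of length at most three
-/

set_option linter.unusedSectionVars false

open CategoryTheory AlgebraicGeometry TensorProduct

universe u

namespace Run7.h38.KG

open Module Pool.Agent.N996.BP Pool.Agent.N996.BP.Geo Pool.Agent.N996.FP.Geo
open Pool.Agent.H914 Pool.Agent.H914.VarClass Pool.Agent.H914.VarClass.Obj
  Pool.Agent.H914.WeilCohomology
open Pool.Agent.Y133.Half
open Run7.h38.KS (blk a1 a2 a3)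

variable {k : Type u} [Field k] {𝒱 : VarClass k} {ops : CycleOps 𝒱}
  {W : WeilCohomology.{u, 0} ops} {X A Y P : 𝒱.Obj}

set_option maxHeartbeats 400000

section Words

variable {κ : Type} [Fintype κ] [DecidableEq κ] (e : Basis κ W.K (W.H P))
  {ι : Type} [Fintype ι] [DecidableEq ι] (j : ι → κ)

lemma wb_xp (x y : κ) : (wb e 1 (![x, y] : Fin (1 + 1) → κ) : W.H (P.prod P)) =
    xp W (e x) (e y) := by
  have h1 := wb_succ e 0 (![x, y] : Fin (0 + 2) → κ)
  have h2 : wb e 0 (fun i : Fin (0 + 1) => (![x, y] : Fin (0 + 2) → κ) i.castSucc) = e x :=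
    wb_zero e _
  rw [h2] at h1
  exact h1

lemma clf_two (Z : Matrix ι ι ℚ) : (clf e j 1 (rei e2 (a2 Z)) : W.H (P.prod P)) =
    ∑ x, ∑ y, ((Z x y : ℚ) : W.K) • xp W (e (j x)) (e (j y)) := by
  rw [clf]
  refine (sum_fin2 _).trans ?_
  refine Finset.sum_congr rfl fun x _ => Finset.sum_congr rfl fun y _ => ?_
  have h1 : j ∘ (![x, y] : Fin (1 + 1) → ι) = ![j x, j y] := by
    funext i; fin_cases i <;> rfl
  rw [h1]
  have h2 := wb_xp e (j x) (j y)
  rw [← h2]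
  rfl

lemma clf_three (Z : ι → Matrix ι ι ℚ) : clf e j 2 (rei e3 (a3 Z)) =
    ∑ x, ∑ z, ∑ y, ((Z x y z : ℚ) : W.K) • (W.map (prj P 2 0) (e (j x)) *
      (W.map (prj P 2 1) (e (j z)) * W.map (prj P 2 2) (e (j y)))) := by
  rw [clf]
  refine (sum_fin3 _).trans ?_
  refine Finset.sum_congr rfl fun x _ => Finset.sum_congr rfl fun z _ =>
    Finset.sum_congr rfl fun y _ => ?_
  rw [wb_two']
  rfl

/-- The index. -/
def e1 : Unit ≃ Fin (0 + 1) where
  toFun := fun _ => 0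
  invFun := fun _ => ()
  left_inv := fun _ => rfl
  right_inv := fun i => (Subsingleton.elim (α := Fin 1) i 0).symm

lemma clf_one (i : ι) : (clf e j 0 (rei e1 (a1 (Pi.single i 1))) : W.H P) = e (j i) := by
  rw [clf]
  refine (sum_fin1 _).trans ?_
  rw [Finset.sum_eq_single i]
  · have h1 : (wb e 0 (j ∘ ![i]) : W.H P) = e (j i) := wb_zero e _
    have h2 : (rei e1 (a1 (Pi.single i 1 : ι → ℚ)) ![i] : ℚ) = 1 := by
      simp [rei, a1, e1]
    rw [h1, h2, Rat.cast_one]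
    exact one_smul _ _
  · intro l _ hl
    have h2 : (rei e1 (a1 (Pi.single i 1 : ι → ℚ)) ![l] : ℚ) = 0 := by
      simp [rei, a1, e1, hl]
    rw [h2, Rat.cast_zero, zero_smul]
  · intro h; exact absurd (Finset.mem_univ _) h

end Words

section Blocks

variable {s m s' n : Type} [Fintype s] [DecidableEq s] [Fintype m] [DecidableEq m] [Fintype s']
  [DecidableEq s'] [Fintype n] [DecidableEq n]
  {eX : Basis (s ⊕ m) W.K (W.H X)} {eA : Basis (s' ⊕ n) W.K (W.H A)} {o : s} {o' : s'}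

lemma sum_blk (U : Matrix s s ℚ) (B : Matrix m m ℚ) (M : Matrix n n ℚ) {V : Type*}
    [AddCommGroup V] [Module W.K V] (f : s ⊕ (m ⊕ n) → s ⊕ (m ⊕ n) → V) :
    ∑ x, ∑ y, ((blk U B M x y : ℚ) : W.K) • f x y =
      ∑ i, ∑ j, ((U i j : ℚ) : W.K) • f (Sum.inl i) (Sum.inl j) +
      ∑ i, ∑ j, ((B i j : ℚ) : W.K) • f (Sum.inr (Sum.inl i)) (Sum.inr (Sum.inl j)) +
      ∑ i, ∑ j, ((M i j : ℚ) : W.K) • f (Sum.inr (Sum.inr i)) (Sum.inr (Sum.inr j)) := by
  simp only [Fintype.sum_sum_type, blk, Matrix.fromBlocks_apply₁₁,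
    Matrix.fromBlocks_apply₁₂, Matrix.fromBlocks_apply₂₁, Matrix.fromBlocks_apply₂₂,
    Matrix.zero_apply, Rat.cast_zero, zero_smul, Finset.sum_const_zero, add_zero, zero_add]
  rw [add_assoc]

/-- The class of a block matrix. -/
lemma clf_blk (hoX : eX (Sum.inl o) = 1) (hoA : eA (Sum.inl o') = 1) (U : Matrix s s ℚ)
    (B : Matrix m m ℚ) (M : Matrix n n ℚ) :
    (clf (eP eX eA) (jj o o') 1 (rei e2 (a2 (blk U B M))) :
      W.H ((X.prod A).prod (X.prod A))) =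
      W.map (q1 X A) (∑ i, ∑ j, ((U i j : ℚ) : W.K) • xp W (eX (Sum.inl i)) (eX (Sum.inl j))) +
      W.map (q1 X A) (∑ i, ∑ j, ((B i j : ℚ) : W.K) • xp W (eX (Sum.inr i)) (eX (Sum.inr j))) +
      W.map (q2 X A)
        (∑ i, ∑ j, ((M i j : ℚ) : W.K) • xp W (eA (Sum.inr i)) (eA (Sum.inr j))) := by
  rw [clf_two, sum_blk]
  simp only [b_s hoA, b_t hoA, b_v hoX, xx, aa, map_sum, map_smul]

/-- The morphism to the triple product. -/
noncomputable def rho3 (X A : 𝒱.Obj) : pw (X.prod A) 2 ⟶ (X.prod A).prod A :=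
  Obj.lift (Obj.lift (prj (X.prod A) 2 0 ≫ fst X A) (prj (X.prod A) 2 1 ≫ snd X A))
    (prj (X.prod A) 2 2 ≫ snd X A)

lemma map_rho3 (x : W.H X) (y z : W.H A) : W.map (rho3 X A) (xp W (xp W x y) z) =
    W.map (prj (X.prod A) 2 0) (W.map (fst X A) x) *
      (W.map (prj (X.prod A) 2 1) (W.map (snd X A) y) *
        W.map (prj (X.prod A) 2 2) (W.map (snd X A) z)) := by
  have h1 : rho3 X A ≫ fst (X.prod A) A =
    Obj.lift (prj (X.prod A) 2 0 ≫ fst X A) (prj (X.prod A) 2 1 ≫ snd X A) := Obj.lift_fst _ _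
  have h2 : rho3 X A ≫ snd (X.prod A) A = prj (X.prod A) 2 2 ≫ snd X A := Obj.lift_snd _ _
  rw [xp, map_mul, ← W.map_comp, ← W.map_comp, h1, h2, xp, map_mul, ← W.map_comp, ← W.map_comp,
    Obj.lift_fst, Obj.lift_snd, W.map_comp, W.map_comp, W.map_comp, mul_assoc]

/-- The class of the multiplication. -/
lemma clf_KT (hoX : eX (Sum.inl o) = 1) (hoA : eA (Sum.inl o') = 1)
    (Km : m → Matrix n n ℚ) :
    clf (eP eX eA) (jj o o') 2 (rei e3 (a3 (Sum.elim (fun _ => 0)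
      (Sum.elim (fun i => blk 0 0 (Km i)) fun _ => 0) :
        s ⊕ (m ⊕ n) → Matrix (s ⊕ (m ⊕ n)) (s ⊕ (m ⊕ n)) ℚ))) =
      W.map (rho3 X A) (∑ i, ∑ l, ∑ p, ((Km i p l : ℚ) : W.K) •
        xp W (xp W (eX (Sum.inr i)) (eA (Sum.inr l))) (eA (Sum.inr p))) := by
  rw [clf_three]
  simp only [Fintype.sum_sum_type, Sum.elim_inl, Sum.elim_inr, blk, Matrix.fromBlocks_apply₁₁,
    Matrix.fromBlocks_apply₁₂, Matrix.fromBlocks_apply₂₁, Matrix.fromBlocks_apply₂₂,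
    Matrix.zero_apply, Rat.cast_zero, zero_smul, Finset.sum_const_zero, add_zero, zero_add,
    b_s hoA, b_t hoA, b_v hoX, map_sum, map_smul, map_rho3]

end Blocks

end Run7.h38.KG
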