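import Pool.Agent.Run7.h38.KG.PQ

/-!
# Classes on the square of a variety of type K3
-/

set_option linter.unusedSectionVars false

open CategoryTheory AlgebraicGeometry TensorProduct

universe u

namespace Run7.h38.KG

open Module Pool.Agent.N996.BP Pool.Agent.N996.BP.Geo
open Pool.Agent.H914 Pool.Agent.H914.VarClass Pool.Agent.H914.VarClass.Obj
  Pool.Agent.H914.WeilCohomology
open Pool.Agent.Y133.Half Pool.Agent.Y121.AH

variable {k : Type u} [Field k] {𝒱 : VarClass k} {ops : CycleOps 𝒱} {T : HodgeTheory ops}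
  {X A : 𝒱.Obj}

set_option maxHeartbeats 400000

section W

variable {W : WeilCohomology.{u, 0} ops} {X : 𝒱.Obj}

lemma tr_xp_ev (x y : W.H X) {a b : W.H X} (hy : y ∈ PH W X 0) (ha : a ∈ PH W X 0) :
    W.tr (X.prod X) (xp W x y * xp W a b) = W.tr X (x * a) * W.tr X (y * b) := by
  rw [xp_mul _ _ _ _ hy ha, mul_zero, pow_zero, one_smul, tr_xp]

lemma tr_xp_diag (x y z : W.H X) (hz : z ∈ PH W X 0) :
    W.tr (X.prod X) (xp W x y * W.push (diag X) z) = W.tr X (x * y * z) := by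
  rw [← PH.even_comm (PH.push (diag X) hz), W.tr_push, xp, map_mul (W.map (diag X)),
    ← W.map_comp, ← W.map_comp]
  have h1 : diag X ≫ fst X X = 𝟙 X := Obj.lift_fst _ _
  have h2 : diag X ≫ snd X X = 𝟙 X := Obj.lift_snd _ _
  rw [h1, h2, W.map_id, W.map_id, PH.even_comm hz]

/-- Two classes on the square are equal if they have the same products with a basis. -/
lemma ext_sq {κ : Type} [Fintype κ] [DecidableEq κ] (e : Basis κ W.K (W.H X))
    {c d : W.H (X.prod X)}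
    (h : ∀ i j, W.tr (X.prod X) (xp W (e i) (e j) * c) =
      W.tr (X.prod X) (xp W (e i) (e j) * d)) : c = d := by
  rw [← sub_eq_zero]
  apply nondeg_right
  intro b
  obtain ⟨f, hf⟩ : ∃ f, f = W.tr (X.prod X) ∘ₗ LinearMap.mulRight W.K (c - d) := ⟨_, rfl⟩
  have h1 : f = 0 := by
    refine Basis.ext ((e.tensorProduct e).map (kappa W X X)) fun i => ?_
    obtain ⟨i, j⟩ := i
    have h2 : (e.tensorProduct e).map (kappa W X X) (i, j) = xp W (e i) (e j) := by
      rw [Basis.map_apply, Basis.tensorProduct_apply]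
      exact kappa_tmul _ _
    rw [h2, hf]
    change W.tr (X.prod X) (xp W (e i) (e j) * (c - d)) = 0
    rw [mul_sub, map_sub, h, sub_self]
  have h2 : f b = 0 := by rw [h1]; rfl
  rw [hf] at h2
  exact h2

end W

namespace Spl

variable {s m : Type} [Fintype s] [DecidableEq s] [Fintype m] [DecidableEq m] (D : Spl T X s m)

/-- The transcendental part of the class of the diagonal. -/
noncomputable def dt : T.W.H (X.prod X) :=
  T.W.push (diag X) 1 - ∑ i, xp T.W (D.α i) (D.β i)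

lemma α_ev (i : s) : D.α i ∈ PH T.W X 0 := ClassPred.sp_even (D.hC i)

lemma β_ev (i : s) : D.β i ∈ PH T.W X 0 := ClassPred.sp_even (D.hβ i)

lemma dt_mem {S : Sys T.W} (hS : (hodgePred T).sp X ≤ S.C X) : D.dt ∈ S.C (X.prod X) :=
  Submodule.sub_mem _ Sys.diag_mem (Submodule.sum_mem _ fun i _ =>
    Sys.xp_mem_C S (hS (D.hC i)) (hS (D.hβ i)))

lemma tr_dt (x : T.W.H X) {y : T.W.H X} (hy : y ∈ PH T.W X 0) :
    T.W.tr (X.prod X) (xp T.W x y * D.dt) = T.W.tr X (x * y) -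
      ∑ i, T.W.tr X (x * D.α i) * T.W.tr X (y * D.β i) := by
  rw [dt, mul_sub, map_sub, tr_xp_diag _ _ _ (S_one X), mul_one, Finset.mul_sum, map_sum]
  congr 1
  exact Finset.sum_congr rfl fun i _ => tr_xp_ev x y hy (D.α_ev i)
where
  S_one (X : 𝒱.Obj) : (1 : T.W.H X) ∈ PH T.W X 0 := PH.of (T.W.one_mem X)

lemma tr_dt_αy (i : s) {y : T.W.H X} (hy : y ∈ (hodgePred T).sp X) :
    T.W.tr (X.prod X) (xp T.W (D.α i) y * D.dt) = 0 := by
  rw [D.tr_dt _ (ClassPred.sp_even hy)]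
  have h1 := D.hodge_sum hy
  have h2 : T.W.tr X (D.α i * y) = ∑ l, T.W.tr X (D.α i * D.α l) * T.W.tr X (y * D.β l) := by
    conv_lhs => rw [h1]
    rw [Finset.mul_sum, map_sum]
    exact Finset.sum_congr rfl fun l _ => by rw [mul_smul_comm, map_smul, smul_eq_mul, mul_comm]
  rw [h2, sub_self]

lemma tr_dt_αt (ht : ∀ j, D.t j ∈ PH T.W X 0) (i : s) (j : m) :
    T.W.tr (X.prod X) (xp T.W (D.α i) (D.t j) * D.dt) = 0 := by
  rw [D.tr_dt _ (ht j), D.tr_t' (D.hC i)]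
  rw [Finset.sum_eq_zero fun l _ => by rw [D.tr_t (D.hβ l), mul_zero], sub_self]

lemma tr_dt_t (j : m) {y : T.W.H X} (hy : y ∈ PH T.W X 0) :
    T.W.tr (X.prod X) (xp T.W (D.t j) y * D.dt) = T.W.tr X (D.t j * y) := by
  rw [D.tr_dt _ hy]
  rw [Finset.sum_eq_zero fun l _ => by
    have h1 : T.W.tr X (D.t j * D.α l) = 0 := D.tr_t (D.hC l) j
    rw [h1, zero_mul], sub_zero]

/-- The class of the form. -/
noncomputable def qX (a : T.W.K) : T.W.H (X.prod X) := ∑ l, xp T.W (D.β l) (D.β l) + a • D.dt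

lemma qX_mem {S : Sys T.W} (hS : (hodgePred T).sp X ≤ S.C X) (a : T.W.K) :
    D.qX a ∈ S.C (X.prod X) :=
  Submodule.add_mem _ (Submodule.sum_mem _ fun i _ =>
    Sys.xp_mem_C S (hS (D.hβ i)) (hS (D.hβ i))) (Submodule.smul_mem _ _ (D.dt_mem hS))

variable {a : T.W.K} {B : Matrix m m ℚ} (hB : ∀ i j, ((B i j : ℚ) : T.W.K) =
    a * T.W.tr X (D.t i * D.t j)) (ht : ∀ j, D.t j ∈ PH T.W X 0)

include hB ht in
lemma tr_qX (i j : s ⊕ m) : T.W.tr (X.prod X) (xp T.W (D.e i) (D.e j) * D.qX a) =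
    (((Matrix.fromBlocks 1 0 0 B : Matrix (s ⊕ m) (s ⊕ m) ℚ) i j : ℚ) : T.W.K) := by
  rw [qX, mul_add, map_add, mul_smul_comm, map_smul, Finset.mul_sum, map_sum]
  rcases i with i | i <;> rcases j with j | j
  · have h1 : T.W.tr (X.prod X) (xp T.W (D.e (Sum.inl i)) (D.e (Sum.inl j)) * D.dt) = 0 :=
      D.tr_dt_αy i (D.hC j)
    have h2 : ∀ l, T.W.tr (X.prod X) (xp T.W (D.e (Sum.inl i)) (D.e (Sum.inl j)) *
        xp T.W (D.β l) (D.β l)) = if l = i then (if i = j then 1 else 0) else 0 := by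
      intro l
      rw [tr_xp_ev _ _ (D.α_ev j) (D.β_ev l), D.dual, D.dual]
      by_cases hl : l = i
      · subst hl; simp
      · simp [hl]
    rw [h1, smul_zero, add_zero, Finset.sum_congr rfl fun l _ => h2 l, Finset.sum_ite_eq',
      if_pos (Finset.mem_univ _), Matrix.fromBlocks_apply₁₁, Matrix.one_apply]
    split_ifs <;> simp
  · have h1 : T.W.tr (X.prod X) (xp T.W (D.e (Sum.inl i)) (D.e (Sum.inr j)) * D.dt) = 0 :=
      D.tr_dt_αt ht i j
    have h2 : ∀ l, T.W.tr (X.prod X) (xp T.W (D.e (Sum.inl i)) (D.e (Sum.inr j)) *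
        xp T.W (D.β l) (D.β l)) = 0 := by
      intro l
      rw [tr_xp_ev _ _ (ht j) (D.β_ev l), D.orth _ (D.hβ l), mul_zero]
    rw [h1, smul_zero, add_zero, Finset.sum_eq_zero fun l _ => h2 l,
      Matrix.fromBlocks_apply₁₂]
    simp
  · have h1 : T.W.tr (X.prod X) (xp T.W (D.e (Sum.inr i)) (D.e (Sum.inl j)) * D.dt) = 0 := by
      have h3 := D.tr_dt_t i (D.α_ev j)
      have h4 : T.W.tr X (D.t i * D.α j) = 0 := D.tr_t (D.hC j) i
      rw [h4] at h3
      exact h3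
    have h2 : ∀ l, T.W.tr (X.prod X) (xp T.W (D.e (Sum.inr i)) (D.e (Sum.inl j)) *
        xp T.W (D.β l) (D.β l)) = 0 := by
      intro l
      rw [tr_xp_ev _ _ (D.α_ev j) (D.β_ev l), D.orth _ (D.hβ l), zero_mul]
    rw [h1, smul_zero, add_zero, Finset.sum_eq_zero fun l _ => h2 l,
      Matrix.fromBlocks_apply₂₁]
    simp
  · have h1 : T.W.tr (X.prod X) (xp T.W (D.e (Sum.inr i)) (D.e (Sum.inr j)) * D.dt) =
        T.W.tr X (D.t i * D.t j) := D.tr_dt_t i (ht j)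
    have h2 : ∀ l, T.W.tr (X.prod X) (xp T.W (D.e (Sum.inr i)) (D.e (Sum.inr j)) *
        xp T.W (D.β l) (D.β l)) = 0 := by
      intro l
      rw [tr_xp_ev _ _ (ht j) (D.β_ev l), D.orth _ (D.hβ l), zero_mul]
    rw [h1, Finset.sum_eq_zero fun l _ => h2 l, zero_add, Matrix.fromBlocks_apply₂₂, hB,
      smul_eq_mul]

/-- The class of the inverse form. -/
noncomputable def τc (Bi : Matrix m m ℚ) : T.W.H (X.prod X) :=
  ∑ i, ∑ j, ((Bi i j : ℚ) : T.W.K) • xp T.W (D.t i) (D.t j)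

include hB ht in
lemma τc_eq (ha : a ≠ 0) (hBt : B.transpose = B) {Bi : Matrix m m ℚ} (hBi : B * Bi = 1) :
    D.τc Bi = a⁻¹ • D.dt := by
  have htr : ∀ i j, T.W.tr X (D.t i * D.t j) = a⁻¹ * ((B i j : ℚ) : T.W.K) := by
    intro i j
    rw [hB, ← mul_assoc, inv_mul_cancel₀ ha, one_mul]
  have hexp : ∀ x y : T.W.H X, y ∈ PH T.W X 0 →
      T.W.tr (X.prod X) (xp T.W x y * D.τc Bi) =
        ∑ i, ∑ j, ((Bi i j : ℚ) : T.W.K) * (T.W.tr X (x * D.t i) * T.W.tr X (y * D.t j)) := by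
    intro x y hy
    rw [τc, Finset.mul_sum, map_sum]
    refine Finset.sum_congr rfl fun i _ => ?_
    rw [Finset.mul_sum, map_sum]
    refine Finset.sum_congr rfl fun j _ => ?_
    rw [mul_smul_comm, map_smul, tr_xp_ev _ _ hy (ht i), smul_eq_mul]
  apply ext_sq D.e
  intro i j
  rw [mul_smul_comm, map_smul]
  rcases i with i | i <;> rcases j with j | j
  · have h1 : T.W.tr (X.prod X) (xp T.W (D.e (Sum.inl i)) (D.e (Sum.inl j)) * D.dt) = 0 :=
      D.tr_dt_αy i (D.hC j)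
    rw [h1, smul_zero, hexp _ _ (D.α_ev j)]
    refine Finset.sum_eq_zero fun p _ => Finset.sum_eq_zero fun q _ => ?_
    rw [D.tr_t' (D.hC i), zero_mul, mul_zero]
  · have h1 : T.W.tr (X.prod X) (xp T.W (D.e (Sum.inl i)) (D.e (Sum.inr j)) * D.dt) = 0 :=
      D.tr_dt_αt ht i j
    rw [h1, smul_zero, hexp _ _ (ht j)]
    refine Finset.sum_eq_zero fun p _ => Finset.sum_eq_zero fun q _ => ?_
    rw [D.tr_t' (D.hC i), zero_mul, mul_zero]
  · have h1 : T.W.tr (X.prod X) (xp T.W (D.e (Sum.inr i)) (D.e (Sum.inl j)) * D.dt) = 0 := by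
      have h3 := D.tr_dt_t i (D.α_ev j)
      have h4 : T.W.tr X (D.t i * D.α j) = 0 := D.tr_t (D.hC j) i
      rw [h4] at h3
      exact h3
    rw [h1, smul_zero, hexp _ _ (D.α_ev j)]
    refine Finset.sum_eq_zero fun p _ => Finset.sum_eq_zero fun q _ => ?_
    rw [D.tr_t' (D.hC j), mul_zero, mul_zero]
  · have h1 : T.W.tr (X.prod X) (xp T.W (D.e (Sum.inr i)) (D.e (Sum.inr j)) * D.dt) =
        T.W.tr X (D.t i * D.t j) := D.tr_dt_t i (ht j)
    rw [h1, hexp _ _ (ht j), htr]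
    have h2 : ∀ p q, ((Bi p q : ℚ) : T.W.K) * (T.W.tr X (D.e (Sum.inr i) * D.t p) *
        T.W.tr X (D.e (Sum.inr j) * D.t q)) =
          a⁻¹ * a⁻¹ * ((B i p * Bi p q * B j q : ℚ) : T.W.K) := by
      intro p q
      have h3 := htr i p
      have h4 := htr j q
      rw [t] at h3 h4
      rw [h3, h4]
      push_cast
      ring
    rw [Finset.sum_congr rfl fun p _ => Finset.sum_congr rfl fun q _ => h2 p q]
    have h5 : ∑ p, ∑ q, a⁻¹ * a⁻¹ * ((B i p * Bi p q * B j q : ℚ) : T.W.K) =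
        a⁻¹ * a⁻¹ * (((∑ q, (∑ p, B i p * Bi p q) * B j q : ℚ)) : T.W.K) := by
      rw [Finset.sum_comm, Rat.cast_sum, Finset.mul_sum]
      refine Finset.sum_congr rfl fun q _ => ?_
      rw [Finset.sum_mul, Rat.cast_sum, Finset.mul_sum]
    have h6 : ∑ q, (∑ p, B i p * Bi p q) * B j q = B i j := by
      have h7 : ∀ q, ∑ p, B i p * Bi p q = (1 : Matrix m m ℚ) i q := by
        intro q
        rw [← hBi, Matrix.mul_apply]
      rw [Finset.sum_congr rfl fun q _ => by rw [h7 q]]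
      rw [Finset.sum_eq_single i]
      · rw [Matrix.one_apply_eq, one_mul]
        conv_rhs => rw [← hBt]
        rfl
      · intro q _ hq; rw [Matrix.one_apply_ne (Ne.symm hq), zero_mul]
      · intro h; exact absurd (Finset.mem_univ _) h
    rw [h5, h6, smul_eq_mul]
    ring

include hB ht in
lemma τc_mem (ha : a ≠ 0) (hBt : B.transpose = B) {Bi : Matrix m m ℚ} (hBi : B * Bi = 1)
    {S : Sys T.W} (hS : (hodgePred T).sp X ≤ S.C X) : D.τc Bi ∈ S.C (X.prod X) := by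
  rw [D.τc_eq hB ht ha hBt hBi]
  exact Submodule.smul_mem _ _ (D.dt_mem hS)

end Spl

end Run7.h38.KG
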