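import Pool.Agent.Run7.h38.KG.Pts

/-!
# Varieties of type K3
-/

set_option linter.unusedSectionVars false

open CategoryTheory AlgebraicGeometry TensorProduct

universe u

namespace Run7.h38.KG

open Module Pool.Agent.N996.BP Pool.Agent.N996.BP.Geo
open Pool.Agent.H914 Pool.Agent.H914.VarClass Pool.Agent.H914.VarClass.Obj
  Pool.Agent.H914.WeilCohomology
open Pool.Agent.Y133.Half Pool.Agent.Y121.AH

variable {k : Type u} [Field k] {𝒱 : VarClass k} {ops : CycleOps 𝒱} {T : HodgeTheory ops}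
  {X : 𝒱.Obj}

set_option maxHeartbeats 400000

/-- The properties of a variety of type K3. -/
structure K3A (T : HodgeTheory ops) (X : 𝒱.Obj) (φ : LinearMap.BilinForm T.W.K (T.W.H X))
    (r : ℕ) (a : T.W.K) : Prop where
  phs : IsPHS (tauT T) (Fx T X) φ X.dim
  deg : ∀ x ∈ tc T X, x ∈ T.W.gr X (2 * r)
  types : ∀ p q : ℤ, Fx T X (p, q) ≠ ⊥ →
    p = q ∨ (p = r + 1 ∧ q = r - 1) ∨ (p = r - 1 ∧ q = r + 1)
  one : finrank ℂ (Fx T X ((r : ℤ) + 1, (r : ℤ) - 1)) = 1
  form : ∀ x ∈ tc T X, ∀ y ∈ tc T X, φ x y = a * T.W.tr X (x * y)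
  ne : a ≠ 0

namespace Spl

variable {s m : Type} [Fintype s] [DecidableEq s] [Fintype m] [DecidableEq m] (D : Spl T X s m)

/-- The coordinates. -/
lemma repr_inl (z : T.W.H X) (i : s) : D.e.repr z (Sum.inl i) = T.W.tr X (z * D.β i) := by
  conv_rhs => rw [← D.e.sum_repr z]
  rw [Fintype.sum_sum_type, add_mul, map_add, Finset.sum_mul, map_sum, Finset.sum_mul, map_sum]
  have h1 : ∀ j, T.W.tr X (D.e.repr z (Sum.inl j) • D.e (Sum.inl j) * D.β i) =
      if i = j then D.e.repr z (Sum.inl j) else 0 := by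
    intro j
    rw [smul_mul_assoc, map_smul, D.dual]
    split_ifs <;> simp
  have h2 : ∀ j, T.W.tr X (D.e.repr z (Sum.inr j) • D.e (Sum.inr j) * D.β i) = 0 := by
    intro j
    rw [smul_mul_assoc, map_smul, D.orth _ (D.hβ i), smul_zero]
  rw [Finset.sum_congr rfl fun j _ => h1 j, Finset.sum_congr rfl fun j _ => h2 j]
  simp

lemma crd_inl (x : ℂ ⊗[T.W.K] T.W.H X) (i : s) :
    crd D.e x (Sum.inl i) = (CW T).tr X ((show (CW T).H X from x) * em T.W ℂ (D.β i)) := by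
  refine tmul_ind (P := fun x => crd D.e x (Sum.inl i) =
    (CW T).tr X ((show (CW T).H X from x) * em T.W ℂ (D.β i))) ?_ ?_ x
  · intro z v
    rw [crd_tmul, D.repr_inl]
    have h1 : (show (CW T).H X from z ⊗ₜ[T.W.K] v) * em T.W ℂ (D.β i) =
        (show (CW T).K from z) • em T.W ℂ (v * D.β i) := by
      have h2 := tmul_eq (W := T.W) (L := ℂ) z v
      have h3 : (show (CW T).H X from z ⊗ₜ[T.W.K] v) =
        (show (CW T).K from z) • em T.W ℂ v := h2
      rw [h3, smul_mul_assoc, em_mul]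
    rw [h1, map_smul, em_tr]
    rfl
  · intro a b ha hb
    have h1 : ((show (CW T).H X from a + b)) = (show (CW T).H X from a) +
      (show (CW T).H X from b) := rfl
    rw [crd_add, Pi.add_apply, ha, hb, h1, add_mul, map_add]
    rfl

/-- The transcendental basis. -/
lemma hodge_inr {v : T.W.H X} (hv : v ∈ (hodgePred T).sp X) (j : m) :
    D.e.repr v (Sum.inr j) = 0 := by
  have h1 : v = ∑ i, T.W.tr X (v * D.β i) • D.e (Sum.inl i) := D.hodge_sum hv
  rw [h1, map_sum, Finsupp.finsetSum_apply]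
  refine Finset.sum_eq_zero fun i _ => ?_
  rw [map_smul, Basis.repr_self, Finsupp.smul_apply,
    Finsupp.single_eq_of_ne (by simp), smul_zero]

/-- The components of classes which are multiplied by a constant. -/
lemma crd_eig {x : (CW T).H X} {c : (CW T).K} (hc : c ≠ 1) (hx : lop T 2 X x = c • x) (i : s) :
    crd D.e x (Sum.inl i) = 0 := by
  rw [D.crd_inl]
  have h1 := tr_lop (T := T) (t := 2) (x * em T.W ℂ (D.β i))
  have h2 : lop T 2 X (em T.W ℂ (D.β i)) = em T.W ℂ (D.β i) :=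
    inv_iff.2 (D.hβ i) 2 two_ne_zero
  rw [lop_mul two_ne_zero, h2, hx, smul_mul_assoc, map_smul, smul_eq_mul] at h1
  have h3 : (c - 1) * (CW T).tr X (x * em T.W ℂ (D.β i)) = 0 := by
    rw [sub_mul, h1, one_mul, sub_self]
  exact (mul_eq_zero.1 h3).resolve_left (sub_ne_zero.2 hc)

end Spl

section K3

variable {s m : Type} [Fintype s] [DecidableEq s] [Fintype m] [DecidableEq m] {D : Spl T X s m}
  {φ : LinearMap.BilinForm T.W.K (T.W.H X)} {r : ℕ} {a : T.W.K}

/-- The data of the Hodge structure. -/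
noncomputable def K3A.k3d (h : K3A T X φ r a) (D : Spl T X s m)
    (hD : ∀ j, D.e (Sum.inr j) ∈ tc T X) : K3D (tauT T) (Fx T X) φ X.dim D.e := by
  have hex : ∃ Ω : ℂ ⊗[T.W.K] T.W.H X, Ω ∈ Fx T X ((r : ℤ) + 1, (r : ℤ) - 1) ∧ Ω ≠ 0 ∧
      ∀ x ∈ Fx T X ((r : ℤ) + 1, (r : ℤ) - 1), ∃ c : ℂ, x = c • Ω := by
    obtain ⟨v, hv, h1⟩ := finrank_eq_one_iff'.1 h.one
    refine ⟨v, v.2, fun h0 => hv (Subtype.ext h0), fun x hx => ?_⟩
    obtain ⟨c, hc⟩ := h1 ⟨x, hx⟩
    exact ⟨c, (congrArg Subtype.val hc).symm⟩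
  exact
  { h := h.phs
    p := (r : ℤ) + 1
    q := (r : ℤ) - 1
    pq := by ring
    Ω := hex.choose
    hΩ := hex.choose_spec.1
    hne := hex.choose_spec.2.1
    h1 := hex.choose_spec.2.2
    h2 := fun p q hpq => h.types p q hpq
    hs := fun i => by
      have h1 : hex.choose ∈ T.pq X ((r : ℤ) + 1) ((r : ℤ) - 1) := hex.choose_spec.1
      have h2 := lop_pq (T := T) (t := 2) h1
      have h3 : (r : ℤ) + 1 - ((r : ℤ) - 1) = 2 := by ring
      rw [h3] at h2
      refine D.crd_eig (c := (cc T 2) ^ (2 : ℤ)) ?_ h2 i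
      intro h4
      have h5 : (2 : ℂ) ^ (2 : ℤ) = 1 := h4
      norm_num at h5
    hC := fun v hv j => D.hodge_inr (inv_iff.1 fun t ht => hv t ht) j
    symm := fun i j => by
      rw [h.form _ (hD i) _ (hD j), h.form _ (hD j) _ (hD i)]
      congr 2
      exact (PH.even_comm (PH.congr (by omega) (PH.of (h.deg _ (hD i)))) _) }

variable (h : K3A T X φ r a) (hD : ∀ j, D.e (Sum.inr j) ∈ tc T X)

include h hD in
lemma K3A.t_ev (j : m) : D.t j ∈ PH T.W X 0 := PH.congr (by omega) (PH.of (h.deg _ (hD j)))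

include h hD in
lemma K3A.e_ev (i : s ⊕ m) : D.e i ∈ PH T.W X 0 := by
  rcases i with i | i
  · exact D.α_ev i
  · exact h.t_ev hD i

lemma K3A.B_eq (i j : m) : (((h.k3d D hD).B i j : ℚ) : T.W.K) =
    a * T.W.tr X (D.t i * D.t j) := by
  rw [(h.k3d D hD).B_spec]
  exact h.form _ (hD i) _ (hD j)

end K3

end Run7.h38.KG
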