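import Pool.Agent.Run7.h38.KS.Raw3

/-!
# Hodge structures of type K3 in coordinates
-/

set_option linter.unusedSectionVars false

namespace Run7.h38.KG

open Module Pool.Agent.N996.BP Run7.h38.KS TensorProduct Matrix ComplexConjugate
open Pool.Agent.H914 (sig sig_tmul sig_smul)

variable {K : Type} [Field K] [CharZero K] [Algebra K ℂ] {V : Type} [AddCommGroup V] [Module K V]
  {s m : Type} [Fintype s] [DecidableEq s] [Fintype m] [DecidableEq m]
  {τ : ℂ ≃ₐ[K] ℂ} {F : ℤ × ℤ → Submodule ℂ (ℂ ⊗[K] V)} {ψ : LinearMap.BilinForm K V} {d : ℕ}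

/-- The data of a Hodge structure of type K3. -/
structure K3D (τ : ℂ ≃ₐ[K] ℂ) (F : ℤ × ℤ → Submodule ℂ (ℂ ⊗[K] V))
    (ψ : LinearMap.BilinForm K V) (d : ℕ) (e : Basis (s ⊕ m) K V) where
  h : IsPHS τ F ψ d
  /-- the type -/
  p : ℤ
  /-- the type -/
  q : ℤ
  pq : p - q = 2
  /-- the period -/
  Ω : ℂ ⊗[K] V
  hΩ : Ω ∈ F (p, q)
  hne : Ω ≠ 0
  h1 : ∀ x ∈ F (p, q), ∃ c : ℂ, x = c • Ω
  h2 : ∀ a b, F (a, b) ≠ ⊥ → a = b ∨ (a = p ∧ b = q) ∨ (a = q ∧ b = p)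
  hs : ∀ i : s, crd e Ω (Sum.inl i) = 0
  hC : ∀ v : V, (∀ t : ℂ, t ≠ 0 → dG h.int (fun k => t ^ k) ((1 : ℂ) ⊗ₜ[K] v) =
    (1 : ℂ) ⊗ₜ[K] v) → ∀ j : m, e.repr v (Sum.inr j) = 0
  symm : ∀ i j : m, ψ (e (Sum.inr i)) (e (Sum.inr j)) = ψ (e (Sum.inr j)) (e (Sum.inr i))

namespace K3D

variable {e : Basis (s ⊕ m) K V} (D : K3D τ F ψ d e)

/-- The rational matrix of the form. -/
noncomputable def B : Matrix m m ℚ :=
  Matrix.of fun i j => (D.h.rat (ψ (e (Sum.inr i)) (e (Sum.inr j)))).choose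

lemma B_spec (i j : m) : ((D.B i j : ℚ) : K) = ψ (e (Sum.inr i)) (e (Sum.inr j)) :=
  (D.h.rat (ψ (e (Sum.inr i)) (e (Sum.inr j)))).choose_spec

lemma B_symm : D.Bᵀ = D.B := by
  ext i j
  have h1 := D.B_spec i j
  have h2 := D.B_spec j i
  rw [D.symm, ← h2] at h1
  rw [Matrix.transpose_apply]
  exact_mod_cast h1.symm

/-- The coordinates of the period. -/
noncomputable def ω : m → ℂ := fun j => crd e D.Ω (Sum.inr j)

/-- The combination of the basis vectors of the second kind. -/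
noncomputable def xt (e : Basis (s ⊕ m) K V) (z : m → ℂ) : ℂ ⊗[K] V :=
  ∑ j, z j • ((1 : ℂ) ⊗ₜ[K] e (Sum.inr j))

lemma crd_smul (e : Basis (s ⊕ m) K V) (c : ℂ) (x : ℂ ⊗[K] V) : crd e (c • x) = c • crd e x := by
  ext i; simp [crd]

lemma crd_fsum (e : Basis (s ⊕ m) K V) {α : Type*} (u : Finset α) (f : α → ℂ ⊗[K] V) :
    crd e (∑ i ∈ u, f i) = ∑ i ∈ u, crd e (f i) := by
  classical
  induction u using Finset.induction_on with
  | empty => rw [Finset.sum_empty, Finset.sum_empty, crd_zero]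
  | insert a u ha ih => rw [Finset.sum_insert ha, Finset.sum_insert ha, crd_add, ih]

lemma crd_one_tmul (e : Basis (s ⊕ m) K V) (j : s ⊕ m) :
    crd e ((1 : ℂ) ⊗ₜ[K] e j) = Pi.single j 1 := by
  ext l
  rw [crd_tmul, one_mul, Basis.repr_self, Finsupp.single_apply, Pi.single_apply]
  by_cases hl : j = l
  · rw [if_pos hl, if_pos hl.symm, map_one]
  · rw [if_neg hl, if_neg (Ne.symm hl), map_zero]

lemma crd_xt (e : Basis (s ⊕ m) K V) (z : m → ℂ) :
    crd e (xt e z) = Sum.elim (0 : s → ℂ) z := by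
  rw [xt, crd_fsum]
  funext l
  rw [Finset.sum_apply]
  rcases l with l | l
  · rw [Sum.elim_inl, Pi.zero_apply]
    refine Finset.sum_eq_zero fun j _ => ?_
    rw [crd_smul, crd_one_tmul]
    simp
  · rw [Sum.elim_inr, Finset.sum_eq_single l]
    · rw [crd_smul, crd_one_tmul]
      simp
    · intro j _ hj
      rw [crd_smul, crd_one_tmul]
      simp [Ne.symm hj]
    · intro h; exact absurd (Finset.mem_univ _) h

lemma xt_inj {z z' : m → ℂ} (h : xt e z = xt e z') : z = z' := by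
  have h1 := congrArg (crd e) h
  rw [crd_xt, crd_xt] at h1
  funext j
  exact congrFun h1 (Sum.inr j)

lemma xt_add (z z' : m → ℂ) : xt e (z + z') = xt e z + xt e z' := by
  rw [xt, xt, xt, ← Finset.sum_add_distrib]
  exact Finset.sum_congr rfl fun j _ => by rw [Pi.add_apply, add_smul]

lemma xt_smul (c : ℂ) (z : m → ℂ) : xt e (c • z) = c • xt e z := by
  rw [xt, xt, Finset.smul_sum]
  exact Finset.sum_congr rfl fun j _ => by rw [Pi.smul_apply, smul_eq_mul, mul_smul]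

lemma xt_zero : xt e (0 : m → ℂ) = 0 := by
  rw [xt]
  exact Finset.sum_eq_zero fun j _ => by rw [Pi.zero_apply, zero_smul]

lemma xt_ω : xt e D.ω = D.Ω := by
  apply crd_inj e
  rw [crd_xt]
  funext l
  rcases l with l | l
  · rw [Sum.elim_inl, Pi.zero_apply, D.hs]
  · rfl

lemma sig_xt (hτ : ∀ z, τ z = conj z) (z : m → ℂ) : sig τ (xt e z) = xt e (sv cj z) := by
  apply crd_inj e
  rw [crd_sig e hτ, crd_xt, crd_xt]
  funext l
  rcases l with l | l
  · simp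
  · rfl

lemma form_xt (z z' : m → ℂ) : ψ.baseChange ℂ (xt e z) (xt e z') = bfm D.B z z' := by
  rw [form_crd e, crd_xt, crd_xt, bfm_apply]
  have h1 : ∀ i j : m, fM e ψ (Sum.inr i) (Sum.inr j) = cq D.B i j := by
    intro i j
    rw [fM, Matrix.of_apply, ← D.B_spec, cq, Matrix.map_apply, map_ratCast]
  simp only [dotProduct, Matrix.mulVec, Fintype.sum_sum_type, Sum.elim_inl, Sum.elim_inr,
    Pi.zero_apply, zero_mul, mul_zero, Finset.sum_const_zero, zero_add, h1]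

/-- The conjugate of the period. -/
noncomputable def Ω' : ℂ ⊗[K] V := sig τ D.Ω

lemma xt_ω' : xt e (sv cj D.ω) = D.Ω' := by
  rw [Ω', ← D.xt_ω, sig_xt D.h.tau]

lemma Ω'_mem : D.Ω' ∈ F (D.q, D.p) := D.h.cnj _ _ _ D.hΩ

lemma sig_sig (x : ℂ ⊗[K] V) (hτ : ∀ z, τ z = conj z) : sig τ (sig τ x) = x := by
  refine tmul_ind (P := fun x => sig τ (sig τ x) = x) ?_ ?_ x
  · intro z v
    rw [sig_tmul, sig_tmul, hτ, hτ, Complex.conj_conj]
  · intro a b ha hb; rw [map_add, map_add, ha, hb]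

/-- The value of the form. -/
noncomputable def bt : ℂ := ψ.baseChange ℂ D.Ω D.Ω'

lemma bt_eq : D.bt = bfm D.B D.ω (sv cj D.ω) := by
  rw [bt, ← D.form_xt, D.xt_ω, D.xt_ω']

lemma bt_ne : D.bt ≠ 0 := by
  obtain ⟨r, hr, h1⟩ := D.h.pos _ _ _ D.hΩ D.hne
  intro h0
  have h2 : ψ.baseChange ℂ D.Ω (sig τ D.Ω) = 0 := h0
  rw [h2, mul_zero] at h1
  have h3 : r = 0 := by exact_mod_cast h1.symm
  exact hr.ne' h3

lemma bfm_symm (x y : m → ℂ) : bfm D.B x y = bfm D.B y x := by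
  rw [bfm_apply, bfm_apply, dotProduct_comm, ← Matrix.dotProduct_transpose_mulVec]
  have h1 : (cq D.B)ᵀ = cq D.B := by
    conv_rhs => rw [← D.B_symm]
    rfl
  rw [h1, dotProduct_comm]

lemma bt_eq' : ψ.baseChange ℂ D.Ω' D.Ω = D.bt := by
  rw [D.bt_eq, D.bfm_symm, ← D.form_xt, D.xt_ω, D.xt_ω']

/-- The operators. -/
theorem dG_eq {t : ℂ} (ht : t ≠ 0) (x : ℂ ⊗[K] V) : dG D.h.int (fun k => t ^ k) x =
    x + ((t ^ 2 - 1) * (D.bt⁻¹ * ψ.baseChange ℂ D.Ω' x)) • D.Ω +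
      (((t ^ 2)⁻¹ - 1) * (D.bt⁻¹ * ψ.baseChange ℂ D.Ω x)) • D.Ω' := by
  have hpq := D.pq
  have hb := D.bt_ne
  refine F_ind D.h.int (P := fun x => dG D.h.int (fun k => t ^ k) x =
    x + ((t ^ 2 - 1) * (D.bt⁻¹ * ψ.baseChange ℂ D.Ω' x)) • D.Ω +
      (((t ^ 2)⁻¹ - 1) * (D.bt⁻¹ * ψ.baseChange ℂ D.Ω x)) • D.Ω') ?_ ?_ ?_ x
  · intro a b x hx
    by_cases h0 : F (a, b) = ⊥
    · rw [h0, Submodule.mem_bot] at hx
      rw [hx]
      simp
    · rcases D.h2 a b h0 with h3 | ⟨rfl, rfl⟩ | ⟨rfl, rfl⟩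
      · subst h3
        rw [D.h.orth _ _ _ _ _ D.Ω'_mem _ hx (by omega),
          D.h.orth _ _ _ _ _ D.hΩ _ hx (by omega), dG_apply D.h.int _ hx, sub_self, zpow_zero]
        simp
      · obtain ⟨c, rfl⟩ := D.h1 x hx
        rw [dG_apply D.h.int _ hx, map_smul, map_smul, D.bt_eq',
          D.h.orth _ _ _ _ _ D.hΩ _ D.hΩ (by omega), hpq]
        have h4 : t ^ (2 : ℤ) = t ^ 2 := by norm_cast
        rw [h4, smul_smul, smul_eq_mul, smul_eq_mul, mul_zero, mul_zero, mul_zero, zero_smul,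
          add_zero, ← add_smul]
        congr 1
        field_simp
        ring
      · obtain ⟨c, hc⟩ := D.h1 (sig τ x) (D.h.cnj _ _ _ hx)
        have h5 : x = (conj c) • D.Ω' := by
          have h6 := congrArg (sig τ) hc
          rw [sig_sig x D.h.tau, sig_smul, D.h.tau] at h6
          exact h6
        have h7 : D.q - D.p = -2 := by omega
        have h4 : t ^ (-2 : ℤ) = (t ^ 2)⁻¹ := by
          rw [_root_.zpow_neg]; norm_cast
        rw [dG_apply D.h.int _ hx, h5, map_smul, map_smul,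
          D.h.orth _ _ _ _ _ D.Ω'_mem _ D.Ω'_mem (by omega), h7, h4, smul_smul, smul_eq_mul,
          smul_eq_mul, mul_zero, mul_zero, mul_zero, zero_smul, add_zero, ← add_smul]
        congr 1
        change _ = conj c + ((t ^ 2)⁻¹ - 1) * (D.bt⁻¹ * (conj c * D.bt))
        field_simp
        ring
  · intro a b ha hb
    rw [map_add, ha, hb, map_add, map_add]
    module
  · simp

lemma ωω : bfm D.B D.ω D.ω = 0 := by
  have hpq := D.pq
  rw [← D.form_xt, D.xt_ω]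
  exact D.h.orth _ _ _ _ _ D.hΩ _ D.hΩ (by omega)

lemma fix_xt {x : m → ℂ} (h1 : bfm D.B D.ω x = 0) (h2 : bfm D.B (sv cj D.ω) x = 0) {t : ℂ}
    (ht : t ≠ 0) : dG D.h.int (fun k => t ^ k) (xt e x) = xt e x := by
  rw [D.dG_eq ht]
  have h3 : ψ.baseChange ℂ D.Ω (xt e x) = 0 := by rw [← D.xt_ω, D.form_xt, h1]
  have h4 : ψ.baseChange ℂ D.Ω' (xt e x) = 0 := by rw [← D.xt_ω', D.form_xt, h2]
  rw [h3, h4]
  simp

lemma an (x : m → ℂ) (h1 : bfm D.B D.ω x = 0) (h2 : bfm D.B (sv cj D.ω) x = 0)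
    (h3 : bfm D.B x (sv cj x) = 0) : x = 0 := by
  obtain ⟨ρ, h4, -, h5⟩ := D.h.exists_pos (xt e x)
  rw [D.fix_xt h1 h2 Complex.I_ne_zero, sig_xt D.h.tau, D.form_xt, h3] at h4
  by_contra hne
  have h6 : xt e x ≠ 0 := by
    intro h0
    apply hne
    apply xt_inj (e := e)
    rw [h0, xt_zero]
  have h7 := h5 h6
  have h8 : ρ = 0 := by exact_mod_cast h4.symm
  exact h7.ne' h8

lemma tr0 (t : m → ℚ) (h1 : bfm D.B D.ω (fun i => (t i : ℂ)) = 0) : t = 0 := by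
  have h2 : bfm D.B (sv cj D.ω) (fun i => (t i : ℂ)) = 0 := by
    have h3 : (fun i => (t i : ℂ)) = sv cj (fun i => (t i : ℂ)) := by
      ext i; simp [sv, cj_apply]
    rw [h3, bfm_sv, h1, map_zero]
  obtain ⟨v, hv⟩ : ∃ v : V, v = ∑ j, ((t j : ℚ) : K) • e (Sum.inr j) := ⟨_, rfl⟩
  have h3 : xt e (fun i => (t i : ℂ)) = (1 : ℂ) ⊗ₜ[K] v := by
    rw [hv, TensorProduct.tmul_sum, xt]
    refine Finset.sum_congr rfl fun j _ => ?_
    rw [TensorProduct.tmul_smul, ← algebraMap_smul ℂ ((t j : ℚ) : K), map_ratCast]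
  have h4 := D.hC v fun u hu => by
    rw [← h3]
    exact D.fix_xt h1 h2 hu
  funext j
  have h5 := h4 j
  have h6 : e.repr v (Sum.inr j) = ((t j : ℚ) : K) := by
    rw [hv, map_sum, Finsupp.finsetSum_apply, Finset.sum_eq_single j]
    · rw [map_smul, Basis.repr_self, Finsupp.smul_apply, Finsupp.single_eq_same, smul_eq_mul,
        mul_one]
    · intro i _ hi
      rw [map_smul, Basis.repr_self, Finsupp.smul_apply,
        Finsupp.single_eq_of_ne (fun h => hi (Sum.inr_injective h).symm), smul_zero]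
    · intro h; exact absurd (Finset.mem_univ _) h
  rw [h6] at h5
  exact_mod_cast h5

variable {n : Type} [Fintype n] [DecidableEq n]

/-- The quadratic space with its multiplication. -/
noncomputable def kd (Km : m → Matrix n n ℚ) (c : ℚ) (hc : c ≠ 0)
    (hK : ∀ i j, Km i * Km j + Km j * Km i = (2 * c * D.B i j) • (1 : Matrix n n ℚ)) :
    KD m n where
  B := D.B
  K := Km
  c := c
  ω := D.ω
  hB := D.B_symm
  hc := hc
  hK := hK
  ωω := D.ωω
  ne := by rw [← D.bt_eq]; exact D.bt_ne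
  an := D.an
  tr := D.tr0

variable {Km : m → Matrix n n ℚ} {c : ℚ} {hc : c ≠ 0}
  {hK : ∀ i j, Km i * Km j + Km j * Km i = (2 * c * D.B i j) • (1 : Matrix n n ℚ)}

lemma kd_β : (D.kd Km c hc hK).β = D.bt := D.bt_eq.symm

/-- The operators in coordinates. -/
lemma dG_xt {t : ℂ} (ht : t ≠ 0) (z : m → ℂ) : dG D.h.int (fun k => t ^ k) (xt e z) =
    xt e (LT2 (D.kd Km c hc hK) t *ᵥ z) := by
  have h3 : ψ.baseChange ℂ D.Ω (xt e z) = bfm D.B D.ω z := by rw [← D.xt_ω, D.form_xt]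
  have h4 : ψ.baseChange ℂ D.Ω' (xt e z) = bfm D.B (sv cj D.ω) z := by
    rw [← D.xt_ω', D.form_xt]
  have h5 : (D.kd Km c hc hK).ω = D.ω := rfl
  have h6 : (D.kd Km c hc hK).b = bfm D.B := rfl
  rw [D.dG_eq ht, h3, h4, LT2, Matrix.add_mulVec, Matrix.add_mulVec, Matrix.one_mulVec,
    Matrix.smul_mulVec, Matrix.smul_mulVec, KD.P1_vec, KD.P2_vec, D.kd_β, smul_smul, smul_smul,
    xt_add, xt_add, xt_smul, xt_smul, h5, h6, D.xt_ω, D.xt_ω']

/-- The operators on the basis vectors. -/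
lemma dG_t {t : ℂ} (ht : t ≠ 0) (j : m) :
    dG D.h.int (fun k => t ^ k) ((1 : ℂ) ⊗ₜ[K] e (Sum.inr j)) =
      ∑ i, LT2 (D.kd Km c hc hK) t i j • ((1 : ℂ) ⊗ₜ[K] e (Sum.inr i)) := by
  have h1 : (1 : ℂ) ⊗ₜ[K] e (Sum.inr j) = xt e (Pi.single j 1) := by
    rw [xt, Finset.sum_eq_single j]
    · rw [Pi.single_eq_same, one_smul]
    · intro i _ hi; rw [Pi.single_eq_of_ne hi, zero_smul]
    · intro h; exact absurd (Finset.mem_univ _) h
  rw [h1, D.dG_xt (hc := hc) (hK := hK) ht, Matrix.mulVec_single_one]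
  rfl

/-- Positivity. -/
lemma posT : PosT (D.kd Km c hc hK) := by
  intro u hu
  obtain ⟨ρ, h4, -, h5⟩ := D.h.exists_pos (xt e fun i => (u i : ℂ))
  have h6 : xt e (fun i => (u i : ℂ)) ≠ 0 := by
    intro h0
    apply hu
    have h7 := xt_inj (e := e) (h0.trans xt_zero.symm)
    funext i
    exact Complex.ofReal_eq_zero.1 (congrFun h7 i)
  refine ⟨ρ, h5 h6, ?_⟩
  have h8 : sv cj (fun i => (u i : ℂ)) = fun i => (u i : ℂ) := by
    ext i; simp [sv, cj_apply]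
  rw [D.dG_xt (hc := hc) (hK := hK) Complex.I_ne_zero, sig_xt D.h.tau, h8, D.form_xt,
    D.bfm_symm, bfm_apply, LT2_I] at h4
  exact h4

end K3D

end Run7.h38.KG
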